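import Pool.Agent.Lib.MP_b685ef_ag.ASP.Main

/-!
# MP_b685ef_ag, theorem ASQ: statements of all modules

Paper: /team-store/b685_ASQ_paper.txt .  It extends theorem AS+ (folder `ASP`) by
* part T: a multiple eigenvalue is `q` times an algebraic unit (no condition on the factors of `G`);
* part Q: condition (L) for all ordinary quartics (`a = b = 4`) with a factor of degree `≥ 3`.
Module NAME proves `StmtNAME` in `Pool/Agent/Lib/MP_b685ef_ag/ASQ/NAME.lean` (import `...ASQ.Spec`,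
`namespace ASQ`), as `theorem name_thm (dependencies as hypotheses) : StmtNAME`.
-/

set_option linter.all false

namespace ASQ

open Finset ASur ASP

universe u v

/-! ## Part T: multiple eigenvalues -/

/-- **FATOU.** If all power sums of `β` lie in a finite `ℤ`-algebra `R`, the nonzero elements of `β`
are integral over `ℤ`. Let `D` be the finite set of the `x ∈ β`, `x ≠ 0`, `m_x` the multiplicity,
`n = #D`. Let `W ⊆ K^D` be the `ℤ`-span of `w_j = (m_x x^{j+1})_x`, `j ≥ 0`. The `K`-linear map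
`Φ(c)_i = ∑_x c_x x^i`, `0 ≤ i < n`, is injective (Vandermonde) and `Φ(w_j)_i = s_{i+j+1} ∈ R`, so `W`
is isomorphic to a submodule of `R^n`, finitely generated (`R` is a Noetherian `ℤ`-module).
Multiplication by `(x)_x` maps `w_j` to `w_{j+1}`, so `W` into itself; it is integral
(`Module.End.isIntegral`): a monic `χ ∈ ℤ[X]` with `χ(x) m_x x = 0`, so `χ(x) = 0`. -/
def StmtFATOU : Prop := ∀ (K : Type u) [Field K] [CharZero K] (R : Subalgebra ℤ K),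
  Module.Finite ℤ R → ∀ β : Multiset K,
  (∀ j, 1 ≤ j → (β.map fun x => x ^ j).sum ∈ R) → ∀ x ∈ β, x ≠ 0 → IsIntegral ℤ x

/-- **PLACE.** As `ASur.StmtK2C` (same proof), with a prescribed value: `A` = the algebraic closure of
`ℚ` in `K`; the `ℚ`-embedding `ℚ(b) → C`, `b ↦ y`, extends to `A` (algebraic over `ℚ(b)`, `C`
algebraically closed). -/
def StmtPLACE : Prop := ∀ (K : Type u) [Field K] [IsAlgClosed K] [CharZero K] (C : Type) [Field C]
  [IsAlgClosed C] [CharZero C] (β : Multiset K),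
  (∀ j, 1 ≤ j → IsAlgebraic ℚ (β.map fun x => x ^ j).sum) →
  ∀ (b : K) (y : C), IsAlgebraic ℚ b → Polynomial.aeval y (minpoly ℚ b) = 0 →
  ∃ (A : Subfield K) (g : A →+* C), (∀ x : K, IsAlgebraic ℚ x → x ∈ A) ∧ (∀ x ∈ β, x ∈ A) ∧
    ∀ hb : b ∈ A, g ⟨b, hb⟩ = y

/-- **TRANS** (transport of a solution to `C`; extract from the proof of `final_multiset` in
`AS/FINAL.lean`): the character `ψ' = g ∘ ψ`, the multiset `β' = g(β)`; `g` is injective, so the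
multiplicity of `g b` in `β'` is that of `b` in `β`. -/
def StmtTRANS : Prop := ∀ (p : ℕ) [Fact p.Prime] (k : Type) [Field k] [Fintype k]
  [Algebra (ZMod p) k] (f : MvPolynomial (Fin 2) k) (K : Type u) [Field K] [CharZero K]
  (C : Type) [Field C] [CharZero C] (A : Subfield K) (g : A →+* C),
  (∀ x : K, IsAlgebraic ℚ x → x ∈ A) → ∀ (ψ : AddChar (ZMod p) K), ψ ≠ 1 →
  ∀ β : Multiset K, (∀ x ∈ β, x ≠ 0) → (∀ x ∈ β, x ∈ A) →
  (∀ (E : Type) [Field E] [Fintype E] [Algebra (ZMod p) E] [Algebra k E],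
    (β.map fun x => x ^ Module.finrank k E).sum = Sf ψ f E ∧
    ((Fintype.card k : K) ^ Module.finrank k E) ^ 2 *
      (β.map fun x => (x⁻¹) ^ Module.finrank k E).sum = Sf ψ⁻¹ f E) →
  ∃ (ψ' : AddChar (ZMod p) C) (β' : Multiset C), ψ' ≠ 1 ∧ (∀ x ∈ β', x ≠ 0) ∧
    Multiset.card β' = Multiset.card β ∧
    (∀ (E : Type) [Field E] [Fintype E] [Algebra (ZMod p) E] [Algebra k E],
      (β'.map fun x => x ^ Module.finrank k E).sum = Sf ψ' f E ∧
      ((Fintype.card k : C) ^ Module.finrank k E) ^ 2 *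
        (β'.map fun x => (x⁻¹) ^ Module.finrank k E).sum = Sf ψ'⁻¹ f E) ∧
    ∀ (x : K) (hx : x ∈ A) (n : ℕ), Multiset.replicate n x ≤ β →
      Multiset.replicate n (g ⟨x, hx⟩) ≤ β'

/-- **CLSX** (from `ASP.StmtHALFP`, `ASur.StmtCOUNT`, PATHG, PERMC, HGI of `ASP`; the first half of
`ASP/COREP.lean`): over `C`, no condition on the factors of `G`. `H_D` is invertible as in COREP
(constant coefficient of `charpoly(N_D)`, any factorization `F` of `G` into irreducibles). Numbers of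
`β` of norm `> ‖q‖` (HALFP for `ψ`), `= ‖q‖` (`card U_D` roots), `< ‖q‖` (HALFP for `ψ⁻¹` and
`q²/β`), COUNT. Both outer parts have no repeated elements; so an element of multiplicity `≥ 2` has
norm `‖q‖`. -/
def StmtCLSX : Prop := ∀ (p : ℕ) [Fact p.Prime] (a b : ℕ), 2 ≤ a → 2 ≤ b →
  Nat.lcm a b ∣ p - 1 →
  ∀ (C : Type) [NormedField C] [IsUltrametricDist C] [CharZero C] [IsAlgClosed C],
  ‖(p : C)‖ < 1 → ∀ j : ℤ_[p] →+* C, (∀ x, ‖j x‖ ≤ 1) →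
  ∀ (k : Type) [Field k] [Fintype k] [Algebra (ZMod p) k] (f : MvPolynomial (Fin 2) k),
  (∀ m ∈ f.support, ew a b m ≤ Nat.lcm a b) →
  (∀ m, 1 ≤ m → m < Nat.lcm a b → (Polynomial.X *
    (Fprod p (Hmat p a b (Nat.lcm a b) m f) (Module.finrank (ZMod p) k)).charpoly).Separable) →
  (GF a b f).natDegree = Nat.gcd a b → Squarefree (GF a b f) →
  ∀ (ψ : AddChar (ZMod p) C), ψ ≠ 1 → ∀ β : Multiset C, (∀ x ∈ β, x ≠ 0) →
  (∀ (E : Type) [Field E] [Fintype E] [Algebra (ZMod p) E] [Algebra k E],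
    (β.map fun x => x ^ Module.finrank k E).sum = Sf ψ f E ∧
    ((Fintype.card k : C) ^ Module.finrank k E) ^ 2 *
      (β.map fun x => (x⁻¹) ^ Module.finrank k E).sum = Sf ψ⁻¹ f E) →
  Multiset.card β = (a - 1) * (b - 1) ∧
  ∀ y : C, Multiset.replicate 2 y ≤ β → ‖y‖ = ‖(Fintype.card k : C)‖

/-- **UNITQ.** Let `x ∈ K` be integral over `ℤ`, `m = minpoly ℤ x` (`m` maps to `minpoly ℚ x`),
`n = deg m`. If all roots `y ∈ C` of `m` have `‖y‖ ≤ ‖p^h‖` then the coefficient `c_{n-i}` of `m`, up to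
sign an elementary symmetric polynomial of the roots, has `‖c_{n-i}‖ ≤ ‖p‖^{hi}`, so
`p^{hi} ∣ c_{n-i}` (an integer prime to `p` has norm `1`). Divide `m(x) = 0` by `p^{hn}`. -/
def StmtUNITQ : Prop := ∀ (p : ℕ) [Fact p.Prime] (K : Type u) [Field K] [CharZero K]
  (C : Type) [NormedField C] [IsUltrametricDist C] [CharZero C] [IsAlgClosed C],
  ‖(p : C)‖ < 1 → ∀ (h : ℕ) (x : K), IsIntegral ℤ x →
  (∀ y : C, Polynomial.aeval y (minpoly ℚ x) = 0 → ‖y‖ ≤ ‖(p : C)‖ ^ h) →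
  IsIntegral ℤ (x / (p : K) ^ h)

/-- **FINX** (from CLSX, TRANS, PLACE, FATOU, UNITQ, `ASur.StmtLINALG`, `ASur.StmtEXT`).
`C = PadicAlgCl p` as in `AS/FINAL.lean`. `β` = roots of `charpoly φ`. Dimension: CLSX after transport.
Let `b` be a root of multiplicity `≥ 2`. `b` and `q²/b` are integral: FATOU for `β` and for the
multiset `q²/β`, `R = ℤ[ψ(1)]` (`IsIntegral.fg_adjoin_singleton`); all degrees `j` occur (EXT); the
second multiset has the power sums `Sf ψ⁻¹ f E`. For a root `y ∈ C` of `minpoly ℚ b` take `g` with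
`g b = y` (PLACE), transport (TRANS): `y` has multiplicity `≥ 2`, CLSX: `‖y‖ = ‖q‖`. UNITQ: `b/q` is
integral. For a root `y` of `minpoly ℚ (q²/b)` take `g` with `g(q²/b) = y`: `g b = q²/y` has norm `‖q‖`,
so `‖y‖ = ‖q‖`, and `(q²/b)/q = q/b` is integral. -/
def StmtFINX : Prop := ∀ (p : ℕ) [Fact p.Prime] (a b : ℕ), 2 ≤ a → 2 ≤ b →
  Nat.lcm a b ∣ p - 1 →
  ∀ (k : Type) [Field k] [Fintype k] [Algebra (ZMod p) k] (f : MvPolynomial (Fin 2) k),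
  (∀ m ∈ f.support, ew a b m ≤ Nat.lcm a b) →
  (∀ m, 1 ≤ m → m < Nat.lcm a b → (Polynomial.X *
    (Fprod p (Hmat p a b (Nat.lcm a b) m f) (Module.finrank (ZMod p) k)).charpoly).Separable) →
  (GF a b f).natDegree = Nat.gcd a b → Squarefree (GF a b f) →
  ∀ (K : Type u) [Field K] [IsAlgClosed K] [CharZero K] (ψ : AddChar (ZMod p) K), ψ ≠ 1 →
  ∀ (V : Type v) [AddCommGroup V] [Module K V] [FiniteDimensional K V] (φ : V ≃ₗ[K] V),
  (∀ (E : Type) [Field E] [Fintype E] [Algebra (ZMod p) E] [Algebra k E],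
    LinearMap.trace K V ((φ : V →ₗ[K] V) ^ Module.finrank k E) = Sf ψ f E ∧
    (Fintype.card E : K) ^ 2 *
      LinearMap.trace K V ((φ.symm : V →ₗ[K] V) ^ Module.finrank k E) = Sf ψ⁻¹ f E) →
  Module.finrank K V = (a - 1) * (b - 1) ∧
  ∀ x : K, 2 ≤ (LinearMap.charpoly (φ : V →ₗ[K] V)).rootMultiplicity x →
    IsIntegral ℤ (x / (Fintype.card k : K)) ∧ IsIntegral ℤ ((Fintype.card k : K) / x)

/-! ## Part Q: quartics -/

/-- Substitution `F(A₀₀ x + A₀₁ y, A₁₀ x + A₁₁ y)`. -/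
noncomputable def act {K : Type} [Field K] (A : Matrix (Fin 2) (Fin 2) K)
    (F : MvPolynomial (Fin 2) K) : MvPolynomial (Fin 2) K :=
  MvPolynomial.aeval ![MvPolynomial.C (A 0 0) * MvPolynomial.X 0 + MvPolynomial.C (A 0 1) *
      MvPolynomial.X 1, MvPolynomial.C (A 1 0) * MvPolynomial.X 0 + MvPolynomial.C (A 1 1) *
      MvPolynomial.X 1] F

/-- The matrix `(coeff_{pu-v} F)`, `u, v ∈ {(2,1), (1,2)}` (in this order). -/
noncomputable def hm (p : ℕ) {K : Type} [Field K] (F : MvPolynomial (Fin 2) K) :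
    Matrix (Fin 2) (Fin 2) K :=
  !![cf F ![2 * p - 2, p - 1], cf F ![2 * p - 1, p - 2];
     cf F ![p - 2, 2 * p - 1], cf F ![p - 1, 2 * p - 2]]

/-- The quartic form `c ∏_{i<4} (x - ρ_i y)`. -/
noncomputable def quart {K : Type} [Field K] (c : K) (ρ : Fin 4 → K) :
    MvPolynomial (Fin 2) K :=
  MvPolynomial.C c * ∏ i, (MvPolynomial.X 0 - MvPolynomial.C (ρ i) * MvPolynomial.X 1)

/-- The involution exchanging `r₀ ↔ r₁` and `r₂ ↔ r₃`: with `s = r₀+r₁`, `t = r₀r₁`, `s' = r₂+r₃`,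
`t' = r₂r₃` the matrix `(t-t', t's-s't; s-s', -(t-t'))`. -/
def invol {K : Type} [Field K] (r₀ r₁ r₂ r₃ : K) : Matrix (Fin 2) (Fin 2) K :=
  !![r₀ * r₁ - r₂ * r₃, r₂ * r₃ * (r₀ + r₁) - (r₂ + r₃) * (r₀ * r₁);
     (r₀ + r₁) - (r₂ + r₃), -(r₀ * r₁ - r₂ * r₃)]

/-- **CARE.** Semi-invariance in degree `3p - 2` (from the lemmas of `ASP/CUBA.lean`:
`ASP.CUBAaux.coeff_all`, and dehomogenization as there). For `P = x^i y^j`, `i + j = 3p - 2`, and
`(aX+b)^i (cX+d)^j`: if `i ≥ p`, `(aX+b)^i = (a^p X^p + b^p)(aX+b)^{i-p}` and the second factor times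
`(cX+d)^j` has degree `2(p-1)`, with the coefficient of `X^{p-1}` given by `coeff_all`; so the
coefficients at `X^{2p-1}`, `X^{p-1}` are `a^p`, `b^p` times `(ad-bc)^{p-1}` if `i = 2p-1` and `0`
otherwise. If `i < p` then `j ≥ p` and the same with `(c, d)`: `c^p`, `d^p` times `(ad-bc)^{p-1}` if
`i = p-1`, `0` otherwise. -/
def StmtCARE : Prop := ∀ (p : ℕ) [Fact p.Prime] (K : Type) [Field K] [CharP K p]
  (P : MvPolynomial (Fin 2) K), P.IsHomogeneous (3 * p - 2) → ∀ A : Matrix (Fin 2) (Fin 2) K,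
  cf (act A P) ![2 * p - 1, p - 1] = A.det ^ (p - 1) *
    (A 0 0 ^ p * cf P ![2 * p - 1, p - 1] + A 1 0 ^ p * cf P ![p - 1, 2 * p - 1]) ∧
  cf (act A P) ![p - 1, 2 * p - 1] = A.det ^ (p - 1) *
    (A 0 1 ^ p * cf P ![2 * p - 1, p - 1] + A 1 1 ^ p * cf P ![p - 1, 2 * p - 1])

/-- **HEQ** (from CARE). Column `0` of `hm F` consists of the coefficients of `x F` at
`(2p-1, p-1)`, `(p-1, 2p-1)`, column `1` of those of `y F`. `act A (x F) = (A₀₀ x + A₀₁ y) act A F`: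
`(hm (act A F) Aᵀ)_{·,0}` = the two coefficients of `act A (xF)`, `(..)_{·,1}` of `act A (yF)`. -/
def StmtHEQ : Prop := ∀ (p : ℕ) [Fact p.Prime] (K : Type) [Field K] [CharP K p]
  (F : MvPolynomial (Fin 2) K), F.IsHomogeneous (3 * (p - 1)) → ∀ A : Matrix (Fin 2) (Fin 2) K,
  hm p (act A F) * A.transpose =
    A.det ^ (p - 1) • ((A.map fun x => x ^ p).transpose * hm p F)

/-- **INVQ.** With `α = t - t'`, `γ = s - s'`, `β = γt - αs = γt' - αs'` and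
`R = α² + βγ = α² - sαγ + tγ² = α² - s'αγ + t'γ²` one has
`(αX+βY)² - s(αX+βY)(γX-αY) + t(γX-αY)² = R(X² - sXY + tY²)`, the same for `s', t'`;
`R = (r₀-r₂)(r₀-r₃)(r₁-r₂)(r₁-r₃) = -det M`. -/
def StmtINVQ : Prop := ∀ (K : Type) [Field K] (c : K) (ρ : Fin 4 → K),
  let M := invol (ρ 0) (ρ 1) (ρ 2) (ρ 3)
  act M (quart c ρ) = MvPolynomial.C (M.det ^ 2) * quart c ρ ∧
  M.det = -((ρ 0 - ρ 2) * (ρ 0 - ρ 3) * (ρ 1 - ρ 2) * (ρ 1 - ρ 3))

/-- **NCOM.** If `M = invol(r₀,r₁,r₂,r₃)` and `M' = invol(r₁,r₂,r₃,r₀)` commute (both of trace `0`,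
`M ≠ 0 ≠ M'`), then `M' = λM`, `λ ≠ 0`. `M (r₁,1) = (γr₁-α)(r₀,1)` and `M' (r₁,1) = (γ'r₁-α')(r₂,1)`, so
`(γr₁-α)(r₀ - r₂) = 0` and `M (r₁,1) = 0`, against `det M ≠ 0`. -/
def StmtNCOM : Prop := ∀ (K : Type) [Field K] (r₀ r₁ r₂ r₃ : K),
  (2 : K) ≠ 0 → r₀ ≠ r₁ → r₀ ≠ r₂ → r₀ ≠ r₃ → r₁ ≠ r₂ → r₁ ≠ r₃ → r₂ ≠ r₃ →
  invol r₀ r₁ r₂ r₃ * invol r₁ r₂ r₃ r₀ ≠ invol r₁ r₂ r₃ r₀ * invol r₀ r₁ r₂ r₃

/-- **ITERQ.** Induction: `H^{(p^i)} B^{(p^i)} = μ^{p^i} B^{(p^{i+1})} H^{(p^i)}` (entrywise powers are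
ring homomorphisms, characteristic `p`). -/
def StmtITERQ : Prop := ∀ (p : ℕ) [Fact p.Prime] (K : Type) [Field K] [CharP K p]
  (H B : Matrix (Fin 2) (Fin 2) K) (μ : K), μ ≠ 0 →
  H * B = μ • ((B.map fun x => x ^ p) * H) → ∀ n : ℕ, ∃ ν : K, ν ≠ 0 ∧
  Fprod p H n * B = ν • ((B.map fun x => x ^ (p ^ n)) * Fprod p H n)

/-- **DISTQ.** `q` a power of `p`, `N` invertible with entries fixed by `x ↦ x^q`,
`N B = μ B^{(q)} N`, `B^{(q^{12})} = B`, `det B ≠ 0`, `B` and `B^{(q)}` do not commute: then `N` has two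
different eigenvalues. Proof: `N B N⁻¹ = μ B^{(q)}`, applying the Frobenius and iterating,
`N^{12} B N^{-12} = μ' B`, determinants: `μ'² = 1`, so `N^{24}` commutes with `B`, and (apply the
Frobenius) with `B^{(q)}`; a 2×2 matrix commuting with two matrices which do not commute is scalar. If
`N = s + ν`, `ν² = 0` (double eigenvalue `s ≠ 0`; `p ≠ 2`), then `N^{24} = s^{24} + 24 s^{23} ν` is scalar,
`p` does not divide `24`: `ν` is scalar and nilpotent, `ν = 0`, `N = s`, `B = μ B^{(q)}` commutes with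
`B^{(q)}`: contradiction. -/
def StmtDISTQ : Prop := ∀ (p : ℕ) [Fact p.Prime], 5 ≤ p → ∀ (K : Type) [Field K] [IsAlgClosed K]
  [CharP K p] (h : ℕ) (N B : Matrix (Fin 2) (Fin 2) K) (μ : K), μ ≠ 0 →
  (N.map fun x => x ^ (p ^ h)) = N → N.det ≠ 0 → B.det ≠ 0 →
  N * B = μ • ((B.map fun x => x ^ (p ^ h)) * N) →
  (B.map fun x => x ^ ((p ^ h) ^ 12)) = B →
  B * (B.map fun x => x ^ (p ^ h)) ≠ (B.map fun x => x ^ (p ^ h)) * B →
  (Polynomial.X * N.charpoly).Separable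

/-- **ROOTS4.** Let `P` be an irreducible factor of degree `d ≥ 3` of `G`, `ρ₀ ∈ K` a root,
`ρ₁ = ρ₀^q`, `ρ₂ = ρ₀^{q²}`: different roots (`ρ₀^{q^i} = ρ₀` iff `d ∣ i`, for `0 < i < d` it does not
hold; `k(ρ₀)` has `q^d` elements). The `4` roots of `G` are different (squarefree, `k` perfect) and
permuted by `x ↦ x^q`; let `ρ₃` be the fourth. `x ↦ x^q` maps `{ρ₂, ρ₃}` onto the complement
`{ρ₃, ρ₀}` of `{ρ₁, ρ₂}`. The permutation has order `1, 2, 3, 4`, dividing `12`. -/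
def StmtROOTS4 : Prop := ∀ (k : Type) [Field k] [Fintype k] (K : Type) [Field K] [IsAlgClosed K]
  [Algebra k K] (G : Polynomial k), G.natDegree = 4 → Squarefree G →
  (∃ P, Irreducible P ∧ P ∣ G ∧ 3 ≤ P.natDegree) →
  ∃ (c : K) (ρ : Fin 4 → K), c ≠ 0 ∧ Function.Injective ρ ∧
    G.map (algebraMap k K) = Polynomial.C c * ∏ i, (Polynomial.X - Polynomial.C (ρ i)) ∧
    ρ 1 = ρ 0 ^ Fintype.card k ∧ ρ 2 = ρ 1 ^ Fintype.card k ∧
    ((ρ 2 ^ Fintype.card k = ρ 3 ∧ ρ 3 ^ Fintype.card k = ρ 0) ∨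
      (ρ 2 ^ Fintype.card k = ρ 0 ∧ ρ 3 ^ Fintype.card k = ρ 3)) ∧
    ∀ i, ρ i ^ (Fintype.card k ^ 12) = ρ i

/-- **DETC.** The cubic case of DETH3: `F = (c y ∏_{i<3} (x - τ_i y))^e`, `e = 3(p-1)/4`. If
`hm F v = 0`, `v ≠ 0`, put `P(x) = (v₀ x + v₁) c^e ∏ (x-τ_i)^e`: the coefficients of `P` at
`x^{2p-1}`, `x^{p-1}` vanish (rows of `hm F v`; `y = 1`), and `deg P ≤ 3e + 1 < 3p - 1`. So `P = Q'` with
`deg Q ≤ 3e + 2`. There is `R` of degree `≤ 2` with `R(τ_i^p) = Q(τ_i)` (the `τ_i^p` are different);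
replace `Q` by `Q - R(x^p)`: still `Q' = P`, `Q(τ_i) = 0`. The order of `Q` at `τ_i` is `≥ e + 1`: an
order `r`, `1 ≤ r ≤ e < p`, would give the order `r - 1 < e` of `Q' = P`. So `Q = 0` or
`3(e+1) ≤ deg Q ≤ max(3e+2, 2p)`, and `8p < 9(p-1) + 12`; so `Q = 0`, `P = 0`: contradiction. -/
def StmtDETC : Prop := ∀ (p : ℕ) [Fact p.Prime], 4 ∣ p - 1 → ∀ (K : Type) [Field K] [CharP K p]
  (c : K) (τ : Fin 3 → K), c ≠ 0 → Function.Injective τ →
  (hm p ((MvPolynomial.C c * MvPolynomial.X 1 * ∏ i, (MvPolynomial.X 0 -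
    MvPolynomial.C (τ i) * MvPolynomial.X 1)) ^ (3 * (p - 1) / 4))).det ≠ 0

/-- **DETH3** (from HEQ, DETC). `A = (ρ₃, 1; 1, 0)`, `det A = -1`:
`act A (x - ρ_i y) = (ρ₃ - ρ_i) x + y`, `= y` for `i = 3`; so
`act A (quart c ρ) = c' y ∏_{i<3} (x - τ_i y)`, `τ_i = (ρ_i - ρ₃)⁻¹`, `c' = c ∏ (ρ₃ - ρ_i)`. -/
def StmtDETH3 : Prop := ∀ (p : ℕ) [Fact p.Prime], 4 ∣ p - 1 → ∀ (K : Type) [Field K] [CharP K p]
  (c : K) (ρ : Fin 4 → K), c ≠ 0 → Function.Injective ρ →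
  (hm p (quart c ρ ^ (3 * (p - 1) / 4))).det ≠ 0

/-- **LEAD4.** `lead 4 4 f` is the homogenization of `G = GF 4 4 f` (`ASP.HGIaux.lead_eq` with
`a' = b' = 1`); if `G` becomes `c ∏ (X - ρ_i)` over `K` it becomes `quart c ρ`
(`Polynomial.homogenize_mul`, or compare coefficients). -/
def StmtLEAD4 : Prop := ∀ (k K : Type) [Field k] [Field K] [Algebra k K]
  (f : MvPolynomial (Fin 2) k) (c : K) (ρ : Fin 4 → K),
  (GF 4 4 f).map (algebraMap k K) = Polynomial.C c * ∏ i, (Polynomial.X - Polynomial.C (ρ i)) →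
  MvPolynomial.map (algebraMap k K) (lead 4 4 f) = quart c ρ

/-- **RED3.** `U_3` for `a = b = 4` is `{(2,1), (1,2)}` and `N_3`, as a matrix over `K`, is the product
of the entrywise powers of `hm p (lead^e)`, `e = 3(p-1)/4`. -/
def StmtRED3 : Prop := ∀ (p : ℕ) [Fact p.Prime], 4 ∣ p - 1 → ∀ (k K : Type) [Field k] [Field K]
  [Algebra k K] (f : MvPolynomial (Fin 2) k) (h : ℕ),
  (Fprod p (Hmat p 4 4 (Nat.lcm 4 4) 3 f) h).charpoly.map (algebraMap k K) =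
    (Fprod p (hm p ((MvPolynomial.map (algebraMap k K) (lead 4 4 f)) ^ (3 * (p - 1) / 4)))
      h).charpoly

/-- **QLAST** (from HEQ, INVQ, NCOM, ITERQ, DISTQ, ROOTS4, DETH3, LEAD4, RED3). `K` = an algebraic
closure of `k`. `U_1` is empty, `U_2 = {(1,1)}` (use `ASP.cubic_small`, `ASP.cubic_fprod`).
`m = 3`: `f₁ = quart c ρ`, `M = invol(ρ)`, `F = f₁^e`, `H = hm p F`: INVQ and HEQ give
`det(M)^{2e} H Mᵀ = det(M)^{p-1} (M^{(p)})ᵀ H`; ITERQ with `B = Mᵀ`; the entries of `H` are in the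
image of `k`, so `N_3 = Fprod p H h` is fixed by `x ↦ x^q`, `q = p^h = #k`; `det N_3 ≠ 0` (DETH3,
`ASP.cubic_fprod`); `M^{(q)} = invol(ρ_1, ρ_2, ρ_3, ρ_0)` by ROOTS4 in both cases (symmetric in the
last two arguments), NCOM (transposed); `M^{(q^{12})} = M`; DISTQ; `Polynomial.separable_map`. -/
def StmtQLAST : Prop := ∀ (p : ℕ) [Fact p.Prime], 4 ∣ p - 1 →
  ∀ (k : Type) [Field k] [Fintype k] [Algebra (ZMod p) k] (f : MvPolynomial (Fin 2) k),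
  (GF 4 4 f).natDegree = 4 → Squarefree (GF 4 4 f) →
  (∃ P, Irreducible P ∧ P ∣ GF 4 4 f ∧ 3 ≤ P.natDegree) →
  cf (lead 4 4 f ^ ((p - 1) / 2)) ![p - 1, p - 1] ≠ 0 →
  ∀ m, 1 ≤ m → m < Nat.lcm 4 4 → (Polynomial.X *
    (Fprod p (Hmat p 4 4 (Nat.lcm 4 4) m f) (Module.finrank (ZMod p) k)).charpoly).Separable

end ASQ
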