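import Pool.Agent.Lib.MP_b685ef_ag.ASQ.Spec
import Pool.Agent.Lib.MP_b685ef_ag.ASP.FINALP

section
/-!
# ASQ, module FATOU

If all power sums of a multiset lie in a finite `ℤ`-algebra, its nonzero elements are integral.
-/
set_option linter.all false

namespace ASQ

universe u

open Finset

theorem fatou_thm : StmtFATOU.{u} := by
  classical
  intro K _ _ R hR β hβ x hx hx0
  -- the distinct nonzero elements
  set D : Finset K := β.toFinset.erase 0 with hD
  let n : ℕ := D.card
  let e : Fin n ≃ D := D.equivFin.symm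
  let f : Fin n → K := fun i => (e i : K)
  have hf : Function.Injective f := fun i j h => e.injective (Subtype.ext h)
  let m : Fin n → K := fun i => (β.count (f i) : K)
  have hfD : ∀ i, f i ∈ D := fun i => (e i).2
  have hm : ∀ i, m i ≠ 0 := by
    intro i
    have h1 : f i ∈ β := by
      have := hfD i
      rw [hD, Finset.mem_erase] at this
      exact Multiset.mem_toFinset.1 this.2
    have h2 : β.count (f i) ≠ 0 := (Multiset.count_pos.2 h1).ne'
    simpa [m] using h1
  have hf0 : ∀ i, f i ≠ 0 := by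
    intro i
    have := hfD i
    rw [hD, Finset.mem_erase] at this
    exact this.1
  -- power sums
  have hps : ∀ j : ℕ, 1 ≤ j → ∑ i : Fin n, m i * f i ^ j ∈ R := by
    intro j hj
    have h1 := hβ j hj
    have h2 : (β.map fun x => x ^ j).sum = ∑ y ∈ D, (β.count y : K) * y ^ j := by
      rw [Finset.sum_multiset_map_count, hD, Finset.sum_erase]
      · refine Finset.sum_congr rfl fun y _ => ?_
        rw [nsmul_eq_mul]
      · rw [zero_pow (by omega), mul_zero]
    have h3 : ∑ y ∈ D, (β.count y : K) * y ^ j = ∑ i : Fin n, m i * f i ^ j := by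
      rw [← Finset.sum_coe_sort D (fun y => (β.count y : K) * y ^ j)]
      exact (Equiv.sum_comp e (fun y : D => (β.count (y : K) : K) * (y : K) ^ j)).symm
    rw [← h3, ← h2]
    exact h1
  -- the ℤ-module spanned by the sequences
  let w : ℕ → (Fin n → K) := fun j i => m i * f i ^ (j + 1)
  let N : Submodule ℤ (Fin n → K) := Submodule.span ℤ (Set.range w)
  let Φ : (Fin n → K) →ₗ[ℤ] (Fin n → K) :=
    { toFun := fun c l => ∑ i, c i * f i ^ (l : ℕ)
      map_add' := by
        intro a b
        funext l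
        simp [add_mul, Finset.sum_add_distrib]
      map_smul' := by
        intro a b
        funext l
        simp [Finset.mul_sum, mul_assoc] }
  have hΦ : Function.Injective Φ := by
    intro a b hab
    rw [← sub_eq_zero]
    apply Matrix.eq_zero_of_forall_pow_sum_mul_pow_eq_zero hf
    intro l
    have h1 : Φ (a - b) l = 0 := by
      rw [map_sub, hab, sub_self]
      rfl
    exact h1
  let ι : (Fin n → R) →ₗ[ℤ] (Fin n → K) :=
    { toFun := fun c l => (c l : K)
      map_add' := by
        intro a b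
        funext l
        simp
      map_smul' := by
        intro a b
        funext l
        simp }
  have hNfg : N.FG := by
    apply Submodule.fg_of_fg_map_injective Φ hΦ
    have hι : (LinearMap.range ι).FG := by
      haveI : Module.Finite ℤ R := hR
      haveI : Module.Finite ℤ (Fin n → R) := inferInstance
      rw [LinearMap.range_eq_map]
      exact (Module.Finite.fg_top (R := ℤ) (M := Fin n → R)).map ι
    refine hι.of_le ?_
    rw [Submodule.map_le_iff_le_comap, Submodule.span_le]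
    rintro _ ⟨j, rfl⟩
    refine ⟨fun l => ⟨∑ i, m i * f i ^ (j + 1 + (l : ℕ)), hps _ (by omega)⟩, ?_⟩
    funext l
    change ∑ i, m i * f i ^ (j + 1 + (l : ℕ)) = ∑ i, m i * f i ^ (j + 1) * f i ^ (l : ℕ)
    refine Finset.sum_congr rfl fun i _ => ?_
    rw [pow_add, mul_assoc]
  -- the coordinate at x
  have hxD : x ∈ D := by
    rw [hD, Finset.mem_erase]
    exact ⟨hx0, Multiset.mem_toFinset.2 hx⟩
  obtain ⟨i₀, hi₀⟩ : ∃ i, f i = x := ⟨e.symm ⟨x, hxD⟩, by simp [f]⟩
  let T : (Fin n → K) →ₗ[ℤ] (Fin n → K) :=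
    { toFun := fun c i => f i * c i
      map_add' := by
        intro a b
        funext l
        simp [mul_add]
      map_smul' := by
        intro a b
        funext l
        simp [mul_left_comm] }
  have hT : N ≤ N.comap T := by
    rw [Submodule.span_le]
    rintro _ ⟨j, rfl⟩
    refine Submodule.subset_span ⟨j + 1, ?_⟩
    funext i
    change m i * f i ^ (j + 1 + 1) = f i * (m i * f i ^ (j + 1))
    ring
  let π : (Fin n → K) →ₗ[ℤ] K := LinearMap.proj i₀
  refine isIntegral_of_smul_mem_submodule (N.map π) ?_ (hNfg.map π) x ?_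
  · intro h
    have h1 : w 0 i₀ ∈ N.map π := ⟨w 0, Submodule.subset_span ⟨0, rfl⟩, rfl⟩
    rw [h, Submodule.mem_bot] at h1
    have h2 : m i₀ * f i₀ ^ (0 + 1) = 0 := h1
    rcases mul_eq_zero.1 h2 with h3 | h3
    · exact hm i₀ h3
    · exact hf0 i₀ (pow_eq_zero_iff (by omega) |>.1 h3)
  · rintro _ ⟨c, hc, rfl⟩
    refine ⟨T c, hT hc, ?_⟩
    change f i₀ * c i₀ = x • c i₀
    rw [hi₀, smul_eq_mul]

end ASQ
end

section
/-!
# MP_b685ef_ag, theorem ASQ, module PLACE (helper77)
-/
set_option linter.all false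

namespace ASQ

open Finset ASur

universe u v

namespace PLACEaux

theorem esymm_mem {F : Type} {K : Type*} [Field F] [Field K] [Algebra F K] [CharZero F]
    [CharZero K] (β : Multiset K)
    (h : ∀ j, 1 ≤ j → IsAlgebraic F (β.map fun x => x ^ j).sum) :
    ∀ k, β.esymm k ∈ algebraicClosure F K := by
  classical
  intro k
  induction k using Nat.strong_induction_on with
  | _ k ih =>
  have hf : (Finset.univ.val.map (fun i : β => (i : K))) = β := Multiset.map_univ_coe β
  have hes : ∀ n, MvPolynomial.aeval (fun i : β => (i : K)) (MvPolynomial.esymm β F n) =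
      β.esymm n := by
    intro n
    rw [MvPolynomial.aeval_esymm_eq_multiset_esymm, hf]
  have hps : ∀ n, MvPolynomial.aeval (fun i : β => (i : K)) (MvPolynomial.psum β F n) =
      (β.map fun x => x ^ n).sum := by
    intro n
    rw [MvPolynomial.psum, map_sum]
    simp only [map_pow, MvPolynomial.aeval_X]
    conv_rhs => rw [← hf, Multiset.map_map]
    rfl
  rcases Nat.eq_zero_or_pos k with rfl | hk
  · simp only [Multiset.esymm, Multiset.powersetCard_zero_left, Multiset.map_singleton,
      Multiset.prod_zero, Multiset.sum_singleton]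
    exact one_mem _
  · have hN := congrArg (MvPolynomial.aeval (fun i : β => (i : K)))
      (MvPolynomial.mul_esymm_eq_sum β F k)
    simp only [map_mul, map_sum, map_pow, map_neg, map_one, map_natCast, hes, hps] at hN
    have hk0 : (k : K) ≠ 0 := by exact_mod_cast hk.ne'
    have : β.esymm k = (k : K)⁻¹ * ((-1) ^ (k + 1) *
        ∑ a ∈ (antidiagonal k).filter (fun a => a.1 < k), (-1) ^ a.1 * β.esymm a.1 *
          (β.map fun x => x ^ a.2).sum) := by
      rw [← hN, inv_mul_cancel_left₀ hk0]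
    rw [this]
    refine mul_mem (inv_mem (natCast_mem _ k)) (mul_mem (pow_mem (neg_mem (one_mem _)) _)
      (sum_mem fun a ha => ?_))
    simp only [Finset.mem_filter, Finset.HasAntidiagonal.mem_antidiagonal] at ha
    refine mul_mem (mul_mem (pow_mem (neg_mem (one_mem _)) _) (ih _ ha.2)) ?_
    exact mem_algebraicClosure_iff.2 (h _ (by omega))

theorem alg_mem {F : Type} {K : Type*} [Field F] [Field K] [Algebra F K] [CharZero F]
    [CharZero K] (β : Multiset K)
    (h : ∀ j, 1 ≤ j → IsAlgebraic F (β.map fun x => x ^ j).sum) :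
    ∀ x ∈ β, x ∈ algebraicClosure F K := by
  classical
  intro x hx
  have hes := esymm_mem β h
  set P : Polynomial K := (β.map fun t => Polynomial.X - Polynomial.C t).prod with hP
  have hmonic : P.Monic := Polynomial.monic_multiset_prod_of_monic _ _
    fun t _ => Polynomial.monic_X_sub_C t
  have hdeg : P.natDegree = Multiset.card β := by
    rw [hP, Polynomial.natDegree_multiset_prod_X_sub_C_eq_card]
  have hcoe : ∀ n, P.coeff n ∈ algebraicClosure F K := by
    intro n
    rcases le_or_gt n (Multiset.card β) with hn | hn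
    · rw [hP, Multiset.prod_X_sub_C_coeff β hn]
      exact mul_mem (pow_mem (neg_mem (one_mem _)) _) (hes _)
    · rw [Polynomial.coeff_eq_zero_of_natDegree_lt (by omega)]
      exact zero_mem _
  have hlift : P ∈ Polynomial.lifts (algebraMap (algebraicClosure F K) K) := by
    rw [Polynomial.lifts_iff_coeff_lifts]
    intro n
    exact ⟨⟨P.coeff n, hcoe n⟩, rfl⟩
  obtain ⟨q, hq⟩ := (Polynomial.mem_lifts P).1 hlift
  have hq0 : q ≠ 0 := by
    rintro rfl
    rw [Polynomial.map_zero] at hq
    exact hmonic.ne_zero hq.symm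
  have hroot : Polynomial.eval x P = 0 := by
    rw [hP, Polynomial.eval_multiset_prod]
    apply Multiset.prod_eq_zero
    rw [Multiset.mem_map]
    refine ⟨Polynomial.X - Polynomial.C x, Multiset.mem_map_of_mem _ hx, by simp⟩
  have hx' : IsAlgebraic (algebraicClosure F K) x := by
    refine ⟨q, hq0, ?_⟩
    rw [Polynomial.aeval_def, ← Polynomial.eval_map, hq, hroot]
  rw [mem_algebraicClosure_iff]
  exact hx'.restrictScalars F

end PLACEaux

open PLACEaux in
theorem place_thm : StmtPLACE.{u} := by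
  intro K _ _ _ C _ _ _ β h b y hb hy
  have hbA : b ∈ algebraicClosure ℚ K := mem_algebraicClosure_iff.2 hb
  have hm : minpoly ℚ (⟨b, hbA⟩ : algebraicClosure ℚ K) = minpoly ℚ b :=
    (minpoly.algebraMap_eq (A := ℚ) (B := algebraicClosure ℚ K) (B' := K)
      (algebraMap (algebraicClosure ℚ K) K).injective ⟨b, hbA⟩).symm
  obtain ⟨φ, hφ⟩ := IntermediateField.exists_algHom_of_splits_of_aeval (F := ℚ)
    (E := algebraicClosure ℚ K) (K := C) (x := ⟨b, hbA⟩) (y := y)
    (fun s => ⟨((isAlgebraic_algebraMap_iff (algebraMap (algebraicClosure ℚ K) K).injective).1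
      (mem_algebraicClosure_iff.1 s.2)).isIntegral, IsAlgClosed.splits _⟩)
    (by rw [hm]; exact hy)
  refine ⟨(algebraicClosure ℚ K).toSubfield, (φ : algebraicClosure ℚ K →+* C), ?_, ?_, ?_⟩
  · intro x hx
    exact mem_algebraicClosure_iff.2 hx
  · intro x hx
    exact alg_mem β h x hx
  · intro _
    exact hφ

end ASQ
end

section
/-!
# ASQ, module UNITQ

An algebraic integer all of whose conjugates have `p`-adic absolute value at most `‖p‖^h`, for every
embedding into a `p`-adic field, is divisible by `p^h`.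
-/
set_option linter.all false

namespace ASQ

universe u

open Finset

namespace UNITQaux

/-- The unit ball of an ultrametric normed field. -/
def ball (C : Type) [NormedField C] [IsUltrametricDist C] : Subring C where
  carrier := {z | ‖z‖ ≤ 1}
  mul_mem' := by
    intro a b ha hb
    have ha' : ‖a‖ ≤ 1 := ha
    have hb' : ‖b‖ ≤ 1 := hb
    show ‖a * b‖ ≤ 1
    rw [norm_mul]
    exact mul_le_one₀ ha' (norm_nonneg _) hb'
  one_mem' := by
    show ‖(1 : C)‖ ≤ 1
    rw [norm_one]
  add_mem' := by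
    intro a b ha hb
    have ha' : ‖a‖ ≤ 1 := ha
    have hb' : ‖b‖ ≤ 1 := hb
    show ‖a + b‖ ≤ 1
    exact (IsUltrametricDist.norm_add_le_max a b).trans (max_le ha' hb')
  zero_mem' := by
    show ‖(0 : C)‖ ≤ 1
    rw [norm_zero]
    exact zero_le_one
  neg_mem' := by
    intro a ha
    have ha' : ‖a‖ ≤ 1 := ha
    show ‖-a‖ ≤ 1
    rwa [norm_neg]

theorem mem_ball {C : Type} [NormedField C] [IsUltrametricDist C] (z : C) :
    z ∈ ball C ↔ ‖z‖ ≤ 1 := Iff.rfl

/-- Integers have norm at most one. -/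
theorem norm_int_le {C : Type} [NormedField C] [IsUltrametricDist C] (z : ℤ) : ‖(z : C)‖ ≤ 1 :=
  (mem_ball _).1 (intCast_mem (ball C) z)

/-- A monic polynomial with all roots in the unit ball has its coefficients in the unit ball. -/
theorem coeff_le {C : Type} [NormedField C] [IsUltrametricDist C] [IsAlgClosed C]
    (q : Polynomial C)
    (hq : q.Monic) (hr : ∀ z : C, q.IsRoot z → ‖z‖ ≤ 1) (i : ℕ) : ‖q.coeff i‖ ≤ 1 := by
  have hs : q.Splits := IsAlgClosed.splits q
  have hp : q = (q.roots.map fun a => Polynomial.X - Polynomial.C a).prod :=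
    hs.eq_prod_roots_of_monic hq
  have hl : q ∈ Polynomial.lifts (ball C).subtype := by
    rw [hp]
    refine Subsemiring.multiset_prod_mem _ _ ?_
    intro a ha
    obtain ⟨b, hb, rfl⟩ := Multiset.mem_map.1 ha
    have hb' : q.IsRoot b := Polynomial.isRoot_of_mem_roots hb
    rw [sub_eq_add_neg, ← Polynomial.C_neg]
    refine add_mem (Polynomial.X_mem_lifts _) (Polynomial.C'_mem_lifts ⟨⟨-b, ?_⟩, rfl⟩)
    rw [mem_ball, norm_neg]
    exact hr b hb'
  rw [Polynomial.lifts_iff_coeff_lifts] at hl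
  obtain ⟨y, hy⟩ := hl i
  rw [← hy]
  exact y.2

/-- An integer of norm less than one is divisible by `p`. -/
theorem dvd_of_norm_lt {C : Type} [NormedField C] [IsUltrametricDist C] (p : ℕ) [Fact p.Prime]
    (hp : ‖(p : C)‖ < 1) (c : ℤ) (hc : ‖(c : C)‖ < 1) : (p : ℤ) ∣ c := by
  by_contra hd
  have hprime : Prime (p : ℤ) := Nat.prime_iff_prime_int.1 Fact.out
  have hcop : IsCoprime (p : ℤ) c := (Prime.coprime_iff_not_dvd hprime).2 hd
  obtain ⟨u, v, huv⟩ := hcop
  have h1 : ((u : C) * (p : C) + (v : C) * (c : C)) = 1 := by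
    exact_mod_cast congrArg (fun z : ℤ => (z : C)) huv
  have h2 : ‖((u : C) * (p : C) + (v : C) * (c : C))‖ < 1 := by
    refine (IsUltrametricDist.norm_add_le_max _ _).trans_lt (max_lt ?_ ?_)
    · rw [norm_mul]
      exact (mul_le_of_le_one_left (norm_nonneg _) (norm_int_le u)).trans_lt hp
    · rw [norm_mul]
      exact (mul_le_of_le_one_left (norm_nonneg _) (norm_int_le v)).trans_lt hc
  rw [h1, norm_one] at h2
  exact lt_irrefl _ h2

/-- An integer of norm at most `‖p‖^k` is divisible by `p^k`. -/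
theorem pow_dvd_of_norm_le {C : Type} [NormedField C] [IsUltrametricDist C] [CharZero C]
    (p : ℕ) [Fact p.Prime] (hp : ‖(p : C)‖ < 1) (k : ℕ) :
    ∀ c : ℤ, ‖(c : C)‖ ≤ ‖(p : C)‖ ^ k → (p : ℤ) ^ k ∣ c := by
  have hp0 : (p : C) ≠ 0 := by
    exact_mod_cast (Fact.out : p.Prime).ne_zero
  have hpos : 0 < ‖(p : C)‖ := norm_pos_iff.2 hp0
  induction k with
  | zero =>
    intro c _
    rw [pow_zero]
    exact one_dvd _
  | succ k ih =>
    intro c hc
    have h1 : ‖(c : C)‖ < 1 := by
      refine hc.trans_lt ?_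
      exact pow_lt_one₀ (norm_nonneg _) hp (Nat.succ_ne_zero k)
    obtain ⟨d, rfl⟩ := dvd_of_norm_lt p hp c h1
    rw [pow_succ']
    refine mul_dvd_mul_left _ (ih d ?_)
    have h2 : ‖(p : C)‖ * ‖(d : C)‖ ≤ ‖(p : C)‖ * ‖(p : C)‖ ^ k := by
      rw [← pow_succ', ← norm_mul]
      refine le_of_eq_of_le ?_ hc
      push_cast
      rfl
    exact le_of_mul_le_mul_left h2 hpos

end UNITQaux

open UNITQaux

theorem unitq_thm : StmtUNITQ.{u} := by
  classical
  intro p _ K _ _ C _ _ _ _ hp1 h x hx hy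
  have hp0 : (p : C) ≠ 0 := by
    exact_mod_cast (Fact.out : p.Prime).ne_zero
  have hpK : (p : K) ≠ 0 := by
    exact_mod_cast (Fact.out : p.Prime).ne_zero
  have hpZ : (p : ℤ) ≠ 0 := by
    exact_mod_cast (Fact.out : p.Prime).ne_zero
  set M : Polynomial ℤ := minpoly ℤ x with hM
  have hMm : M.Monic := minpoly.monic hx
  have hMQ : minpoly ℚ x = M.map (algebraMap ℤ ℚ) :=
    minpoly.isIntegrallyClosed_eq_field_fractions' ℚ hx
  set n : ℕ := M.natDegree with hn
  set mC : Polynomial C := M.map (Int.castRingHom C) with hmC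
  have hmCm : mC.Monic := hMm.map _
  have hdeg : mC.natDegree = n := hMm.natDegree_map _
  have ha0 : (p : C) ^ h ≠ 0 := pow_ne_zero _ hp0
  set q : Polynomial C := mC.scaleRoots ((p : C) ^ h)⁻¹ with hq
  have hqm : q.Monic := (Polynomial.monic_scaleRoots_iff _).2 hmCm
  have hqa : q.scaleRoots ((p : C) ^ h) = mC := by
    rw [hq, ← Polynomial.scaleRoots_mul, inv_mul_cancel₀ ha0, Polynomial.scaleRoots_one]
  have hroot : ∀ z : C, q.IsRoot z → ‖z‖ ≤ 1 := by
    intro z hz
    have h1 : Polynomial.eval ((p : C) ^ h * z) mC = 0 := by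
      have h2 := Polynomial.scaleRoots_eval_mul q z ((p : C) ^ h)
      rw [hqa] at h2
      rw [h2, show Polynomial.eval z q = 0 from hz, mul_zero]
    have h3 : Polynomial.aeval ((p : C) ^ h * z) (minpoly ℚ x) = 0 := by
      rw [hMQ, Polynomial.aeval_map_algebraMap, ← h1, hmC, Polynomial.eval_map]
      rfl
    have h4 := hy _ h3
    rw [norm_mul, norm_pow] at h4
    have h5 : 0 < ‖(p : C)‖ ^ h := pow_pos (norm_pos_iff.2 hp0) _
    exact le_of_mul_le_mul_left (by rwa [mul_one]) h5
  -- divisibility of the coefficients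
  have hdvd : ∀ i, ((p : ℤ) ^ h) ^ (n - i) ∣ M.coeff i := by
    intro i
    have h1 := coeff_le q hqm hroot i
    rw [hq, Polynomial.coeff_scaleRoots, hdeg, hmC, Polynomial.coeff_map, norm_mul, norm_pow,
      norm_inv, norm_pow] at h1
    rw [← pow_mul]
    refine pow_dvd_of_norm_le p hp1 _ _ ?_
    have h5 : 0 < ‖(p : C)‖ ^ (h * (n - i)) := pow_pos (norm_pos_iff.2 hp0) _
    have h6 : ((‖(p : C)‖ ^ h)⁻¹) ^ (n - i) = (‖(p : C)‖ ^ (h * (n - i)))⁻¹ := by
      rw [inv_pow, ← pow_mul]
    rw [h6, ← div_eq_mul_inv, div_le_one h5] at h1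
    exact h1
  choose d hd using hdvd
  set m' : Polynomial ℤ := ∑ i ∈ Finset.range (n + 1), Polynomial.monomial i (d i) with hm'
  have hcoeff : ∀ j, j ≤ n → m'.coeff j = d j := by
    intro j hj
    rw [hm', Polynomial.finset_sum_coeff]
    simp only [Polynomial.coeff_monomial]
    rw [Finset.sum_ite_eq' (Finset.range (n + 1)) j]
    rw [if_pos (Finset.mem_range.2 (by omega))]
  have hdn : d n = 1 := by
    have h1 := hd n
    rw [Nat.sub_self, pow_zero, one_mul] at h1
    rw [← h1]
    exact hMm.coeff_natDegree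
  have hmon : m'.Monic := by
    refine Polynomial.monic_of_natDegree_le_of_coeff_eq_one n ?_ ?_
    · refine Polynomial.natDegree_sum_le_of_forall_le _ _ ?_
      intro i hi
      exact (Polynomial.natDegree_monomial_le _).trans (by
        have := Finset.mem_range.1 hi
        omega)
    · rw [hcoeff n le_rfl, hdn]
  refine ⟨m', hmon, ?_⟩
  have hpn : ((p : K) ^ h) ^ n ≠ 0 := pow_ne_zero _ (pow_ne_zero _ hpK)
  have hmain : ((p : K) ^ h) ^ n * Polynomial.eval₂ (algebraMap ℤ K) (x / (p : K) ^ h) m' =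
      Polynomial.aeval x M := by
    rw [hm', Polynomial.eval₂_finset_sum, Finset.mul_sum, Polynomial.aeval_eq_sum_range]
    refine Finset.sum_congr rfl fun i hi => ?_
    have hi' : i ≤ n := by
      have := Finset.mem_range.1 hi
      omega
    rw [Polynomial.eval₂_monomial, hd i]
    have h7 : ((p : K) ^ h) ^ n = ((p : K) ^ h) ^ (n - i) * ((p : K) ^ h) ^ i := by
      rw [← pow_add, Nat.sub_add_cancel hi']
    rw [h7, div_pow, zsmul_eq_mul]
    have h8 : ((p : K) ^ h) ^ i ≠ 0 := pow_ne_zero _ (pow_ne_zero _ hpK)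
    push_cast
    rw [show (algebraMap ℤ K) (d i) = (d i : K) from rfl]
    field_simp
  rw [hM, minpoly.aeval] at hmain
  rcases mul_eq_zero.1 hmain with h9 | h9
  · exact absurd h9 hpn
  · exact h9

end ASQ
end

section
/-!
# MP_b685ef_ag, theorem ASQ, module CARE: semi-invariance in degree `3p - 2`
-/
set_option linter.all false

namespace ASQ

open Finset ASur ASP

namespace CAREaux

variable {K : Type} [Field K]

/-- The degree of `(aX+b)^i (cX+d)^j`. -/
theorem deg_le (a b c d : K) (i j : ℕ) :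
    ((Polynomial.C a * Polynomial.X + Polynomial.C b) ^ i *
      (Polynomial.C c * Polynomial.X + Polynomial.C d) ^ j).natDegree ≤ i + j := by
  have hl : ∀ x y : K, ∀ n : ℕ, ((Polynomial.C x * Polynomial.X + Polynomial.C y) ^ n).natDegree
      ≤ n := by
    intro x y n
    have := Polynomial.natDegree_pow_le_of_le n
      (Polynomial.natDegree_linear_le (a := x) (b := y))
    simpa using this
  exact (Polynomial.natDegree_mul_le).trans (add_le_add (hl _ _ _) (hl _ _ _))

/-- `i ≥ p`: the coefficients at `X^{2p-1}` and `X^{p-1}`. -/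
theorem coeff_left (p : ℕ) [Fact p.Prime] [CharP K p] (a b c d : K) (t j : ℕ)
    (htj : t + j = 2 * (p - 1)) :
    ((Polynomial.C a * Polynomial.X + Polynomial.C b) ^ (p + t) *
      (Polynomial.C c * Polynomial.X + Polynomial.C d) ^ j).coeff (2 * p - 1) =
      a ^ p * (if t = p - 1 then (a * d - b * c) ^ (p - 1) else 0) ∧
    ((Polynomial.C a * Polynomial.X + Polynomial.C b) ^ (p + t) *
      (Polynomial.C c * Polynomial.X + Polynomial.C d) ^ j).coeff (p - 1) =
      b ^ p * (if t = p - 1 then (a * d - b * c) ^ (p - 1) else 0) := by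
  have hp2 : 2 ≤ p := (Fact.out : p.Prime).two_le
  haveI : ExpChar K p := ExpChar.prime (Fact.out : p.Prime)
  have h1 : (Polynomial.C a * Polynomial.X + Polynomial.C b : Polynomial K) ^ p =
      Polynomial.C (a ^ p) * Polynomial.X ^ p + Polynomial.C (b ^ p) := by
    rw [add_pow_expChar, mul_pow, ← Polynomial.C_pow, ← Polynomial.C_pow]
  set R : Polynomial K := (Polynomial.C a * Polynomial.X + Polynomial.C b) ^ t *
    (Polynomial.C c * Polynomial.X + Polynomial.C d) ^ j with hR
  have h2 : (Polynomial.C a * Polynomial.X + Polynomial.C b) ^ (p + t) *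
      (Polynomial.C c * Polynomial.X + Polynomial.C d) ^ j =
      Polynomial.C (a ^ p) * (R * Polynomial.X ^ p) + Polynomial.C (b ^ p) * R := by
    rw [pow_add, h1, hR]; ring
  have hall := CUBAaux.coeff_all p a b c d t j htj
  have hdeg : R.natDegree < 2 * p - 1 := lt_of_le_of_lt (deg_le a b c d t j) (by omega)
  constructor
  · rw [h2, Polynomial.coeff_add, Polynomial.coeff_C_mul, Polynomial.coeff_C_mul,
      Polynomial.coeff_mul_X_pow', if_pos (by omega),
      Polynomial.coeff_eq_zero_of_natDegree_lt hdeg, mul_zero, add_zero]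
    have : 2 * p - 1 - p = p - 1 := by omega
    rw [this, hR, hall]
  · rw [h2, Polynomial.coeff_add, Polynomial.coeff_C_mul, Polynomial.coeff_C_mul,
      Polynomial.coeff_mul_X_pow', if_neg (by omega), mul_zero, zero_add, hR, hall]

/-- All monomials. -/
theorem coeff_mon (p : ℕ) [Fact p.Prime] [CharP K p] (a b c d : K) (i j : ℕ)
    (hij : i + j = 3 * p - 2) :
    ((Polynomial.C a * Polynomial.X + Polynomial.C b) ^ i *
      (Polynomial.C c * Polynomial.X + Polynomial.C d) ^ j).coeff (2 * p - 1) =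
      (a * d - b * c) ^ (p - 1) * (a ^ p * (if i = 2 * p - 1 then 1 else 0) +
        c ^ p * (if i = p - 1 then 1 else 0)) ∧
    ((Polynomial.C a * Polynomial.X + Polynomial.C b) ^ i *
      (Polynomial.C c * Polynomial.X + Polynomial.C d) ^ j).coeff (p - 1) =
      (a * d - b * c) ^ (p - 1) * (b ^ p * (if i = 2 * p - 1 then 1 else 0) +
        d ^ p * (if i = p - 1 then 1 else 0)) := by
  have hp2 : 2 ≤ p := (Fact.out : p.Prime).two_le
  rcases Nat.lt_or_ge i p with hi | hi
  · -- j ≥ p
    obtain ⟨t, rfl⟩ := Nat.exists_eq_add_of_le (show p ≤ j by omega)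
    have h := coeff_left p c d a b t i (by omega)
    rw [mul_comm ((Polynomial.C c * Polynomial.X + Polynomial.C d) ^ (p + t))] at h
    have e1 : (i = 2 * p - 1) = False := by simp; omega
    have e2 : (t = p - 1) = (i = p - 1) := by
      apply propext; constructor <;> intro h <;> omega
    have e3 : (c * b - d * a) ^ (p - 1) = (a * d - b * c) ^ (p - 1) := by
      have : c * b - d * a = -(a * d - b * c) := by ring
      rw [this]
      rcases (Fact.out : p.Prime).eq_two_or_odd' with h2 | ⟨w, hw⟩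
      · subst h2
        have : (-(a * d - b * c) : K) = a * d - b * c := CharTwo.neg_eq _
        rw [this]
      · have : Even (p - 1) := ⟨w, by omega⟩
        rw [this.neg_pow]
    rw [h.1, h.2, e3]
    simp only [e1, e2, if_false, mul_zero, zero_add, add_zero]
    constructor
    · split_ifs <;> ring
    · split_ifs <;> ring
  · obtain ⟨t, rfl⟩ := Nat.exists_eq_add_of_le hi
    have h := coeff_left p a b c d t j (by omega)
    have e1 : (p + t = p - 1) = False := by simp; omega
    have e2 : (t = p - 1) = (p + t = 2 * p - 1) := by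
      apply propext; constructor <;> intro h <;> omega
    rw [h.1, h.2]
    simp only [e1, e2, if_false, mul_zero, zero_add, add_zero]
    constructor
    · split_ifs <;> ring
    · split_ifs <;> ring

end CAREaux

open CAREaux in
theorem CARE_thm : StmtCARE := by
  intro p hp K _ _ F hF A
  have hp2 : 2 ≤ p := hp.out.two_le
  set L : Fin 2 → MvPolynomial (Fin 2) K := ![MvPolynomial.C (A 0 0) * MvPolynomial.X 0 +
    MvPolynomial.C (A 0 1) * MvPolynomial.X 1, MvPolynomial.C (A 1 0) * MvPolynomial.X 0 +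
    MvPolynomial.C (A 1 1) * MvPolynomial.X 1] with hL
  have hact : act A F = MvPolynomial.aeval L F := rfl
  have hLh : ∀ i, (L i).IsHomogeneous 1 := by
    have h1 : ∀ (x : K) (i : Fin 2),
        (MvPolynomial.C x * MvPolynomial.X i : MvPolynomial (Fin 2) K).IsHomogeneous 1 := by
      intro x i
      have := (MvPolynomial.isHomogeneous_C (Fin 2) x).mul (MvPolynomial.isHomogeneous_X K i)
      rwa [zero_add] at this
    intro i
    fin_cases i
    · exact (h1 (A 0 0) 0).add (h1 (A 0 1) 1)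
    · exact (h1 (A 1 0) 0).add (h1 (A 1 1) 1)
  have hG : (MvPolynomial.aeval L F).IsHomogeneous (3 * p - 2) := by
    have := hF.aeval L hLh
    simpa using this
  -- dehomogenize
  have hde : ∀ G : MvPolynomial (Fin 2) K, G.IsHomogeneous (3 * p - 2) → ∀ s t : ℕ,
      s + t = 3 * p - 2 → cf G ![s, t] =
        (MvPolynomial.aeval ![(Polynomial.X : Polynomial K), 1] G).coeff s := by
    intro G hG s t hst
    have h1 := Polynomial.homogenize_eq_of_isHomogeneous (p :=
      MvPolynomial.aeval ![(Polynomial.X : Polynomial K), 1] G) hG rfl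
    have h2 : cf G ![s, t] = cf ((MvPolynomial.aeval ![(Polynomial.X : Polynomial K), 1]
        G).homogenize (3 * p - 2)) ![s, t] := by rw [h1]
    rw [h2, cf, Polynomial.coeff_homogenize]
    simp [hst]
  rw [hact, hde _ hG (2 * p - 1) (p - 1) (by omega), hde _ hG (p - 1) (2 * p - 1) (by omega)]
  have hcomp : MvPolynomial.aeval ![(Polynomial.X : Polynomial K), 1] (MvPolynomial.aeval L F) =
      MvPolynomial.aeval ![Polynomial.C (A 0 0) * Polynomial.X + Polynomial.C (A 0 1),
        Polynomial.C (A 1 0) * Polynomial.X + Polynomial.C (A 1 1)] F := by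
    rw [← AlgHom.comp_apply]
    congr 1
    apply MvPolynomial.algHom_ext
    intro i
    rw [AlgHom.comp_apply, MvPolynomial.aeval_X, MvPolynomial.aeval_X]
    fin_cases i
    · simp [hL, MvPolynomial.algebraMap_eq]
    · simp [hL, MvPolynomial.algebraMap_eq]
  rw [hcomp]
  have hsum : MvPolynomial.aeval ![Polynomial.C (A 0 0) * Polynomial.X + Polynomial.C (A 0 1),
      Polynomial.C (A 1 0) * Polynomial.X + Polynomial.C (A 1 1)] F =
      ∑ m ∈ F.support, Polynomial.C (F.coeff m) *
        ((Polynomial.C (A 0 0) * Polynomial.X + Polynomial.C (A 0 1)) ^ (m 0) *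
          (Polynomial.C (A 1 0) * Polynomial.X + Polynomial.C (A 1 1)) ^ (m 1)) := by
    conv_lhs => rw [F.as_sum, map_sum]
    apply Finset.sum_congr rfl
    intro m _
    rw [MvPolynomial.aeval_monomial, Finsupp.prod_fintype _ _ (by intro i; simp),
      Fin.prod_univ_two]
    simp
  have hcfs : ∀ s t : ℕ, s + t = 3 * p - 2 → cf F ![s, t] =
      ∑ m ∈ F.support, F.coeff m * (if m 0 = s then 1 else 0) := by
    intro s t hst
    have h1 : ∀ m ∈ F.support, F.coeff m * (if m 0 = s then 1 else 0) =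
        if m = Finsupp.equivFunOnFinite.symm ![s, t] then F.coeff m else 0 := by
      intro m hm
      have hdeg := hF (MvPolynomial.mem_support_iff.1 hm)
      rw [Finsupp.weight_eq_sum, Fin.sum_univ_two] at hdeg
      simp at hdeg
      have hiff : m = Finsupp.equivFunOnFinite.symm ![s, t] ↔ m 0 = s := by
        constructor
        · intro h
          rw [h]; simp
        · intro h
          ext i
          fin_cases i
          · simpa using h
          · simp; omega
      by_cases h : m 0 = s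
      · rw [if_pos h, if_pos (hiff.2 h), mul_one]
      · rw [if_neg h, if_neg (fun h' => h (hiff.1 h')), mul_zero]
    rw [Finset.sum_congr rfl h1, Finset.sum_ite_eq']
    split_ifs with h
    · rfl
    · rw [MvPolynomial.notMem_support_iff] at h
      rw [cf, h]
  have hdegm : ∀ m ∈ F.support, m 0 + m 1 = 3 * p - 2 := by
    intro m hm
    have hdeg := hF (MvPolynomial.mem_support_iff.1 hm)
    rw [Finsupp.weight_eq_sum, Fin.sum_univ_two] at hdeg
    simpa using hdeg
  have hdet : A.det = A 0 0 * A 1 1 - A 0 1 * A 1 0 := Matrix.det_fin_two A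
  rw [hsum, Polynomial.finset_sum_coeff, Polynomial.finset_sum_coeff,
    hcfs (2 * p - 1) (p - 1) (by omega), hcfs (p - 1) (2 * p - 1) (by omega), hdet]
  constructor
  · rw [Finset.mul_sum, Finset.mul_sum, ← Finset.sum_add_distrib, Finset.mul_sum]
    apply Finset.sum_congr rfl
    intro m hm
    rw [Polynomial.coeff_C_mul, (coeff_mon p _ _ _ _ _ _ (hdegm m hm)).1]
    ring
  · rw [Finset.mul_sum, Finset.mul_sum, ← Finset.sum_add_distrib, Finset.mul_sum]
    apply Finset.sum_congr rfl
    intro m hm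
    rw [Polynomial.coeff_C_mul, (coeff_mon p _ _ _ _ _ _ (hdegm m hm)).2]
    ring

end ASQ
end

section
/-!
# MP_b685ef_ag, ASQ: module CLSX (helper74; adapted from `ASP/COREP.lean`)
-/
set_option linter.all false
set_option autoImplicit false

namespace ASQ

open Finset ASur ASP

open ASP.COREPaux in
theorem CLSX_thm (hHALFP : ASP.StmtHALFP) (hCOUNT : ASur.StmtCOUNT) (hPATHG : ASP.StmtPATHG)
    (hPERMC : ASP.StmtPERMC) (hHGI : ASP.StmtHGI) : StmtCLSX := by
  classical
  intro p _ a b ha hb hD C _ _ _ _ hp j hj k _ _ _ f hf hS hGd hGs ψ hψ β hβ0 hT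
  haveI : CharP (KK C) p := charP_KK hp
  haveI : CharP k p := charP_of_injective_algebraMap (algebraMap (ZMod p) k).injective p
  haveI : IsAlgClosed (KK C) := ASur.KAC_thm C
  obtain ⟨ι⟩ := ASur.TEMB_thm ASur.KAC_thm p C hp k
  set q : C := (Fintype.card k : C) with hq
  have hq0 : q ≠ 0 := by
    rw [hq]
    exact_mod_cast Fintype.card_ne_zero
  have hqpos : 0 < ‖q‖ := norm_pos_iff.2 hq0
  have hψ' : ψ⁻¹ ≠ 1 := inv_ne_one.2 hψ
  have hp2 : 2 ≤ p := (Fact.out : p.Prime).two_le
  have hDpos : 0 < Nat.lcm a b := Nat.lcm_pos (by omega) (by omega)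
  have hg1 : 1 ≤ Nat.gcd a b := Nat.gcd_pos_of_pos_left b (by omega)
  have hgD : Nat.gcd a b ≤ Nat.lcm a b :=
    Nat.le_of_dvd hDpos ((Nat.gcd_dvd_left a b).trans (Nat.dvd_lcm_left a b))
  have hDp : Nat.lcm a b ≤ p - 1 := Nat.le_of_dvd (by omega) hD
  obtain ⟨h, hh⟩ : ∃ h, h = Module.finrank (ZMod p) k := ⟨_, rfl⟩
  have hcard : Fintype.card k = p ^ h := by
    have := Module.card_eq_pow_finrank (K := ZMod p) (V := k)
    rw [hh]
    rwa [ZMod.card] at this
  have hhpos : 1 ≤ h := by rw [hh]; exact Module.finrank_pos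
  have hpq : p ≤ Fintype.card k := by
    rw [hcard]
    calc p = p ^ 1 := (pow_one p).symm
      _ ≤ p ^ h := Nat.pow_le_pow_right (by omega) hhpos
  -- a factorization
  have hG0 : GF a b f ≠ 0 := by
    intro h0
    rw [h0, Polynomial.natDegree_zero] at hGd
    omega
  have hGu : ¬ IsUnit (GF a b f) := by
    intro hu
    have := Polynomial.natDegree_eq_zero_of_isUnit hu
    omega
  obtain ⟨F, hirr, hprod, -⟩ := (WfDvdMonoid.not_unit_iff_exists_factors_eq _ hG0).1 hGu
  have hdeg : ∀ P ∈ F, 1 ≤ P.natDegree := fun P hP => (hirr P hP).natDegree_pos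
  -- the characteristic polynomial
  obtain ⟨N, hN⟩ : ∃ N, N = Fprod p (Hmat p a b (Nat.lcm a b) (Nat.lcm a b) f) h := ⟨_, rfl⟩
  have hchar : (Polynomial.X - 1) * N.charpoly =
      (F.map fun P => (Polynomial.X ^ P.natDegree - 1 : Polynomial k)).prod := by
    rw [hN, hHGI p a b hp2 ha hb hD k f h,
      hPATHG p k (Nat.gcd a b) (GF a b f) hg1 (by omega) hGd.le h, ← hcard]
    exact hPERMC k (Nat.gcd a b) (GF a b f) hg1 (by omega) hGd hGs F hirr hprod
  have hdet : (Hmat p a b (Nat.lcm a b) (Nat.lcm a b) f).det ≠ 0 := by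
    intro h0
    have h1 : N.det = 0 := by
      obtain ⟨n, rfl⟩ : ∃ n, h = n + 1 := ⟨h - 1, by omega⟩
      rw [hN]
      exact det_fprod p _ n h0
    have h2 := congrArg (Polynomial.eval 0) hchar
    rw [Matrix.det_eq_sign_charpoly_coeff] at h1
    have h3 : N.charpoly.coeff 0 = 0 := by
      rcases mul_eq_zero.1 h1 with h4 | h4
      · exact absurd h4 (pow_ne_zero _ (by simp))
      · exact h4
    rw [Polynomial.eval_mul, ← Polynomial.coeff_zero_eq_eval_zero N.charpoly, h3, mul_zero,
      Polynomial.eval_multiset_prod, Multiset.map_map] at h2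
    have h4 := h2.symm
    rw [Multiset.prod_eq_zero_iff, Multiset.mem_map] at h4
    obtain ⟨P, hP, h5⟩ := h4
    have h6 := hdeg P hP
    simp only [Function.comp, Polynomial.eval_sub, Polynomial.eval_pow, Polynomial.eval_X,
      Polynomial.eval_one] at h5
    rw [zero_pow (by omega)] at h5
    simp at h5
  -- the two applications of HALFP
  obtain ⟨A1, A2, A3⟩ := hHALFP p a b ha hb hD C hp j hj k f hf hS hdet ι ψ hψ β
    (fun E _ _ _ _ => (hT E).1)
  obtain ⟨B1, B2, B3⟩ := hHALFP p a b ha hb hD C hp j hj k f hf hS hdet ι ψ⁻¹ hψ'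
    (β.map fun x => q ^ 2 * x⁻¹) (fun E _ _ _ _ => by
      rw [← (hT E).2, Multiset.map_map, ← Multiset.sum_map_mul_left]
      congr 1
      refine Multiset.map_congr rfl fun x _ => ?_
      simp only [Function.comp]
      rw [mul_pow, ← pow_mul, ← pow_mul, mul_comm 2])
  rw [← hq] at A1 A2 A3 B1 B2 B3
  rw [← hh, ← hN] at A3
  have hiff : ∀ x : C, x ≠ 0 → (‖q‖ < ‖q ^ 2 * x⁻¹‖ ↔ ‖x‖ < ‖q‖) := by
    intro x hx
    have hxpos : 0 < ‖x‖ := norm_pos_iff.2 hx
    rw [norm_mul, norm_pow, norm_inv, ← div_eq_mul_inv, lt_div_iff₀ hxpos, sq]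
    exact mul_lt_mul_iff_right₀ hqpos
  have C1 : Multiset.card (β.filter fun x => ‖x‖ < ‖q‖) =
      Fintype.card {u : Fin 2 → Fin (Nat.lcm a b) // ew a b (pt u) < Nat.lcm a b} := by
    rw [← B1, Multiset.filter_map, Multiset.card_map]
    congr 1
    refine Multiset.filter_congr fun x hx => ?_
    simp only [Function.comp]
    exact (hiff x (hβ0 x hx)).symm
  have C2 : Multiset.card β = Multiset.card (β.filter fun x => ‖q‖ < ‖x‖) +
      Multiset.card (β.filter fun x => ‖x‖ = ‖q‖) +
      Multiset.card (β.filter fun x => ‖x‖ < ‖q‖) := by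
    rw [← Multiset.card_add, ← Multiset.card_add]
    congr 1
    ext x
    rw [Multiset.count_add, Multiset.count_add, Multiset.count_filter, Multiset.count_filter,
      Multiset.count_filter]
    rcases lt_trichotomy ‖x‖ ‖q‖ with h | h | h
    · rw [if_neg (by linarith), if_neg (by linarith), if_pos h]; omega
    · rw [if_neg (by linarith), if_pos h, if_neg (by linarith)]; omega
    · rw [if_pos h, if_neg h.ne', if_neg (by linarith)]
      omega
  have C3 : Multiset.card (β.filter fun x => ‖x‖ = ‖q‖) =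
      Fintype.card (Um a b (Nat.lcm a b) (Nat.lcm a b)) := by
    rw [← Multiset.card_map (fun x => rd (x / q)), A3, IsAlgClosed.card_roots_eq_natDegree,
      Matrix.charpoly_natDegree_eq_dim]
  refine ⟨?_, ?_⟩
  · rw [C2, A1, C3, C1, ← hCOUNT a b ha hb]
    ring
  intro y hy
  have hy2 : 2 ≤ β.count y := Multiset.le_count_iff_replicate_le.2 hy
  rcases lt_trichotomy ‖y‖ ‖q‖ with hx | hx | hx
  · exfalso
    have hy0 : y ≠ 0 := by
      refine hβ0 y ?_
      rw [← Multiset.one_le_count_iff_mem]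
      omega
    have h1 := Multiset.nodup_iff_count_le_one.1 B2 (q ^ 2 * y⁻¹)
    rw [Multiset.count_filter, if_pos ((hiff y hy0).2 hx)] at h1
    have h2 : β.count y ≤ (β.map fun x => q ^ 2 * x⁻¹).count (q ^ 2 * y⁻¹) := by
      rw [Multiset.count_map, Multiset.count_eq_card_filter_eq]
      refine Multiset.card_le_card (Multiset.monotone_filter_right β ?_)
      rintro z rfl
      rfl
    omega
  · exact hx
  · exfalso
    have h1 := Multiset.nodup_iff_count_le_one.1 A2 y
    rw [Multiset.count_filter, if_pos hx] at h1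
    omega

end ASQ
end

section
/-!
# MP_b685ef_ag, theorem ASQ, module DETC: the determinant of the matrix of a cubic
-/
set_option linter.all false

namespace ASQ

open Finset ASur ASP

namespace DETCaux

open Polynomial

variable {K : Type} [Field K]

/-- the antiderivative -/
noncomputable def anti (P : K[X]) : K[X] :=
  ∑ i ∈ range (P.natDegree + 1), C (P.coeff i / ((i : K) + 1)) * X ^ (i + 1)

theorem derivative_anti (P : K[X]) (h : ∀ i : ℕ, ((i : K) + 1) = 0 → P.coeff i = 0) :
    derivative (anti P) = P := by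
  unfold anti
  rw [map_sum]
  conv_rhs => rw [P.as_sum_range_C_mul_X_pow]
  refine Finset.sum_congr rfl fun i _ => ?_
  rw [derivative_C_mul_X_pow]
  congr 1
  congr 1
  push_cast
  by_cases h0 : ((i : K) + 1) = 0
  · rw [h i h0, h0]; simp
  · exact div_mul_cancel₀ _ h0

theorem natDegree_anti (P : K[X]) : (anti P).natDegree ≤ P.natDegree + 1 := by
  unfold anti
  refine natDegree_sum_le_of_forall_le _ _ fun i hi => ?_
  refine (natDegree_C_mul_X_pow_le _ _).trans ?_
  have := Finset.mem_range.1 hi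
  omega

/-- Raising the order. -/
theorem dvd_step (p : ℕ) [Fact p.Prime] [CharP K p] (Q : K[X]) (a : K) (e : ℕ) (he : e < p)
    (h0 : Q.eval a = 0) (hd : (X - C a) ^ e ∣ derivative Q) : (X - C a) ^ (e + 1) ∣ Q := by
  have key : ∀ r, r ≤ e → (X - C a) ^ (r + 1) ∣ Q := by
    intro r
    induction r with
    | zero =>
      intro _
      rw [zero_add, pow_one, dvd_iff_isRoot]
      exact h0
    | succ r ih =>
      intro hr
      obtain ⟨S, hS⟩ := ih (by omega)
      have h1 : derivative Q = C ((r : K) + 1) * (X - C a) ^ r * S +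
          (X - C a) ^ (r + 1) * derivative S := by
        rw [hS, derivative_mul, derivative_X_sub_C_pow]
        push_cast
        simp
      have h2 : (X - C a) ^ (r + 1) ∣ derivative Q := (pow_dvd_pow _ hr).trans hd
      rw [h1, dvd_add_left (Dvd.intro _ rfl)] at h2
      have h3 : ((r : K) + 1) ≠ 0 := by
        have h4 : ((r : K) + 1) = ((r + 1 : ℕ) : K) := by push_cast; rfl
        rw [h4]
        intro h5
        have h6 := (CharP.cast_eq_zero_iff K p _).1 h5
        have := Nat.le_of_dvd (by omega) h6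
        omega
      have h4 : (X - C a) ∣ S := by
        rw [pow_succ, mul_assoc, mul_comm (C ((r : K) + 1)), mul_assoc,
          mul_dvd_mul_iff_left (pow_ne_zero _ (X_sub_C_ne_zero a))] at h2
        have h7 : IsUnit (C ((r : K) + 1)) := isUnit_C.2 (isUnit_iff_ne_zero.2 h3)
        exact (h7.dvd_mul_right).1 h2
      obtain ⟨T, hT⟩ := h4
      refine ⟨T, ?_⟩
      rw [hS, hT, pow_succ (X - C a) (r + 1)]
      ring
  exact key e le_rfl

/-- The core: the polynomial argument. -/
theorem core (p : ℕ) [hp : Fact p.Prime] [CharP K p] (e : ℕ) (he : 4 * e = 3 * (p - 1))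
    (c : K) (τ : Fin 3 → K) (hc : c ≠ 0) (hτ : Function.Injective τ) (v₀ v₁ : K)
    (h1 : ((C v₀ * X + C v₁) * (C c * ∏ i, (X - C (τ i)) ^ e)).coeff (2 * p - 1) = 0)
    (h2 : ((C v₀ * X + C v₁) * (C c * ∏ i, (X - C (τ i)) ^ e)).coeff (p - 1) = 0) :
    v₀ = 0 ∧ v₁ = 0 := by
  have hp2 : 2 ≤ p := hp.out.two_le
  haveI : ExpChar K p := ExpChar.prime hp.out
  set g : K[X] := C c * ∏ i, (X - C (τ i)) ^ e with hg
  set P : K[X] := (C v₀ * X + C v₁) * g with hP
  have hg0 : g ≠ 0 := by
    rw [hg]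
    refine mul_ne_zero (C_ne_zero.2 hc) (Finset.prod_ne_zero_iff.2 fun i _ => ?_)
    exact pow_ne_zero _ (X_sub_C_ne_zero _)
  have hgdeg : g.natDegree ≤ 3 * e := by
    rw [hg]
    refine (natDegree_C_mul_le _ _).trans ?_
    refine (natDegree_prod_le _ _).trans ?_
    have : ∀ i ∈ (Finset.univ : Finset (Fin 3)), ((X - C (τ i)) ^ e).natDegree = e := by
      intro i _
      rw [natDegree_pow, natDegree_X_sub_C, mul_one]
    rw [Finset.sum_congr rfl this]
    simp
  have hPdeg : P.natDegree ≤ 3 * e + 1 := by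
    rw [hP]
    refine natDegree_mul_le.trans ?_
    have := natDegree_linear_le (a := v₀) (b := v₁)
    omega
  -- the antiderivative
  have hcoef : ∀ i : ℕ, ((i : K) + 1) = 0 → P.coeff i = 0 := by
    intro i hi
    have h3 : ((i : K) + 1) = ((i + 1 : ℕ) : K) := by push_cast; rfl
    rw [h3] at hi
    obtain ⟨k, hk⟩ := (CharP.cast_eq_zero_iff K p _).1 hi
    have hk0 : k ≠ 0 := by
      rintro rfl
      simp at hk
    rcases Nat.lt_or_ge k 3 with hk3 | hk3
    · interval_cases k
      · exact absurd rfl hk0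
      · have : i = p - 1 := by omega
        rw [this]; exact h2
      · have : i = 2 * p - 1 := by omega
        rw [this]; exact h1
    · apply coeff_eq_zero_of_natDegree_lt
      have h5 : p * 3 ≤ p * k := Nat.mul_le_mul_left _ hk3
      omega
  have hQ := derivative_anti P hcoef
  have hQdeg := natDegree_anti P
  set Q := anti P with hQd
  -- the interpolation
  have hinj : Set.InjOn (fun i => τ i ^ p) (Finset.univ : Finset (Fin 3)) := by
    intro i _ j _ hij
    exact hτ (frobenius_inj K p hij)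
  set R : K[X] := Lagrange.interpolate Finset.univ (fun i => τ i ^ p)
    (fun i => Q.eval (τ i)) with hR
  have hRe : ∀ i, R.eval (τ i ^ p) = Q.eval (τ i) := fun i =>
    Lagrange.eval_interpolate_at_node (fun i => Q.eval (τ i)) hinj (Finset.mem_univ i)
  have hRdeg : R.natDegree ≤ 2 := by
    have h3 := Lagrange.degree_interpolate_lt (fun i => Q.eval (τ i)) hinj
    rw [← hR] at h3
    rw [natDegree_le_iff_degree_le]
    have h4 : ((Finset.univ : Finset (Fin 3)).card : WithBot ℕ) = (3 : WithBot ℕ) := by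
      rw [Finset.card_fin]; rfl
    rw [h4] at h3
    have h5 : R.degree < ((3 : ℕ) : WithBot ℕ) := h3
    rcases eq_or_ne R 0 with h6 | h6
    · rw [h6, degree_zero]; exact bot_le
    · rw [degree_eq_natDegree h6] at h5 ⊢
      have h7 : R.natDegree < 3 := by exact_mod_cast h5
      exact_mod_cast (by omega : R.natDegree ≤ 2)
  set Q1 : K[X] := Q - expand K p R with hQ1
  have hQ1d : derivative Q1 = P := by
    rw [hQ1, derivative_sub, hQ, derivative_expand]
    have : (p : K[X]) = 0 := by
      rw [← C_eq_natCast, CharP.cast_eq_zero, C_0]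
    rw [this]; ring
  have hQ1e : ∀ i, Q1.eval (τ i) = 0 := by
    intro i
    rw [hQ1, eval_sub, expand_eval, hRe, sub_self]
  have hQ1deg : Q1.natDegree < 3 * (e + 1) := by
    rw [hQ1]
    refine lt_of_le_of_lt (natDegree_sub_le _ _) ?_
    rw [natDegree_expand]
    have h3 : R.natDegree * p ≤ 2 * p := Nat.mul_le_mul_right _ hRdeg
    apply max_lt
    · omega
    · omega
  have hdvd : ∀ i, (X - C (τ i)) ^ (e + 1) ∣ Q1 := by
    intro i
    apply dvd_step p Q1 (τ i) e (by omega) (hQ1e i)
    rw [hQ1d, hP, hg]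
    refine Dvd.dvd.mul_left (Dvd.dvd.mul_left ?_ _) _
    exact Finset.dvd_prod_of_mem (fun i => (X - C (τ i)) ^ e) (Finset.mem_univ i)
  have hprod : (∏ i, (X - C (τ i)) ^ (e + 1)) ∣ Q1 := by
    apply Finset.prod_dvd_of_coprime
    · intro i _ j _ hij
      exact IsCoprime.pow (isCoprime_X_sub_C_of_isUnit_sub
        (isUnit_iff_ne_zero.2 (sub_ne_zero.2 fun h => hij (hτ h))))
    · intro i _
      exact hdvd i
  have hQ10 : Q1 = 0 := by
    by_contra hne
    have h3 := natDegree_le_of_dvd hprod hne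
    rw [natDegree_prod _ _ (fun i _ => pow_ne_zero _ (X_sub_C_ne_zero _))] at h3
    have : ∀ i ∈ (Finset.univ : Finset (Fin 3)),
        ((X - C (τ i)) ^ (e + 1)).natDegree = e + 1 := by
      intro i _
      rw [natDegree_pow, natDegree_X_sub_C, mul_one]
    rw [Finset.sum_congr rfl this] at h3
    simp at h3
    omega
  have hP0 : P = 0 := by
    rw [← hQ1d, hQ10, derivative_zero]
  rw [hP, mul_eq_zero] at hP0
  have h3 : C v₀ * X + C v₁ = 0 := by
    rcases hP0 with h | h
    · exact h
    · exact absurd h hg0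
  constructor
  · have := congrArg (fun q : K[X] => q.coeff 1) h3
    simpa using this
  · have := congrArg (fun q : K[X] => q.coeff 0) h3
    simpa using this

end DETCaux

open DETCaux in
theorem detc_thm : StmtDETC := by
  intro p hp h4 K _ _ c τ hc hτ
  have hp2 : 2 ≤ p := hp.out.two_le
  obtain ⟨q, hq⟩ := h4
  have he : 4 * (3 * (p - 1) / 4) = 3 * (p - 1) := by omega
  have hp5 : 5 ≤ p := by omega
  set e := 3 * (p - 1) / 4 with hed
  set L : MvPolynomial (Fin 2) K := MvPolynomial.C c * MvPolynomial.X 1 *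
    ∏ i, (MvPolynomial.X 0 - MvPolynomial.C (τ i) * MvPolynomial.X 1) with hL
  have hLh : L.IsHomogeneous 4 := by
    have h1 : (MvPolynomial.C c * MvPolynomial.X 1 : MvPolynomial (Fin 2) K).IsHomogeneous 1 := by
      have := (MvPolynomial.isHomogeneous_C (Fin 2) c).mul (MvPolynomial.isHomogeneous_X K 1)
      rwa [zero_add] at this
    have h2 : (∏ i, (MvPolynomial.X 0 - MvPolynomial.C (τ i) * MvPolynomial.X 1) :
        MvPolynomial (Fin 2) K).IsHomogeneous (∑ _i : Fin 3, 1) := by
      apply MvPolynomial.IsHomogeneous.prod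
      intro i _
      refine (MvPolynomial.isHomogeneous_X K 0).sub ?_
      have := (MvPolynomial.isHomogeneous_C (Fin 2) (τ i)).mul (MvPolynomial.isHomogeneous_X K 1)
      rwa [zero_add] at this
    have h3 := h1.mul h2
    have h4 : 1 + ∑ _i : Fin 3, 1 = 4 := by simp
    rwa [h4] at h3
  have hG : (L ^ e).IsHomogeneous (3 * (p - 1)) := by
    have := hLh.pow e
    rwa [he] at this
  have hde : ∀ i j : ℕ, i + j = 3 * (p - 1) → cf (L ^ e) ![i, j] =
      (Polynomial.C (c ^ e) * ∏ i, (Polynomial.X - Polynomial.C (τ i)) ^ e).coeff i := by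
    intro i j hij
    have h1 := Polynomial.homogenize_eq_of_isHomogeneous (p :=
      MvPolynomial.aeval ![(Polynomial.X : Polynomial K), 1] (L ^ e)) hG rfl
    have h2 : cf (L ^ e) ![i, j] = cf ((MvPolynomial.aeval ![(Polynomial.X : Polynomial K), 1]
        (L ^ e)).homogenize (3 * (p - 1))) ![i, j] := by rw [h1]
    rw [h2, cf, Polynomial.coeff_homogenize]
    have h3 : MvPolynomial.aeval ![(Polynomial.X : Polynomial K), 1] (L ^ e) =
        Polynomial.C (c ^ e) * ∏ i, (Polynomial.X - Polynomial.C (τ i)) ^ e := by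
      rw [hL, map_pow, map_mul, map_mul, map_prod, mul_pow, mul_pow, Finset.prod_pow]
      simp [MvPolynomial.algebraMap_eq]
    rw [h3]
    simp [hij]
  intro hdet
  obtain ⟨v, hv0, hv⟩ := Matrix.exists_mulVec_eq_zero_iff.2 hdet
  have hv1 := congrFun hv 0
  have hv2 := congrFun hv 1
  simp only [hm, Matrix.mulVec, dotProduct, Fin.sum_univ_two, Matrix.of_apply, Matrix.cons_val',
    Matrix.cons_val_zero, Matrix.cons_val_one, Pi.zero_apply, Matrix.cons_val_fin_one] at hv1 hv2
  rw [hde _ _ (by omega), hde _ _ (by omega)] at hv1 hv2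
  have hcore := core p e he (c ^ e) τ (pow_ne_zero _ hc) hτ (v 0) (v 1) (by
      rw [add_mul, Polynomial.coeff_add, mul_assoc, Polynomial.coeff_C_mul,
        Polynomial.coeff_C_mul]
      have h1 : 2 * p - 1 = (2 * p - 2) + 1 := by omega
      rw [h1, Polynomial.coeff_X_mul, ← h1]
      linear_combination hv1) (by
      rw [add_mul, Polynomial.coeff_add, mul_assoc, Polynomial.coeff_C_mul,
        Polynomial.coeff_C_mul]
      have h1 : p - 1 = (p - 2) + 1 := by omega
      rw [h1, Polynomial.coeff_X_mul, ← h1]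
      linear_combination hv2)
  apply hv0
  funext i
  fin_cases i
  · exact hcore.1
  · exact hcore.2

end ASQ
end

section
/-!
# MP_b685ef_ag, theorem ASQ: the determinant for a quartic form (DETH3)
-/
set_option linter.all false

namespace ASQ

open Finset ASur ASP

namespace DETH3aux

theorem quart_homog {K : Type} [Field K] (c : K) (ρ : Fin 4 → K) :
    (quart c ρ).IsHomogeneous 4 := by
  unfold quart
  have h1 : (MvPolynomial.C c : MvPolynomial (Fin 2) K).IsHomogeneous 0 :=
    MvPolynomial.isHomogeneous_C _ c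
  have h2 : (∏ i : Fin 4, (MvPolynomial.X 0 - MvPolynomial.C (ρ i) * MvPolynomial.X 1 :
      MvPolynomial (Fin 2) K)).IsHomogeneous (∑ i : Fin 4, 1) := by
    refine MvPolynomial.IsHomogeneous.prod _ _ _ fun i _ => ?_
    refine (MvPolynomial.isHomogeneous_X _ _).sub ?_
    have := (MvPolynomial.isHomogeneous_C (Fin 2) (ρ i)).mul (MvPolynomial.isHomogeneous_X K (1 : Fin 2))
    simpa using this
  have h3 := h1.mul h2
  simpa using h3

theorem act_lin {K : Type} [Field K] (a r : K) :
    act !![a, 1; 1, 0] (MvPolynomial.X 0 - MvPolynomial.C r * MvPolynomial.X 1) =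
      MvPolynomial.C (a - r) * MvPolynomial.X 0 + MvPolynomial.X 1 := by
  unfold act
  simp only [map_sub, map_mul, MvPolynomial.aeval_X, MvPolynomial.aeval_C, MvPolynomial.algebraMap_eq]
  simp
  ring

theorem act_lin' {K : Type} [Field K] (a r : K) (h : a ≠ r) :
    act !![a, 1; 1, 0] (MvPolynomial.X 0 - MvPolynomial.C r * MvPolynomial.X 1) =
      MvPolynomial.C (a - r) * (MvPolynomial.X 0 - MvPolynomial.C ((r - a)⁻¹) * MvPolynomial.X 1) := by
  rw [act_lin, mul_sub, ← mul_assoc, ← MvPolynomial.C_mul]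
  have h1 : (a - r) * (r - a)⁻¹ = -1 := by
    have h2 : r - a ≠ 0 := sub_ne_zero.2 h.symm
    field_simp
    ring
  rw [h1, MvPolynomial.C_neg, MvPolynomial.C_1]
  ring

theorem act_mul {K : Type} [Field K] (A : Matrix (Fin 2) (Fin 2) K) (F G : MvPolynomial (Fin 2) K) :
    act A (F * G) = act A F * act A G := by
  unfold act
  exact map_mul _ _ _

theorem act_pow {K : Type} [Field K] (A : Matrix (Fin 2) (Fin 2) K) (F : MvPolynomial (Fin 2) K)
    (n : ℕ) : act A (F ^ n) = act A F ^ n := by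
  unfold act
  exact map_pow _ _ _

theorem act_C {K : Type} [Field K] (A : Matrix (Fin 2) (Fin 2) K) (c : K) :
    act A (MvPolynomial.C c) = MvPolynomial.C c := by
  unfold act
  rw [MvPolynomial.aeval_C]
  rfl

theorem act_prod {K : Type} [Field K] (A : Matrix (Fin 2) (Fin 2) K) {ι : Type} (s : Finset ι)
    (F : ι → MvPolynomial (Fin 2) K) : act A (∏ i ∈ s, F i) = ∏ i ∈ s, act A (F i) := by
  unfold act
  exact map_prod _ _ _

theorem act_quart {K : Type} [Field K] (c : K) (ρ : Fin 4 → K) (hρ : Function.Injective ρ) :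
    act !![ρ 3, 1; 1, 0] (quart c ρ) =
      MvPolynomial.C (c * ∏ i : Fin 3, (ρ 3 - ρ i.castSucc)) * MvPolynomial.X 1 *
        ∏ i : Fin 3, (MvPolynomial.X 0 - MvPolynomial.C ((ρ i.castSucc - ρ 3)⁻¹) *
          MvPolynomial.X 1) := by
  unfold quart
  rw [act_mul, act_C, act_prod, Fin.prod_univ_castSucc]
  have h1 : ∀ i : Fin 3, act !![ρ 3, 1; 1, 0]
      (MvPolynomial.X 0 - MvPolynomial.C (ρ i.castSucc) * MvPolynomial.X 1) =
      MvPolynomial.C (ρ 3 - ρ i.castSucc) *
        (MvPolynomial.X 0 - MvPolynomial.C ((ρ i.castSucc - ρ 3)⁻¹) * MvPolynomial.X 1) := by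
    intro i
    apply act_lin'
    intro h
    have h2 := hρ h
    have h3 := congrArg Fin.val h2
    have h4 := i.isLt
    simp at h3
    omega
  have h2 : act !![ρ 3, 1; 1, 0]
      (MvPolynomial.X 0 - MvPolynomial.C (ρ (Fin.last 3)) * MvPolynomial.X 1) =
      (MvPolynomial.X 1 : MvPolynomial (Fin 2) K) := by
    have e : (Fin.last 3 : Fin 4) = 3 := rfl
    rw [e, act_lin, sub_self, MvPolynomial.C_0, zero_mul, zero_add]
  rw [h2, Finset.prod_congr rfl (fun i _ => h1 i), Finset.prod_mul_distrib, MvPolynomial.C_mul,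
    map_prod]
  ring

end DETH3aux

open DETH3aux

theorem deth3_thm (hHEQ : StmtHEQ) (hDETC : StmtDETC) : StmtDETH3 := by
  intro p hp h4 K _ _ c ρ hc hρ
  have hp1 : 1 ≤ p := hp.out.one_le
  obtain ⟨e, he⟩ : ∃ e, e = 3 * (p - 1) / 4 := ⟨_, rfl⟩
  have hF : (quart c ρ ^ (3 * (p - 1) / 4)).IsHomogeneous (3 * (p - 1)) := by
    have h1 := (quart_homog c ρ).pow (3 * (p - 1) / 4)
    have h2 : 4 * (3 * (p - 1) / 4) = 3 * (p - 1) := by omega
    rwa [h2] at h1
  have h1 := hHEQ p K (quart c ρ ^ (3 * (p - 1) / 4)) hF !![ρ 3, 1; 1, 0]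
  rw [act_pow, act_quart c ρ hρ] at h1
  have hc' : c * ∏ i : Fin 3, (ρ 3 - ρ i.castSucc) ≠ 0 := by
    refine mul_ne_zero hc (Finset.prod_ne_zero_iff.2 fun i _ => sub_ne_zero.2 fun h => ?_)
    have h2 := hρ h
    have h3 := congrArg Fin.val h2
    have h4 := i.isLt
    simp at h3
    omega
  have hτ : Function.Injective fun i : Fin 3 => (ρ i.castSucc - ρ 3)⁻¹ := by
    intro i j hij
    have h2 := inv_injective hij
    have h3 := hρ (sub_left_injective h2)
    exact Fin.castSucc_injective _ h3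
  have h2 := hDETC p h4 K _ _ hc' hτ
  intro h0
  have h3 := congrArg Matrix.det h1
  rw [Matrix.det_mul, Matrix.det_smul, Matrix.det_mul, h0, mul_zero, mul_zero] at h3
  rcases mul_eq_zero.1 h3 with h | h
  · exact h2 h
  · rw [Matrix.det_transpose, Matrix.det_fin_two_of] at h
    simp at h

end ASQ
end

section
namespace ASQ

namespace DISTQM

open Matrix

variable {K : Type} [Field K]

theorem comm_iff (A B : Matrix (Fin 2) (Fin 2) K) : A * B = B * A ↔
    A 0 1 * B 1 0 = B 0 1 * A 1 0 ∧
    A 0 1 * (B 0 0 - B 1 1) = B 0 1 * (A 0 0 - A 1 1) ∧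
    A 1 0 * (B 0 0 - B 1 1) = B 1 0 * (A 0 0 - A 1 1) := by
  constructor
  · intro h
    have h00 := congrFun (congrFun h 0) 0
    have h01 := congrFun (congrFun h 0) 1
    have h10 := congrFun (congrFun h 1) 0
    simp only [Matrix.mul_apply, Fin.sum_univ_two] at h00 h01 h10
    refine ⟨?_, ?_, ?_⟩
    · linear_combination h00
    · linear_combination -h01
    · linear_combination h10
  · rintro ⟨h1, h2, h3⟩
    ext i j
    fin_cases i <;> fin_cases j <;>
      simp only [Matrix.mul_apply, Fin.sum_univ_two, Fin.zero_eta, Fin.mk_one, Fin.isValue]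
    · linear_combination h1
    · linear_combination -h2
    · linear_combination h3
    · linear_combination -h1

theorem scalar_of_comm (B B' C : Matrix (Fin 2) (Fin 2) K) (h : C * B = B * C)
    (h' : C * B' = B' * C) (hn : B * B' ≠ B' * B) :
    C = C 0 0 • (1 : Matrix (Fin 2) (Fin 2) K) := by
  have hw : C 0 1 = 0 ∧ C 1 0 = 0 ∧ C 0 0 - C 1 1 = 0 := by
    by_contra hne
    apply hn
    rw [comm_iff] at h h' ⊢
    obtain ⟨a1, a2, a3⟩ := h
    obtain ⟨b1, b2, b3⟩ := h'
    by_cases c1 : C 0 1 = 0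
    · by_cases c2 : C 1 0 = 0
      · have c3 : C 0 0 - C 1 1 ≠ 0 := fun h3 => hne ⟨c1, c2, h3⟩
        rw [c1] at a1 a2 b1 b2
        rw [c2] at a3 b3
        have e1 : B 0 1 = 0 := by
          have : B 0 1 * (C 0 0 - C 1 1) = 0 := by rw [← a2]; ring
          exact (mul_eq_zero.mp this).resolve_right c3
        have e2 : B 1 0 = 0 := by
          have : B 1 0 * (C 0 0 - C 1 1) = 0 := by rw [← a3]; ring
          exact (mul_eq_zero.mp this).resolve_right c3
        have e3 : B' 0 1 = 0 := by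
          have : B' 0 1 * (C 0 0 - C 1 1) = 0 := by rw [← b2]; ring
          exact (mul_eq_zero.mp this).resolve_right c3
        have e4 : B' 1 0 = 0 := by
          have : B' 1 0 * (C 0 0 - C 1 1) = 0 := by rw [← b3]; ring
          exact (mul_eq_zero.mp this).resolve_right c3
        rw [e1, e2, e3, e4]
        simp
      · refine ⟨?_, ?_, ?_⟩
        · apply mul_left_cancel₀ c2
          linear_combination (-B' 1 0) * a1 + B 1 0 * b1
        · apply mul_left_cancel₀ (mul_ne_zero c2 c2)
          linear_combination (C 1 0 * B 0 1) * b3 - (C 1 0 * B' 0 1) * a3 -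
            (B' 1 0 * (C 0 0 - C 1 1)) * a1 + (B 1 0 * (C 0 0 - C 1 1)) * b1
        · apply mul_left_cancel₀ c2
          linear_combination B 1 0 * b3 - B' 1 0 * a3
    · refine ⟨?_, ?_, ?_⟩
      · apply mul_left_cancel₀ c1
        linear_combination B 0 1 * b1 - B' 0 1 * a1
      · apply mul_left_cancel₀ c1
        linear_combination B 0 1 * b2 - B' 0 1 * a2
      · apply mul_left_cancel₀ (mul_ne_zero c1 c1)
        linear_combination (C 0 1 * B 1 0) * b2 - (C 0 1 * B' 1 0) * a2 +
          (B' 0 1 * (C 0 0 - C 1 1)) * a1 - (B 0 1 * (C 0 0 - C 1 1)) * b1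
  obtain ⟨h1, h2, h3⟩ := hw
  ext i j
  fin_cases i <;> fin_cases j
  · simp
  · simpa using h1
  · simpa using h2
  · simp only [Fin.mk_one, Fin.isValue, Matrix.smul_apply, Matrix.one_apply_eq, smul_eq_mul, mul_one]
    exact (sub_eq_zero.mp h3).symm

theorem pow_add_nil (s : K) (ν : Matrix (Fin 2) (Fin 2) K) (hν : ν * ν = 0) (k : ℕ) :
    (s • (1 : Matrix (Fin 2) (Fin 2) K) + ν) ^ (k + 1) =
      s ^ (k + 1) • (1 : Matrix (Fin 2) (Fin 2) K) + (((k + 1 : ℕ) : K) * s ^ k) • ν := by
  induction k with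
  | zero => simp
  | succ k ih =>
    rw [pow_succ, ih, mul_add, add_mul, add_mul]
    simp only [smul_mul_assoc, mul_smul_comm, one_mul, mul_one, hν, smul_zero, add_zero, smul_smul]
    rw [add_assoc, ← add_smul]
    congr 2
    · ring
    · push_cast
      ring

end DISTQM

open DISTQM in
theorem distq_thm : StmtDISTQ := by
  intro p hp hp5 K _ _ _ h N B μ hμ hN hNd hBd hNB hB12 hne
  classical
  set φ : K →+* K := iterateFrobenius K p h with hφ
  have hφx : ∀ x : K, φ x = x ^ (p ^ h) := fun x => by rw [hφ, iterateFrobenius_def]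
  have hmapφ : ∀ X : Matrix (Fin 2) (Fin 2) K, (X.map fun x => x ^ (p ^ h)) = X.map φ := by
    intro X
    ext i j
    simp [hφx]
  have hφk : ∀ (k : ℕ) (x : K), (φ^[k]) x = x ^ ((p ^ h) ^ k) := by
    intro k
    induction k with
    | zero => intro x; simp
    | succ k ih =>
      intro x
      rw [Function.iterate_succ_apply', ih, hφx, ← pow_mul, pow_succ]
  rw [hmapφ] at hN hNB hne
  have hsm : ∀ (c : K) (X : Matrix (Fin 2) (Fin 2) K), (c • X).map φ = φ c • X.map φ := by
    intro c X
    ext i j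
    simp only [Matrix.map_apply, Matrix.smul_apply, smul_eq_mul, map_mul]
  -- the iterates
  have hstep : ∀ k : ℕ, ∃ ν : K, ν ≠ 0 ∧ N ^ k * B = ν • ((B.map (φ^[k])) * N ^ k) := by
    intro k
    induction k with
    | zero => exact ⟨1, one_ne_zero, by ext i j; simp⟩
    | succ k ih =>
      obtain ⟨ν, hν, e⟩ := ih
      have hk : N * (B.map (φ^[k])) = ((φ^[k]) μ) • ((B.map (φ^[k + 1])) * N) := by
        have h0 : ∀ k : ℕ, N * (B.map (φ^[k])) = ((φ^[k]) μ) • ((B.map (φ^[k + 1])) * N) := by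
          intro k
          induction k with
          | zero => simpa using hNB
          | succ k ihk =>
            have : (N * (B.map (φ^[k]))).map φ = (((φ^[k]) μ) • ((B.map (φ^[k + 1])) * N)).map φ :=
              congrArg (fun X : Matrix (Fin 2) (Fin 2) K => X.map φ) ihk
            rw [hsm, Matrix.map_mul, Matrix.map_mul, hN, Matrix.map_map, Matrix.map_map,
              ← Function.iterate_succ_apply' φ k μ, ← Function.iterate_succ' φ k,
              ← Function.iterate_succ' φ (k + 1)] at this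
            exact this
        exact h0 k
      refine ⟨ν * (φ^[k]) μ, mul_ne_zero hν ?_, ?_⟩
      · rw [hφk]
        exact pow_ne_zero _ hμ
      · rw [pow_succ', mul_assoc, e, mul_smul_comm, ← mul_assoc, hk, smul_mul_assoc, smul_smul,
          mul_assoc]
  obtain ⟨ν, hν, e12⟩ := hstep 12
  have hB12' : B.map (φ^[12]) = B := by
    rw [← hB12]
    ext i j
    simp only [Matrix.map_apply]
    rw [hφk]
    have := congrFun (congrFun hB12 i) j
    simp only [Matrix.map_apply] at this
    rw [this, this]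
  rw [hB12'] at e12
  have hν2 : ν ^ 2 = 1 := by
    have := congrArg Matrix.det e12
    rw [Matrix.det_mul, Matrix.det_smul, Matrix.det_mul, Matrix.det_pow, Fintype.card_fin] at this
    have h1 : B.det * N.det ^ 12 ≠ 0 := mul_ne_zero hBd (pow_ne_zero _ hNd)
    apply mul_right_cancel₀ h1
    rw [← this]
    ring
  have e24 : N ^ 24 * B = B * N ^ 24 := by
    rw [show (24 : ℕ) = 12 + 12 from rfl, pow_add, mul_assoc, e12, mul_smul_comm, ← mul_assoc, e12,
      smul_mul_assoc, smul_smul, ← sq, hν2, one_smul, mul_assoc]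
  have hNk : ∀ k : ℕ, (N ^ k).map φ = N ^ k := by
    intro k
    induction k with
    | zero => ext i j; simp [Matrix.one_apply, apply_ite φ]
    | succ k ih => rw [pow_succ, Matrix.map_mul, ih, hN]
  have e24' : N ^ 24 * B.map φ = B.map φ * N ^ 24 := by
    have := congrArg (fun X : Matrix (Fin 2) (Fin 2) K => X.map φ) e24
    simp only [Matrix.map_mul, hNk] at this
    exact this
  have hsc := scalar_of_comm B (B.map φ) (N ^ 24) e24 e24' hne
  -- the characteristic polynomial
  have hcp : N.charpoly = Polynomial.X ^ 2 - Polynomial.C N.trace * Polynomial.X +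
      Polynomial.C N.det := Matrix.charpoly_fin_two N
  have hdeg : N.charpoly.natDegree = 2 := by
    rw [Matrix.charpoly_natDegree_eq_dim]; simp
  have hmon : N.charpoly.Monic := Matrix.charpoly_monic N
  obtain ⟨a, b, hab⟩ : ∃ a b : K, N.charpoly =
      (Polynomial.X - Polynomial.C a) * (Polynomial.X - Polynomial.C b) := by
    obtain ⟨a, ha⟩ := IsAlgClosed.exists_root N.charpoly (by
      rw [Polynomial.degree_eq_natDegree hmon.ne_zero, hdeg]; norm_num)
    refine ⟨a, N.trace - a, ?_⟩
    have h1 : a ^ 2 - N.trace * a + N.det = 0 := by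
      have := ha
      rw [Polynomial.IsRoot.def, hcp] at this
      simpa using this
    have h2 : N.det = a * (N.trace - a) := by linear_combination h1
    rw [hcp, h2]
    simp only [Polynomial.C_mul, Polynomial.C_sub]
    ring
  have hdet : N.det = a * b := by
    have h1 := congrArg (Polynomial.eval 0) (hcp.symm.trans hab)
    simpa using h1
  have ha0 : a ≠ 0 := fun h0 => hNd (by rw [hdet, h0, zero_mul])
  have hb0 : b ≠ 0 := fun h0 => hNd (by rw [hdet, h0, mul_zero])
  have hab' : a ≠ b := by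
    intro hEq
    rw [← hEq] at hab
    have hCH := Matrix.aeval_self_charpoly N
    rw [hab] at hCH
    have hnil : (N - a • (1 : Matrix (Fin 2) (Fin 2) K)) * (N - a • (1 : Matrix (Fin 2) (Fin 2) K))
        = 0 := by
      have : Polynomial.aeval N ((Polynomial.X - Polynomial.C a) * (Polynomial.X - Polynomial.C a))
          = (N - a • (1 : Matrix (Fin 2) (Fin 2) K)) * (N - a • (1 : Matrix (Fin 2) (Fin 2) K)) := by
        rw [map_mul, map_sub, Polynomial.aeval_X, Polynomial.aeval_C, Algebra.algebraMap_eq_smul_one]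
      rw [← this]
      exact hCH
    obtain ⟨n, hn⟩ : ∃ n, n = N - a • (1 : Matrix (Fin 2) (Fin 2) K) := ⟨_, rfl⟩
    have hN' : N = a • (1 : Matrix (Fin 2) (Fin 2) K) + n := by rw [hn]; abel
    rw [← hn] at hnil
    have hpow := pow_add_nil a n hnil 23
    rw [← hN'] at hpow
    have h24 : (((23 + 1 : ℕ) : K) * a ^ 23) ≠ 0 := by
      refine mul_ne_zero ?_ (pow_ne_zero _ ha0)
      rw [Ne, CharP.cast_eq_zero_iff K p]
      intro hd
      have hd' : p ∣ 2 ^ 3 * 3 := by simpa using hd
      rcases (Nat.Prime.dvd_mul hp.out).mp hd' with h2 | h3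
      · have := (Nat.prime_dvd_prime_iff_eq hp.out Nat.prime_two).mp (hp.out.dvd_of_dvd_pow h2)
        omega
      · have := (Nat.prime_dvd_prime_iff_eq hp.out Nat.prime_three).mp h3
        omega
    -- n is scalar
    have hns : n = n 0 0 • (1 : Matrix (Fin 2) (Fin 2) K) := by
      have h1 : ∀ i j, i ≠ j → n i j = 0 := by
        intro i j hij
        have h2 := congrFun (congrFun hpow i) j
        rw [hsc] at h2
        simp only [Matrix.smul_apply, Matrix.add_apply, Matrix.one_apply_ne hij, smul_eq_mul,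
          mul_zero, zero_add] at h2
        exact (mul_eq_zero.mp h2.symm).resolve_left h24
      have h2 : n 1 1 = n 0 0 := by
        have h3 := congrFun (congrFun hpow 0) 0
        have h4 := congrFun (congrFun hpow 1) 1
        rw [hsc] at h4
        simp only [Matrix.smul_apply, Matrix.add_apply, Matrix.one_apply_eq, smul_eq_mul,
          mul_one] at h3 h4
        apply mul_left_cancel₀ h24
        have h5 := h4.symm.trans h3
        exact add_left_cancel h5
      ext i j
      fin_cases i <;> fin_cases j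
      · simp
      · simpa using h1 0 1 (by decide)
      · simpa using h1 1 0 (by decide)
      · simpa using h2
    have hn0 : n = 0 := by
      have h1 : n 0 0 = 0 := by
        have h2 := hnil
        rw [hns] at h2
        have h3 := congrFun (congrFun h2 0) 0
        simp at h3
        exact h3
      rw [hns, h1, zero_smul]
    rw [hn0, add_zero] at hN'
    apply hne
    rw [hN'] at hNB
    have hB : B = μ • B.map φ := by
      have h1 : a • B = a • (μ • B.map φ) := by
        have h2 := hNB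
        simp only [smul_mul_assoc, one_mul, mul_smul_comm, mul_one] at h2
        rw [h2, smul_smul, smul_smul, mul_comm]
      exact smul_right_injective _ ha0 h1
    calc B * B.map φ = (μ • B.map φ) * B.map φ := by rw [← hB]
      _ = B.map φ * (μ • B.map φ) := by rw [smul_mul_assoc, mul_smul_comm]
      _ = B.map φ * B := by rw [← hB]
  rw [hab]
  have c1 : IsCoprime (Polynomial.X - Polynomial.C a : Polynomial K)
      (Polynomial.X - Polynomial.C b) :=
    Polynomial.isCoprime_X_sub_C_of_isUnit_sub (sub_ne_zero.mpr hab').isUnit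
  have cX : ∀ d : K, d ≠ 0 → IsCoprime (Polynomial.X : Polynomial K)
      (Polynomial.X - Polynomial.C d) := by
    intro d hd
    have h1 : IsCoprime (Polynomial.X - Polynomial.C 0 : Polynomial K)
        (Polynomial.X - Polynomial.C d) :=
      Polynomial.isCoprime_X_sub_C_of_isUnit_sub (sub_ne_zero.mpr hd.symm).isUnit
    rw [Polynomial.C_0, sub_zero] at h1
    exact h1
  have s1 : (Polynomial.X - Polynomial.C a : Polynomial K).Separable :=
    Polynomial.separable_X_sub_C
  have s2 : (Polynomial.X - Polynomial.C b : Polynomial K).Separable :=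
    Polynomial.separable_X_sub_C
  have s3 : ((Polynomial.X - Polynomial.C a) * (Polynomial.X - Polynomial.C b) :
      Polynomial K).Separable := s1.mul s2 c1
  exact Polynomial.separable_X.mul s3 (IsCoprime.mul_right (cX a ha0) (cX b hb0))

end ASQ
end

section
/-!
# MP_b685ef_ag, theorem ASQ, module FINX (helper95)

The multiple eigenvalues are `q` times algebraic units: the theorem over an arbitrary algebraically
closed field of characteristic zero.
-/
set_option linter.all false

namespace ASQ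

open Finset ASur ASP

universe u v

namespace FINXaux

theorem fx_int {p : ℕ} [Fact p.Prime] {K : Type*} [Field K] [CharZero K]
    (ψ : AddChar (ZMod p) K) (x : ZMod p) : IsIntegral ℤ (ψ x) := by
  have h1 : (ψ x) ^ p = 1 := by
    rw [← AddChar.map_nsmul_eq_pow]
    simp
  refine IsIntegral.of_pow (Fact.out : p.Prime).pos ?_
  rw [h1]
  exact isIntegral_one

/-- the values of the character are in the ring generated by its value at one. -/
theorem fx_mem {p : ℕ} [Fact p.Prime] {K : Type*} [Field K] (ψ : AddChar (ZMod p) K)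
    (z : ZMod p) : ψ z ∈ Algebra.adjoin ℤ {ψ 1} := by
  have h1 : ψ z = (ψ 1) ^ z.val := by
    rw [← AddChar.map_nsmul_eq_pow]
    congr 1
    rw [nsmul_eq_mul, mul_one, ZMod.natCast_zmod_val]
  rw [h1]
  exact Subalgebra.pow_mem _ (Algebra.subset_adjoin (Set.mem_singleton _)) _

theorem fx_Sf {p : ℕ} [Fact p.Prime] {K : Type*} [Field K]
    (ψ : AddChar (ZMod p) K) {k : Type} [Field k] (f : MvPolynomial (Fin 2) k)
    (E : Type) [Field E] [Fintype E] [Algebra (ZMod p) E] [Algebra k E] :
    Sf ψ f E ∈ Algebra.adjoin ℤ {ψ 1} := by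
  unfold Sf
  exact Subalgebra.sum_mem _ fun x _ => fx_mem ψ _

theorem fx_Sf' {p : ℕ} [Fact p.Prime] {K : Type*} [Field K]
    (ψ : AddChar (ZMod p) K) {k : Type} [Field k] (f : MvPolynomial (Fin 2) k)
    (E : Type) [Field E] [Fintype E] [Algebra (ZMod p) E] [Algebra k E] :
    Sf ψ⁻¹ f E ∈ Algebra.adjoin ℤ {ψ 1} := by
  unfold Sf
  refine Subalgebra.sum_mem _ fun x _ => ?_
  rw [AddChar.inv_apply]
  exact fx_mem ψ _

end FINXaux

open FINXaux

theorem FINX_thm (hCLSX : StmtCLSX) (hTRANS : StmtTRANS.{u}) (hPLACE : StmtPLACE.{u})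
    (hFATOU : StmtFATOU.{u}) (hUNITQ : StmtUNITQ.{u}) (hLINALG : StmtLINALG.{u, v})
    (hEXT : StmtEXT) : StmtFINX.{u, v} := by
  classical
  intro p _ a b ha hb hD k _ _ _ f hf hS hdeg hsq K _ _ _ ψ hψ V _ _ _ φ hT
  obtain ⟨L0, L1, L2, L3, -⟩ := hLINALG K V φ
  set β : Multiset K := (LinearMap.charpoly (φ : V →ₗ[K] V)).roots with hβ
  have hTβ : ∀ (E : Type) [Field E] [Fintype E] [Algebra (ZMod p) E] [Algebra k E],
      (β.map fun x => x ^ Module.finrank k E).sum = Sf ψ f E ∧
      ((Fintype.card k : K) ^ Module.finrank k E) ^ 2 *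
        (β.map fun x => (x⁻¹) ^ Module.finrank k E).sum = Sf ψ⁻¹ f E := by
    intro E _ _ _ _
    obtain ⟨t1, t2⟩ := hT E
    rw [← L2, ← L3]
    refine ⟨t1, ?_⟩
    rw [← t2]
    congr 2
    have := Module.card_eq_pow_finrank (K := k) (V := E)
    rw [this]
    push_cast
    rfl
  -- integrality of the elements
  set R : Subalgebra ℤ K := Algebra.adjoin ℤ {ψ 1} with hR
  have hRfin : Module.Finite ℤ R := Algebra.finite_adjoin_simple_of_isIntegral (fx_int ψ 1)
  have hsum : ∀ j, 1 ≤ j → (β.map fun x => x ^ j).sum ∈ R := by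
    intro j hj
    obtain ⟨E, _, _, _, _, hE⟩ := hEXT p k j hj
    have h1 := (hTβ E).1
    rw [hE] at h1
    rw [h1]
    exact fx_Sf ψ f E
  set q : K := (Fintype.card k : K) with hq
  set γ : Multiset K := β.map fun x => q ^ 2 * x⁻¹ with hγ
  have hsum' : ∀ j, 1 ≤ j → (γ.map fun x => x ^ j).sum ∈ R := by
    intro j hj
    obtain ⟨E, _, _, _, _, hE⟩ := hEXT p k j hj
    have h1 := (hTβ E).2
    rw [hE] at h1
    have h2 : (γ.map fun x => x ^ j).sum = (q ^ j) ^ 2 * (β.map fun x => (x⁻¹) ^ j).sum := by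
      rw [hγ, Multiset.map_map, ← Multiset.sum_map_mul_left]
      congr 1
      refine Multiset.map_congr rfl fun x _ => ?_
      simp only [Function.comp]
      rw [mul_pow, ← pow_mul, ← pow_mul, mul_comm 2 j]
    rw [h2, h1]
    exact fx_Sf' ψ f E
  have hint : ∀ x ∈ β, IsIntegral ℤ x := fun x hx => hFATOU K R hRfin β hsum x hx (L0 x hx)
  have hq0 : q ≠ 0 := by
    rw [hq]
    exact Nat.cast_ne_zero.2 Fintype.card_ne_zero
  have hint' : ∀ x ∈ β, IsIntegral ℤ (q ^ 2 * x⁻¹) := by
    intro x hx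
    refine hFATOU K R hRfin γ hsum' _ ?_ ?_
    · rw [hγ]
      exact Multiset.mem_map_of_mem _ hx
    · exact mul_ne_zero (pow_ne_zero _ hq0) (inv_ne_zero (L0 x hx))
  have halg : ∀ j, 1 ≤ j → IsAlgebraic ℚ (β.map fun x => x ^ j).sum := by
    intro j hj
    have h1 : IsIntegral ℤ (β.map fun x => x ^ j).sum := by
      refine IsIntegral.multiset_sum fun y hy => ?_
      obtain ⟨x, hx, rfl⟩ := Multiset.mem_map.1 hy
      exact (hint x hx).pow j
    exact (h1.tower_top (A := ℚ)).isAlgebraic
  -- the p-adic field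
  let C := PadicAlgCl p
  have hnp : ‖(p : C)‖ < 1 := by
    have h1 : ((algebraMap ℚ_[p] (PadicAlgCl p)) (p : ℚ_[p])) = (p : PadicAlgCl p) := by simp
    have h2 := PadicAlgCl.norm_extends p (p : ℚ_[p])
    have h3 : ‖(p : PadicAlgCl p)‖ = ‖(p : ℚ_[p])‖ := by rw [← h2]; congr 1
    show ‖(p : PadicAlgCl p)‖ < 1
    rw [h3]
    exact Padic.norm_p_lt_one
  let j : ℤ_[p] →+* C := (algebraMap ℚ_[p] (PadicAlgCl p)).comp PadicInt.Coe.ringHom
  have hj : ∀ x, ‖j x‖ ≤ 1 := by
    intro x
    have h2 := PadicAlgCl.norm_extends p (x : ℚ_[p])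
    exact h2.trans_le x.norm_le_one
  have key : ∀ (c : K) (y : C), IsAlgebraic ℚ c → Polynomial.aeval y (minpoly ℚ c) = 0 →
      ∃ (A : Subfield K) (g : A →+* C), (∀ x : K, IsAlgebraic ℚ x → x ∈ A) ∧
        (∀ hc : c ∈ A, g ⟨c, hc⟩ = y) ∧ Multiset.card β = (a - 1) * (b - 1) ∧
        ∀ (x : K) (hx : x ∈ A), Multiset.replicate 2 x ≤ β →
          ‖g ⟨x, hx⟩‖ = ‖(Fintype.card k : C)‖ := by
    intro c y hc hy
    obtain ⟨A, g, hA, hβA, hg⟩ := hPLACE K C β halg c y hc hy
    obtain ⟨ψ', β', hψ', hβ0', hcard, hT', hrep⟩ :=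
      hTRANS p k f K C A g hA ψ hψ β L0 hβA (fun E _ _ _ _ => hTβ E)
    obtain ⟨R1, R2⟩ := hCLSX p a b ha hb hD C hnp j hj k f hf hS hdeg hsq ψ' hψ' β' hβ0'
      (fun E _ _ _ _ => hT' E)
    refine ⟨A, g, hA, hg, ?_, ?_⟩
    · rw [← hcard, R1]
    · intro x hx hx2
      exact R2 _ (hrep x hx 2 hx2)
  have hcq : ∃ h : ℕ, Fintype.card k = p ^ h := by
    refine ⟨Module.finrank (ZMod p) k, ?_⟩
    have h1 := Module.card_eq_pow_finrank (K := ZMod p) (V := k)
    rwa [ZMod.card] at h1
  obtain ⟨h, hh⟩ := hcq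
  have hqK : q = (p : K) ^ h := by rw [hq, hh]; push_cast; rfl
  have hqC : ‖(Fintype.card k : C)‖ = ‖(p : C)‖ ^ h := by rw [hh, Nat.cast_pow, norm_pow]
  constructor
  · obtain ⟨-, -, -, -, h4, -⟩ := key 0 0 isAlgebraic_zero (by rw [minpoly.zero]; simp)
    rw [← L1, h4]
  · intro x hx
    have hx2 : Multiset.replicate 2 x ≤ β := by
      rw [← Multiset.le_count_iff_replicate_le, hβ, Polynomial.count_roots]
      exact hx
    have hxβ : x ∈ β := Multiset.mem_of_le hx2 (by simp)
    have hx0 : x ≠ 0 := L0 x hxβ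
    have i1 := hint x hxβ
    have i2 := hint' x hxβ
    have a1 : IsAlgebraic ℚ x := (i1.tower_top (A := ℚ)).isAlgebraic
    have a2 : IsAlgebraic ℚ (q ^ 2 * x⁻¹) := (i2.tower_top (A := ℚ)).isAlgebraic
    constructor
    · rw [hqK]
      refine hUNITQ p K C hnp h x i1 fun y hy => ?_
      obtain ⟨A, g, hA, hg, -, hn⟩ := key x y a1 hy
      have h5 := hn x (hA x a1) hx2
      rw [hg, hqC] at h5
      exact h5.le
    · have h6 : q / x = (q ^ 2 * x⁻¹) / (p : K) ^ h := by
        rw [← hqK]
        field_simp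
      rw [h6]
      refine hUNITQ p K C hnp h (q ^ 2 * x⁻¹) i2 fun y hy => ?_
      obtain ⟨A, g, hA, hg, -, hn⟩ := key (q ^ 2 * x⁻¹) y a2 hy
      have h5 := hn x (hA x a1) hx2
      rw [hqC] at h5
      have h7 := hg (hA _ a2)
      have h8 : g ⟨x, hA x a1⟩ * y = ((Fintype.card k : C)) ^ 2 := by
        rw [← h7, ← map_mul]
        have h9 : (⟨x, hA x a1⟩ : A) * ⟨q ^ 2 * x⁻¹, hA _ a2⟩ = (Fintype.card k : A) ^ 2 := by
          apply Subtype.ext
          push_cast
          show x * (q ^ 2 * x⁻¹) = q ^ 2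
          field_simp
        rw [h9, map_pow, map_natCast]
      have h10 : ‖(p : C)‖ ^ h * ‖y‖ = (‖(p : C)‖ ^ h) ^ 2 := by
        rw [← h5, ← norm_mul, h8, norm_pow, hqC, h5]
      have hpos : 0 < ‖(p : C)‖ ^ h := by
        rw [← hqC]
        exact norm_pos_iff.2 (Nat.cast_ne_zero.2 Fintype.card_ne_zero)
      have h11 : ‖y‖ = ‖(p : C)‖ ^ h := by
        have := mul_left_cancel₀ hpos.ne' (h10.trans (pow_two _))
        exact this
      exact h11.le

end ASQ
end

section
/-!
# MP_b685ef_ag, theorem ASQ, module HEQ (helper77)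
-/
set_option linter.all false

namespace ASQ

open Finset ASur

namespace HEQaux

theorem v0 (i j : ℕ) : (Finsupp.equivFunOnFinite.symm ![i + 1, j] : Fin 2 →₀ ℕ) =
    Finsupp.single 0 1 + Finsupp.equivFunOnFinite.symm ![i, j] := by
  ext s
  fin_cases s
  · simp [add_comm]
  · simp

theorem v1 (i j : ℕ) : (Finsupp.equivFunOnFinite.symm ![i, j + 1] : Fin 2 →₀ ℕ) =
    Finsupp.single 1 1 + Finsupp.equivFunOnFinite.symm ![i, j] := by
  ext s
  fin_cases s
  · simp
  · simp [add_comm]

variable {K : Type} [Field K]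

theorem cf_X0 (G : MvPolynomial (Fin 2) K) (i j : ℕ) :
    cf (MvPolynomial.X 0 * G) ![i + 1, j] = cf G ![i, j] := by
  rw [cf, cf, v0, MvPolynomial.coeff_X_mul]

theorem cf_X1 (G : MvPolynomial (Fin 2) K) (i j : ℕ) :
    cf (MvPolynomial.X 1 * G) ![i, j + 1] = cf G ![i, j] := by
  rw [cf, cf, v1, MvPolynomial.coeff_X_mul]

theorem cf_lin (G : MvPolynomial (Fin 2) K) (a b : K) (i j : ℕ) :
    cf ((MvPolynomial.C a * MvPolynomial.X 0 + MvPolynomial.C b * MvPolynomial.X 1) * G)
      ![i + 1, j + 1] = a * cf G ![i, j + 1] + b * cf G ![i + 1, j] := by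
  have h : (MvPolynomial.C a * MvPolynomial.X 0 + MvPolynomial.C b * MvPolynomial.X 1) * G =
      MvPolynomial.C a * (MvPolynomial.X 0 * G) + MvPolynomial.C b * (MvPolynomial.X 1 * G) := by
    ring
  rw [h]
  rw [show cf (MvPolynomial.C a * (MvPolynomial.X 0 * G) + MvPolynomial.C b *
      (MvPolynomial.X 1 * G)) ![i + 1, j + 1] = a * cf (MvPolynomial.X 0 * G) ![i + 1, j + 1] +
      b * cf (MvPolynomial.X 1 * G) ![i + 1, j + 1] by
    simp only [cf, MvPolynomial.coeff_add, MvPolynomial.coeff_C_mul]]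
  rw [cf_X0, cf_X1]

theorem act_X0 (A : Matrix (Fin 2) (Fin 2) K) (G : MvPolynomial (Fin 2) K) :
    act A (MvPolynomial.X 0 * G) = (MvPolynomial.C (A 0 0) * MvPolynomial.X 0 +
      MvPolynomial.C (A 0 1) * MvPolynomial.X 1) * act A G := by
  rw [act, act, map_mul, MvPolynomial.aeval_X]
  rfl

theorem act_X1 (A : Matrix (Fin 2) (Fin 2) K) (G : MvPolynomial (Fin 2) K) :
    act A (MvPolynomial.X 1 * G) = (MvPolynomial.C (A 1 0) * MvPolynomial.X 0 +
      MvPolynomial.C (A 1 1) * MvPolynomial.X 1) * act A G := by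
  rw [act, act, map_mul, MvPolynomial.aeval_X]
  rfl

end HEQaux

open HEQaux in
theorem heq_thm (hCARE : StmtCARE) : StmtHEQ := by
  intro p hp K _ _ F hF A
  have h2 : 2 ≤ p := hp.out.two_le
  have hd : 1 + 3 * (p - 1) = 3 * p - 2 := by omega
  have hX : ∀ i : Fin 2, (MvPolynomial.X i * F).IsHomogeneous (3 * p - 2) := by
    intro i
    rw [← hd]
    exact (MvPolynomial.isHomogeneous_X K i).mul hF
  obtain ⟨h00, h10⟩ := hCARE p K _ (hX 0) A
  obtain ⟨h01, h11⟩ := hCARE p K _ (hX 1) A
  rw [act_X0] at h00 h10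
  rw [act_X1] at h01 h11
  obtain ⟨n, rfl⟩ : ∃ n, p = n + 2 := ⟨p - 2, by omega⟩
  have e1 : 2 * (n + 2) - 1 = (2 * n + 2) + 1 := by omega
  have e2 : n + 2 - 1 = n + 1 := by omega
  have e3 : 2 * (n + 2) - 2 = 2 * n + 2 := by omega
  have e4 : n + 2 - 2 = n := by omega
  rw [e1, e2, cf_lin, cf_X0, cf_X0] at h00 h10
  rw [e1, e2, cf_lin, cf_X1, cf_X1] at h01 h11
  ext i j
  fin_cases i <;> fin_cases j <;>
    simp only [hm, e1, e2, e3, e4, Matrix.mul_apply, Fin.sum_univ_two, Matrix.transpose_apply,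
      Matrix.smul_apply, Matrix.map_apply, Matrix.of_apply, Matrix.cons_val', Matrix.cons_val_zero,
      Matrix.cons_val_one, smul_eq_mul, Fin.zero_eta, Fin.mk_one, Matrix.cons_val_fin_one]
  · linear_combination h00
  · linear_combination h01
  · linear_combination h10
  · linear_combination h11

end ASQ
end

section
/-!
# MP_b685ef_ag, theorem ASQ, module INVQ
-/
set_option linter.all false

namespace ASQ

open Finset ASur ASP

theorem INVQ_thm : StmtINVQ := by
  intro K _ c ρ
  simp only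
  have hdet : (invol (ρ 0) (ρ 1) (ρ 2) (ρ 3)).det =
      -((ρ 0 - ρ 2) * (ρ 0 - ρ 3) * (ρ 1 - ρ 2) * (ρ 1 - ρ 3)) := by
    rw [invol, Matrix.det_fin_two_of]
    ring
  refine ⟨?_, hdet⟩
  rw [hdet]
  set x : MvPolynomial (Fin 2) K := MvPolynomial.X 0
  set y : MvPolynomial (Fin 2) K := MvPolynomial.X 1
  have hprod : ∏ i : Fin 4, (x - MvPolynomial.C (ρ i) * y) =
      (x - MvPolynomial.C (ρ 0) * y) * (x - MvPolynomial.C (ρ 1) * y) *
        (x - MvPolynomial.C (ρ 2) * y) * (x - MvPolynomial.C (ρ 3) * y) := by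
    rw [Fin.prod_univ_four]
  have hq : quart c ρ = MvPolynomial.C c * ((x - MvPolynomial.C (ρ 0) * y) *
      (x - MvPolynomial.C (ρ 1) * y) * (x - MvPolynomial.C (ρ 2) * y) *
      (x - MvPolynomial.C (ρ 3) * y)) := by
    rw [quart, hprod]
  rw [hq]
  have e0 : ∀ A : Matrix (Fin 2) (Fin 2) K, act A x =
      MvPolynomial.C (A 0 0) * x + MvPolynomial.C (A 0 1) * y := by
    intro A; simp [act, x, y]
  have e1 : ∀ A : Matrix (Fin 2) (Fin 2) K, act A y =
      MvPolynomial.C (A 1 0) * x + MvPolynomial.C (A 1 1) * y := by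
    intro A; simp [act, x, y]
  have e2 : ∀ (A : Matrix (Fin 2) (Fin 2) K) (F G : MvPolynomial (Fin 2) K),
      act A (F * G) = act A F * act A G := by
    intro A F G; simp [act]
  have e3 : ∀ (A : Matrix (Fin 2) (Fin 2) K) (F G : MvPolynomial (Fin 2) K),
      act A (F - G) = act A F - act A G := by
    intro A F G; simp [act]
  have e4 : ∀ (A : Matrix (Fin 2) (Fin 2) K) (t : K),
      act A (MvPolynomial.C t) = MvPolynomial.C t := by
    intro A t; simp [act, MvPolynomial.algebraMap_eq]
  simp only [e2, e3, e4, e0, e1]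
  simp only [invol, Matrix.of_apply, Matrix.cons_val', Matrix.cons_val_zero, Matrix.cons_val_one,
    Matrix.cons_val_fin_one]
  simp only [MvPolynomial.C_mul, MvPolynomial.C_sub, MvPolynomial.C_add, MvPolynomial.C_neg,
    MvPolynomial.C_pow]
  generalize MvPolynomial.C (σ := Fin 2) (ρ 0) = r0
  generalize MvPolynomial.C (σ := Fin 2) (ρ 1) = r1
  generalize MvPolynomial.C (σ := Fin 2) (ρ 2) = r2
  generalize MvPolynomial.C (σ := Fin 2) (ρ 3) = r3
  -- two quadratic identities
  have k1 : ((r0 * r1 - r2 * r3) * x + (r2 * r3 * (r0 + r1) - (r2 + r3) * (r0 * r1)) * y -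
      r0 * ((r0 + r1 - (r2 + r3)) * x + -(r0 * r1 - r2 * r3) * y)) *
      ((r0 * r1 - r2 * r3) * x + (r2 * r3 * (r0 + r1) - (r2 + r3) * (r0 * r1)) * y -
      r1 * ((r0 + r1 - (r2 + r3)) * x + -(r0 * r1 - r2 * r3) * y)) =
      ((r0 - r2) * (r0 - r3) * (r1 - r2) * (r1 - r3)) * ((x - r0 * y) * (x - r1 * y)) := by ring
  have k2 : ((r0 * r1 - r2 * r3) * x + (r2 * r3 * (r0 + r1) - (r2 + r3) * (r0 * r1)) * y -
      r2 * ((r0 + r1 - (r2 + r3)) * x + -(r0 * r1 - r2 * r3) * y)) *
      ((r0 * r1 - r2 * r3) * x + (r2 * r3 * (r0 + r1) - (r2 + r3) * (r0 * r1)) * y -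
      r3 * ((r0 + r1 - (r2 + r3)) * x + -(r0 * r1 - r2 * r3) * y)) =
      ((r0 - r2) * (r0 - r3) * (r1 - r2) * (r1 - r3)) * ((x - r2 * y) * (x - r3 * y)) := by ring
  linear_combination (MvPolynomial.C c) * ((((r0 - r2) * (r0 - r3) * (r1 - r2) * (r1 - r3)) *
    ((x - r2 * y) * (x - r3 * y))) * k1) + (MvPolynomial.C c) *
    (((r0 * r1 - r2 * r3) * x + (r2 * r3 * (r0 + r1) - (r2 + r3) * (r0 * r1)) * y -
      r0 * ((r0 + r1 - (r2 + r3)) * x + -(r0 * r1 - r2 * r3) * y)) *
      ((r0 * r1 - r2 * r3) * x + (r2 * r3 * (r0 + r1) - (r2 + r3) * (r0 * r1)) * y -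
      r1 * ((r0 + r1 - (r2 + r3)) * x + -(r0 * r1 - r2 * r3) * y))) * k2

end ASQ
end

section
/-! ASQ, module ITERQ (helper53). -/
namespace ASQ

open Finset ASur ASP

namespace ITERQaux

lemma frob_map {p : ℕ} [Fact p.Prime] {K : Type} [Field K] [CharP K p] (n : ℕ) (M : Matrix (Fin 2) (Fin 2) K) :
    (M.map fun x => x ^ (p ^ n)) = M.map (iterateFrobenius K p n) := by
  ext i j
  simp [Matrix.map_apply, iterateFrobenius_def]

end ITERQaux

open ITERQaux in
theorem iterq_thm : StmtITERQ := by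
  intro p _ K _ _ H B μ hμ hHB n
  induction n with
  | zero =>
    refine ⟨1, one_ne_zero, ?_⟩
    have e : (B.map fun x => x ^ (p ^ 0)) = B := by
      ext i j; simp [Matrix.map_apply]
    rw [e]
    simp [Fprod]
  | succ n ih =>
    obtain ⟨ν, hν, h⟩ := ih
    refine ⟨ν * μ ^ (p ^ n), mul_ne_zero hν (pow_ne_zero _ hμ), ?_⟩
    have h1 : (H.map fun x => x ^ (p ^ n)) * (B.map fun x => x ^ (p ^ n))
        = μ ^ (p ^ n) • ((B.map fun x => x ^ (p ^ (n + 1))) * (H.map fun x => x ^ (p ^ n))) := by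
      have e : (H * B).map (iterateFrobenius K p n) = (μ • ((B.map fun x => x ^ p) * H)).map (iterateFrobenius K p n) := by
        rw [hHB]
      rw [Matrix.map_mul] at e
      have e2 : (μ • ((B.map fun x => x ^ p) * H)).map (iterateFrobenius K p n)
          = μ ^ (p ^ n) • (((B.map fun x => x ^ p).map (iterateFrobenius K p n)) * H.map (iterateFrobenius K p n)) := by
        rw [← Matrix.map_mul]
        ext i j
        rw [Matrix.smul_apply, Matrix.map_apply, Matrix.smul_apply, Matrix.map_apply, smul_eq_mul, smul_eq_mul,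
          map_mul, iterateFrobenius_def, iterateFrobenius_def]
      rw [e2] at e
      have e3 : ((B.map fun x => x ^ p).map (iterateFrobenius K p n)) = B.map fun x => x ^ (p ^ (n + 1)) := by
        ext i j
        simp only [Matrix.map_apply, iterateFrobenius_def]
        rw [← pow_mul, pow_succ, mul_comm]
      rw [e3] at e
      rw [frob_map n H, frob_map n B]
      exact e
    calc Fprod p H (n + 1) * B = (H.map fun x => x ^ (p ^ n)) * (Fprod p H n * B) := by
          rw [show Fprod p H (n + 1) = (H.map fun x => x ^ (p ^ n)) * Fprod p H n from rfl, Matrix.mul_assoc]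
      _ = (H.map fun x => x ^ (p ^ n)) * (ν • ((B.map fun x => x ^ (p ^ n)) * Fprod p H n)) := by rw [h]
      _ = ν • (((H.map fun x => x ^ (p ^ n)) * (B.map fun x => x ^ (p ^ n))) * Fprod p H n) := by
          rw [Matrix.mul_smul, Matrix.mul_assoc]
      _ = ν • ((μ ^ (p ^ n) • ((B.map fun x => x ^ (p ^ (n + 1))) * (H.map fun x => x ^ (p ^ n)))) * Fprod p H n) := by
          rw [h1]
      _ = (ν * μ ^ (p ^ n)) • ((B.map fun x => x ^ (p ^ (n + 1))) * Fprod p H (n + 1)) := by
          rw [Matrix.smul_mul, smul_smul, Matrix.mul_assoc]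
          rfl

end ASQ
end

section
/-! # Module LEAD4: the leading form of a quartic. -/
set_option linter.all false

namespace ASQ

open Finset ASur ASP

universe u v

theorem lead4_thm : StmtLEAD4 := by
  intro k K _ _ _ f c ρ h
  have hg : Nat.gcd 4 4 = 4 := by decide
  have hl : Nat.lcm 4 4 = 4 := by decide
  have h1 := ASP.HGIaux.lead_eq 4 4 1 1 one_pos one_pos (by decide) (by decide) (by decide)
    (by decide) (by decide) (by decide) f
  have hsub : (ASP.HGIaux.sub2 1 1 : MvPolynomial (Fin 2) k →ₐ[k] MvPolynomial (Fin 2) k) =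
      AlgHom.id k _ := by
    apply MvPolynomial.algHom_ext
    intro i
    fin_cases i <;> simp [ASP.HGIaux.sub2]
  rw [hsub, hg] at h1
  rw [h1, AlgHom.id_apply, ← Polynomial.homogenize_map, h, Polynomial.homogenize_C_mul, quart]
  congr 1
  have h2 : Polynomial.homogenize (∏ i : Fin 4, (Polynomial.X - Polynomial.C (ρ i)))
      (∑ i : Fin 4, 1) = ∏ i : Fin 4, Polynomial.homogenize (Polynomial.X - Polynomial.C (ρ i)) 1 :=
    Polynomial.homogenize_finsetProd (fun i _ => by
      rw [Polynomial.natDegree_X_sub_C])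
  have h3 : (∑ i : Fin 4, 1) = 4 := by simp
  rw [h3] at h2
  rw [h2]
  refine Finset.prod_congr rfl fun i _ => ?_
  rw [Polynomial.homogenize_sub, Polynomial.homogenize_X one_ne_zero, Polynomial.homogenize_C]
  simp

end ASQ
end

section
/-!
# MP_b685ef_ag, theorem ASQ: module NCOM
-/
set_option linter.all false

namespace ASQ

open Finset ASur ASP

theorem ncom_thm : StmtNCOM := by
  intro K _ r₀ r₁ r₂ r₃ h2 h01 h02 h03 h12 h13 h23 hc
  have e : ∀ i j, (invol r₀ r₁ r₂ r₃ * invol r₁ r₂ r₃ r₀) i j =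
      (invol r₁ r₂ r₃ r₀ * invol r₀ r₁ r₂ r₃) i j := fun i j => by rw [hc]
  have e00 := e 0 0
  have e01 := e 0 1
  have e10 := e 1 0
  simp only [invol, Matrix.mul_apply, Fin.sum_univ_two, Matrix.of_apply, Matrix.cons_val',
    Matrix.cons_val_zero, Matrix.cons_val_one, Matrix.cons_val_fin_one] at e00 e01 e10
  have k1 : (2 : K) * ((r₁ - r₂) * (r₁ - r₃) * (r₁ - r₃) * (r₁ - r₀) * (r₀ - r₂)) = 0 := by
    linear_combination (-r₁ ^ 2) * e10 + (2 * r₁) * e00 + e01
  have d02 := sub_ne_zero.2 h02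
  have d10 := sub_ne_zero.2 (Ne.symm h01)
  have d12 := sub_ne_zero.2 h12
  have d13 := sub_ne_zero.2 h13
  have k2 := mul_ne_zero h2 (mul_ne_zero (mul_ne_zero (mul_ne_zero (mul_ne_zero d12 d13) d13) d10)
    d02)
  exact k2 k1

end ASQ
end

section
/-!
# ASQ, module RED3: `N_3` for quartics as a `2 × 2` matrix
-/
set_option linter.all false

namespace ASQ

open Finset ASur ASP

namespace RED3aux

theorem fprod_map {ι R S : Type} [Fintype ι] [DecidableEq ι] [CommSemiring R] [CommSemiring S]
    (p : ℕ) (φ : R →+* S) (M : Matrix ι ι R) (n : ℕ) :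
    Fprod p (M.map φ) n = (Fprod p M n).map φ := by
  induction n with
  | zero =>
    simp only [Fprod]
    rw [Matrix.map_one _ (map_zero φ) (map_one φ)]
  | succ n ih =>
    simp only [Fprod]
    rw [ih, Matrix.map_mul]
    congr 1
    ext i j
    simp

theorem fprod_sub {ι κ R : Type} [Fintype ι] [DecidableEq ι] [Fintype κ] [DecidableEq κ]
    [CommSemiring R] (p : ℕ) (e : κ ≃ ι) (M : Matrix ι ι R) (n : ℕ) :
    Fprod p (M.submatrix e e) n = (Fprod p M n).submatrix e e := by
  induction n with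
  | zero =>
    simp only [Fprod]
    rw [Matrix.submatrix_one_equiv]
  | succ n ih =>
    simp only [Fprod]
    rw [ih, ← Matrix.submatrix_mul_equiv _ _ e e e]
    rfl

theorem ew_eq (w : Fin 2 → Fin (Nat.lcm 4 4)) :
    ew 4 4 (pt w) = (w 0 : ℕ) + 1 + ((w 1 : ℕ) + 1) := by
  have h1 : Nat.lcm 4 4 / 4 = 1 := by decide
  simp only [ew, pt, h1, one_mul]

/-- the points `(2, 1)`, `(1, 2)` -/
def u0 : Um 4 4 (Nat.lcm 4 4) 3 := ⟨![⟨1, by decide⟩, ⟨0, by decide⟩], by rw [ew_eq]; rfl⟩

def u1 : Um 4 4 (Nat.lcm 4 4) 3 := ⟨![⟨0, by decide⟩, ⟨1, by decide⟩], by rw [ew_eq]; rfl⟩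

theorem bij : Function.Bijective (![u0, u1] : Fin 2 → Um 4 4 (Nat.lcm 4 4) 3) := by
  constructor
  · intro i j h
    have h2 := congrArg (fun u : Um 4 4 (Nat.lcm 4 4) 3 => ((u.1 0 : Fin (Nat.lcm 4 4)) : ℕ)) h
    fin_cases i <;> fin_cases j <;> first | rfl | (simp [u0, u1] at h2)
  · intro u
    have hu := u.2
    rw [ew_eq] at hu
    rcases Nat.eq_zero_or_pos (u.1 0 : ℕ) with h | h
    · refine ⟨1, ?_⟩
      apply Subtype.ext
      funext s
      apply Fin.ext
      fin_cases s
      · show 0 = (u.1 0 : ℕ)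
        omega
      · show 1 = (u.1 1 : ℕ)
        omega
    · refine ⟨0, ?_⟩
      apply Subtype.ext
      funext s
      apply Fin.ext
      fin_cases s
      · show 1 = (u.1 0 : ℕ)
        omega
      · show 0 = (u.1 1 : ℕ)
        omega

end RED3aux

open RED3aux in
/-- **RED3.** -/
theorem red3_thm : StmtRED3 := by
  intro p hp h4 k K _ _ _ f h
  have hp2 : 2 ≤ p := hp.out.two_le
  let e : Fin 2 ≃ Um 4 4 (Nat.lcm 4 4) 3 := Equiv.ofBijective _ bij
  have he : (p - 1) / Nat.lcm 4 4 * 3 = 3 * (p - 1) / 4 := by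
    have h1 : Nat.lcm 4 4 = 4 := by decide
    rw [h1]
    obtain ⟨c, hc⟩ := h4
    rw [hc]
    omega
  have hH : hm p ((MvPolynomial.map (algebraMap k K) (lead 4 4 f)) ^ (3 * (p - 1) / 4)) =
      ((Hmat p 4 4 (Nat.lcm 4 4) 3 f).map (algebraMap k K)).submatrix e e := by
    have key : ∀ w : Fin 2 → ℕ,
        cf ((MvPolynomial.map (algebraMap k K) (lead 4 4 f)) ^ (3 * (p - 1) / 4)) w =
        algebraMap k K (cf (lead 4 4 f ^ (3 * (p - 1) / 4)) w) := by
      intro w
      rw [← map_pow, cf, cf, MvPolynomial.coeff_map]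
    ext i j
    rw [Matrix.submatrix_apply, Matrix.map_apply, Hmat, Matrix.of_apply, he, ← key]
    fin_cases i <;> fin_cases j
    · show cf _ ![2 * p - 2, p - 1] = _
      congr 1
      funext s
      fin_cases s
      · show 2 * p - 2 = p * 2 - 2
        omega
      · show p - 1 = p * 1 - 1
        omega
    · show cf _ ![2 * p - 1, p - 2] = _
      congr 1
      funext s
      fin_cases s
      · show 2 * p - 1 = p * 2 - 1
        omega
      · show p - 2 = p * 1 - 2
        omega
    · show cf _ ![p - 2, 2 * p - 1] = _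
      congr 1
      funext s
      fin_cases s
      · show p - 2 = p * 1 - 2
        omega
      · show 2 * p - 1 = p * 2 - 1
        omega
    · show cf _ ![p - 1, 2 * p - 2] = _
      congr 1
      funext s
      fin_cases s
      · show p - 1 = p * 1 - 1
        omega
      · show 2 * p - 2 = p * 2 - 2
        omega
  rw [hH, fprod_sub, fprod_map, ← Matrix.charpoly_map]
  have h5 : ((Fprod p (Hmat p 4 4 (Nat.lcm 4 4) 3 f) h).map (algebraMap k K)).submatrix e e =
      Matrix.reindex e.symm e.symm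
        ((Fprod p (Hmat p 4 4 (Nat.lcm 4 4) 3 f) h).map (algebraMap k K)) := rfl
  rw [h5, Matrix.charpoly_reindex]

end ASQ
end

section
/-!
# MP_b685ef_ag, theorem ASQ, module QCORE: `N_3` for quartics, if a pairing of the roots moves
-/
set_option linter.all false

namespace ASQ

open Finset ASur ASP

theorem hm_C_mul (p : ℕ) {K : Type} [Field K] (a : K) (F : MvPolynomial (Fin 2) K) :
    hm p (MvPolynomial.C a * F) = a • hm p F := by
  have h : ∀ w, cf (MvPolynomial.C a * F) w = a * cf F w := by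
    intro w; rw [cf, cf, MvPolynomial.coeff_C_mul]
  ext i j
  fin_cases i <;> fin_cases j <;> simp [hm, h]

theorem hm_map (p : ℕ) {k K : Type} [Field k] [Field K] [Algebra k K]
    (F : MvPolynomial (Fin 2) k) :
    hm p (MvPolynomial.map (algebraMap k K) F) = (hm p F).map (algebraMap k K) := by
  have h : ∀ w, cf (MvPolynomial.map (algebraMap k K) F) w = algebraMap k K (cf F w) := by
    intro w; rw [cf, cf, MvPolynomial.coeff_map]
  ext i j
  fin_cases i <;> fin_cases j <;> simp [hm, h]

/-- The common part of the cases of QLAST. -/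
theorem qcore (hHEQ : StmtHEQ) (hINVQ : StmtINVQ) (hNCOM : StmtNCOM) (hITERQ : StmtITERQ)
    (hDISTQ : StmtDISTQ) (hDETH3 : StmtDETH3) (hLEAD4 : StmtLEAD4) (hRED3 : StmtRED3)
    (p : ℕ) [Fact p.Prime] (h4 : 4 ∣ p - 1) (k : Type) [Field k] [Fintype k]
    [Algebra (ZMod p) k] (K : Type) [Field K] [IsAlgClosed K] [Algebra k K]
    (f : MvPolynomial (Fin 2) k) (c : K) (ρ : Fin 4 → K) (hc : c ≠ 0)
    (hρ : Function.Injective ρ)
    (hG : (GF 4 4 f).map (algebraMap k K) =
      Polynomial.C c * ∏ i, (Polynomial.X - Polynomial.C (ρ i)))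
    (hfix : ∀ i, ρ i ^ (Fintype.card k ^ 12) = ρ i)
    (hM : ((invol (ρ 0) (ρ 1) (ρ 2) (ρ 3)).map fun x => x ^ Fintype.card k) =
        invol (ρ 1) (ρ 2) (ρ 3) (ρ 0) ∨
      ((invol (ρ 0) (ρ 1) (ρ 2) (ρ 3)).map fun x => x ^ Fintype.card k) =
        -invol (ρ 1) (ρ 2) (ρ 3) (ρ 0)) :
    (Polynomial.X * (Fprod p (Hmat p 4 4 (Nat.lcm 4 4) 3 f)
      (Module.finrank (ZMod p) k)).charpoly).Separable := by
  have hpp : p.Prime := Fact.out
  have hp5 : 5 ≤ p := by
    have h1 := hpp.two_le
    obtain ⟨t, ht⟩ := h4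
    rcases t with _ | t
    · omega
    · omega
  haveI : CharP k p := charP_of_injective_algebraMap (algebraMap (ZMod p) k).injective p
  haveI : CharP K p := charP_of_injective_algebraMap (algebraMap k K).injective p
  haveI : ExpChar K p := ExpChar.prime hpp
  haveI : Module.Finite (ZMod p) k := Module.Finite.of_finite
  set h := Module.finrank (ZMod p) k with hh
  have hq : Fintype.card k = p ^ h := by
    rw [Module.card_eq_pow_finrank (K := ZMod p) (V := k), ZMod.card]
  rw [hq] at hfix hM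
  set e := 3 * (p - 1) / 4 with he
  set M := invol (ρ 0) (ρ 1) (ρ 2) (ρ 3) with hMdef
  have h2 : (2 : K) ≠ 0 := by
    have : ((2 : ℕ) : K) ≠ 0 := by
      rw [Ne, CharP.cast_eq_zero_iff K p]
      intro hd
      have := Nat.le_of_dvd (by norm_num) hd
      omega
    exact_mod_cast this
  have hne : ∀ i j : Fin 4, i ≠ j → ρ i ≠ ρ j := fun i j hij h => hij (hρ h)
  obtain ⟨hI1, hI2⟩ := hINVQ K c ρ
  have hMd : M.det ≠ 0 := by
    rw [hMdef, hI2]
    refine neg_ne_zero.2 (mul_ne_zero (mul_ne_zero (mul_ne_zero ?_ ?_) ?_) ?_) <;>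
      exact sub_ne_zero.2 (hne _ _ (by decide))
  have hlead := hLEAD4 k K f c ρ hG
  -- the matrix H
  set F : MvPolynomial (Fin 2) K := quart c ρ ^ e with hF
  have hFh : F.IsHomogeneous (3 * (p - 1)) := by
    have h1 := (DETH3aux.quart_homog c ρ).pow e
    have h3 : 4 * e = 3 * (p - 1) := by
      obtain ⟨t, ht⟩ := h4
      rw [he, ht]; omega
    rwa [h3] at h1
  set H := hm p F with hH
  have hHd : H.det ≠ 0 := hDETH3 p h4 K c ρ hc hρ
  have hactF : act M F = MvPolynomial.C (M.det ^ (2 * e)) * F := by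
    rw [hF, DETH3aux.act_pow, hMdef, hI1, mul_pow, ← map_pow, ← pow_mul]
  have hE := hHEQ p K F hFh M
  rw [hactF, hm_C_mul, ← hH] at hE
  -- H * Mᵀ = μ • ...
  have hd2 : M.det ^ (2 * e) ≠ 0 := pow_ne_zero _ hMd
  set μ : K := (M.det ^ (2 * e))⁻¹ * M.det ^ (p - 1) with hμ
  have hμ0 : μ ≠ 0 := mul_ne_zero (inv_ne_zero hd2) (pow_ne_zero _ hMd)
  have hE2 : H * M.transpose = μ • ((M.transpose.map fun x => x ^ p) * H) := by
    have h3 : (M.det ^ (2 * e)) • (H * M.transpose) =
        M.det ^ (p - 1) • ((M.map fun x => x ^ p).transpose * H) := by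
      rw [← Matrix.smul_mul]; exact hE
    have h5 := congrArg (fun Z => (M.det ^ (2 * e))⁻¹ • Z) h3
    simp only [smul_smul] at h5
    rw [inv_mul_cancel₀ hd2, one_smul] at h5
    rw [h5, hμ]; rfl
  obtain ⟨ν, hν0, hν⟩ := hITERQ p K H M.transpose μ hμ0 hE2 h
  -- N
  have hHk : H = (hm p (lead 4 4 f ^ e)).map (algebraMap k K) := by
    rw [hH, hF, ← hlead, ← map_pow, hm_map]
  have hN : Fprod p H h = (Fprod p (hm p (lead 4 4 f ^ e)) h).map (algebraMap k K) := by
    rw [hHk, RED3aux.fprod_map]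
  have hNfix : ((Fprod p H h).map fun x => x ^ (p ^ h)) = Fprod p H h := by
    rw [hN]
    ext i j
    simp only [Matrix.map_apply]
    rw [← map_pow, ← hq, FiniteField.pow_card]
  have hNd : (Fprod p H h).det ≠ 0 := cubic_fprod p K (Fin 2) H hHd h
  have hBd : M.transpose.det ≠ 0 := by rwa [Matrix.det_transpose]
  have hBfix : (M.transpose.map fun x => x ^ ((p ^ h) ^ 12)) = M.transpose := by
    have hr : ∀ x : K, iterateFrobenius K p (h * 12) x = x ^ ((p ^ h) ^ 12) := by
      intro x; rw [iterateFrobenius_def, pow_mul]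
    have hr0 : ∀ i, iterateFrobenius K p (h * 12) (ρ i) = ρ i := by
      intro i; rw [hr]; exact hfix i
    have h6 : (fun x : K => x ^ ((p ^ h) ^ 12)) = iterateFrobenius K p (h * 12) := by
      funext x; exact (hr x).symm
    rw [h6]
    ext i j
    fin_cases i <;> fin_cases j <;>
      simp [hMdef, invol, hr0, map_sub, map_mul, map_add, map_neg]
  have hcom : M.transpose * (M.transpose.map fun x => x ^ (p ^ h)) ≠
      (M.transpose.map fun x => x ^ (p ^ h)) * M.transpose := by
    have hn := hNCOM K (ρ 0) (ρ 1) (ρ 2) (ρ 3) h2 (hne _ _ (by decide)) (hne _ _ (by decide))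
      (hne _ _ (by decide)) (hne _ _ (by decide)) (hne _ _ (by decide)) (hne _ _ (by decide))
    have ht : (M.transpose.map fun x => x ^ (p ^ h)) = (M.map fun x => x ^ (p ^ h)).transpose := rfl
    intro hc'
    rw [ht, ← Matrix.transpose_mul, ← Matrix.transpose_mul] at hc'
    have hc2 := Matrix.transpose_injective hc'
    rcases hM with hM | hM
    · rw [hM] at hc2
      exact hn hc2.symm
    · rw [hM] at hc2
      rw [Matrix.neg_mul, Matrix.mul_neg, neg_inj] at hc2
      exact hn hc2.symm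
  have hfin := hDISTQ p hp5 K h (Fprod p H h) M.transpose ν hν0 hNfix hNd hBd hν hBfix hcom
  rw [← Polynomial.separable_map (algebraMap k K), Polynomial.map_mul, Polynomial.map_X,
    hRED3 p h4 k K f h, hlead]
  exact hfin

end ASQ
end

section
/-!
# MP_b685ef_ag, theorem ASQ, module ROOTSB: quartics of type `(1, 1, 2)`
-/
set_option linter.all false

namespace ASQ

open Finset ASur ASP

/-- **ROOTSB.** `G` squarefree of degree `4` with an irreducible quadratic factor and a root in `k`. -/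
def StmtROOTSB : Prop := ∀ (k : Type) [Field k] [Fintype k] (K : Type) [Field K] [IsAlgClosed K]
  [Algebra k K] (G : Polynomial k), G.natDegree = 4 → Squarefree G →
  (∃ P, Irreducible P ∧ P ∣ G ∧ P.natDegree = 2) → (∃ r : k, G.eval r = 0) →
  ∃ (c : K) (ρ : Fin 4 → K), c ≠ 0 ∧ Function.Injective ρ ∧
    G.map (algebraMap k K) = Polynomial.C c * ∏ i, (Polynomial.X - Polynomial.C (ρ i)) ∧
    ρ 0 ^ Fintype.card k = ρ 0 ∧ ρ 2 ^ Fintype.card k = ρ 2 ∧ ρ 1 ^ Fintype.card k = ρ 3 ∧
    ρ 3 ^ Fintype.card k = ρ 1 ∧ ∀ i, ρ i ^ (Fintype.card k ^ 12) = ρ i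

namespace ROOTSBaux

variable {k : Type} [Field k] [Fintype k] {K : Type} [Field K] [Algebra k K]

theorem mem_of_pow (x : K) (hx : x ^ Fintype.card k = x) : ∃ a : k, algebraMap k K a = x := by
  have h1 : (Polynomial.X ^ Fintype.card k - Polynomial.X : Polynomial k) =
      ∏ a : k, (Polynomial.X - Polynomial.C a) := by
    have hs := FiniteField.roots_X_pow_card_sub_X k
    have hc : 1 < Fintype.card k := Fintype.one_lt_card
    have hm : (Polynomial.X ^ Fintype.card k - Polynomial.X : Polynomial k).Monic :=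
      Polynomial.monic_X_pow_sub (by rw [Polynomial.degree_X]; exact_mod_cast hc)
    have hd : (Polynomial.X ^ Fintype.card k - Polynomial.X : Polynomial k).natDegree =
        Fintype.card k := FiniteField.X_pow_card_sub_X_natDegree_eq k hc
    have := Polynomial.prod_multiset_X_sub_C_of_monic_of_roots_card_eq hm (by
      rw [hs, hd]; rfl)
    rw [hs] at this
    rw [← this]; rfl
  have h2 := congrArg (Polynomial.aeval x) h1
  rw [map_prod] at h2
  simp only [map_sub, map_pow, Polynomial.aeval_X, Polynomial.aeval_C, hx, sub_self] at h2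
  obtain ⟨a, -, ha⟩ := Finset.prod_eq_zero_iff.1 h2.symm
  exact ⟨a, (sub_eq_zero.1 ha).symm⟩

theorem pow_root (P : Polynomial k) (x : K) (hx : Polynomial.aeval x P = 0) :
    Polynomial.aeval (x ^ Fintype.card k) P = 0 := by
  obtain ⟨p, hp⟩ := CharP.exists k
  haveI := hp
  haveI : CharP K p := charP_of_injective_algebraMap (algebraMap k K).injective p
  obtain ⟨n, hpp, hn⟩ := FiniteField.card k p
  haveI : Fact p.Prime := ⟨hpp⟩
  haveI : ExpChar K p := ExpChar.prime hpp
  have h : ∀ Q : Polynomial k, Polynomial.aeval (x ^ Fintype.card k) Q =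
      (Polynomial.aeval x Q) ^ Fintype.card k := by
    intro Q
    induction Q using Polynomial.induction_on' with
    | add Q R hQ hR => rw [map_add, map_add, hQ, hR, hn, add_pow_expChar_pow]
    | monomial m a =>
      rw [Polynomial.aeval_monomial, Polynomial.aeval_monomial, mul_pow, ← map_pow,
        FiniteField.pow_card, ← pow_mul, ← pow_mul, mul_comm m]
  rw [h, hx, zero_pow Fintype.card_ne_zero]

theorem pow_inj (x y : K) (h : x ^ Fintype.card k = y ^ Fintype.card k) : x = y := by
  obtain ⟨p, hp⟩ := CharP.exists k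
  haveI := hp
  haveI : CharP K p := charP_of_injective_algebraMap (algebraMap k K).injective p
  obtain ⟨n, hpp, hn⟩ := FiniteField.card k p
  haveI : Fact p.Prime := ⟨hpp⟩
  haveI : ExpChar K p := ExpChar.prime hpp
  rw [hn] at h
  have : (x - y) ^ (p ^ (n : ℕ)) = 0 := by rw [sub_pow_expChar_pow, h, sub_self]
  exact sub_eq_zero.1 (pow_eq_zero_iff (pow_ne_zero _ hpp.ne_zero) |>.1 this)

end ROOTSBaux

open ROOTSBaux in
theorem rootsb_thm : StmtROOTSB := by
  intro k _ _ K _ _ _ G hd hs ⟨P, hP, hPG, hP2⟩ ⟨r, hr⟩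
  set q := Fintype.card k with hq
  have hG0 : G ≠ 0 := hs.ne_zero
  -- G = P * R, R of degree 2 with the root r
  obtain ⟨R, rfl⟩ := hPG
  have hR0 : R ≠ 0 := right_ne_zero_of_mul hG0
  have hdR : R.natDegree = 2 := by
    rw [Polynomial.natDegree_mul hP.ne_zero hR0, hP2] at hd; omega
  have hnr : ∀ a : k, P.eval a ≠ 0 := by
    intro a ha
    have h1 : P.natDegree = 1 := (Polynomial.degree_eq_iff_natDegree_eq_of_pos one_pos).1
      (Polynomial.degree_eq_one_of_irreducible_of_root hP (x := a) ha)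
    omega
  have hRr : R.eval r = 0 := by
    rw [Polynomial.eval_mul] at hr
    exact (mul_eq_zero.1 hr).resolve_left (hnr r)
  obtain ⟨S, rfl⟩ := Polynomial.dvd_iff_isRoot.2 hRr
  have hS0 : S ≠ 0 := right_ne_zero_of_mul hR0
  have hdS : S.natDegree = 1 := by
    rw [Polynomial.natDegree_mul (Polynomial.X_sub_C_ne_zero r) hS0,
      Polynomial.natDegree_X_sub_C] at hdR; omega
  obtain ⟨u, v, hu, hS⟩ : ∃ u v : k, u ≠ 0 ∧ S = Polynomial.C u * Polynomial.X +
      Polynomial.C v := by
    obtain ⟨u, hu, v, hv⟩ := Polynomial.natDegree_eq_one.1 hdS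
    exact ⟨u, v, hu, hv.symm⟩
  set s : k := -v / u with hsdef
  have hS' : S = Polynomial.C u * (Polynomial.X - Polynomial.C s) := by
    rw [hS, hsdef, mul_sub, ← Polynomial.C_mul, mul_div_cancel₀ _ hu, Polynomial.C_neg,
      sub_neg_eq_add]
  have hrs : r ≠ s := by
    intro h
    have : (Polynomial.X - Polynomial.C r) * (Polynomial.X - Polynomial.C r) ∣
        P * ((Polynomial.X - Polynomial.C r) * S) := by
      rw [hS', ← h]
      exact ⟨P * Polynomial.C u, by ring⟩
    exact Polynomial.not_isUnit_X_sub_C r (hs _ this)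
  -- roots of P
  obtain ⟨τ, hτ⟩ := IsAlgClosed.exists_aeval_eq_zero K P
    (by rw [Polynomial.degree_eq_natDegree hP.ne_zero, hP2]; decide)
  have hτk : ∀ a : k, algebraMap k K a ≠ τ := by
    intro a ha
    rw [← ha, Polynomial.aeval_algebraMap_apply, Polynomial.aeval_def, Polynomial.eval₂_eq_eval_map,
      Algebra.algebraMap_self, Polynomial.map_id] at hτ
    exact hnr a ((map_eq_zero (algebraMap k K)).1 hτ)
  have hτq : Polynomial.aeval (τ ^ q) P = 0 := pow_root P τ hτ
  have hne : τ ^ q ≠ τ := fun h => by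
    obtain ⟨a, ha⟩ := mem_of_pow (k := k) τ h
    exact hτk a ha
  have hτqk : ∀ a : k, algebraMap k K a ≠ τ ^ q := by
    intro a ha
    have : (algebraMap k K a) ^ q = τ ^ q := by rw [← map_pow, FiniteField.pow_card, ha]
    exact hτk a (pow_inj (k := k) _ _ this)
  -- P over K
  have hPK0 : P.map (algebraMap k K) ≠ 0 :=
    (Polynomial.map_ne_zero_iff (algebraMap k K).injective).2 hP.ne_zero
  have hPK2 : (P.map (algebraMap k K)).natDegree = 2 := by rw [Polynomial.natDegree_map, hP2]
  have hrt1 : (P.map (algebraMap k K)).IsRoot τ := by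
    rwa [Polynomial.IsRoot, Polynomial.eval_map_algebraMap]
  have hrt2 : (P.map (algebraMap k K)).IsRoot (τ ^ q) := by
    rwa [Polynomial.IsRoot, Polynomial.eval_map_algebraMap]
  obtain ⟨P1, hP1⟩ := Polynomial.dvd_iff_isRoot.2 hrt1
  have hP10 : P1 ≠ 0 := by rintro rfl; rw [mul_zero] at hP1; exact hPK0 hP1
  have hrt3 : P1.IsRoot (τ ^ q) := by
    rw [hP1, Polynomial.IsRoot, Polynomial.eval_mul, Polynomial.eval_sub, Polynomial.eval_X,
      Polynomial.eval_C] at hrt2
    exact (mul_eq_zero.1 hrt2).resolve_left (sub_ne_zero.2 hne)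
  obtain ⟨P2, hP2'⟩ := Polynomial.dvd_iff_isRoot.2 hrt3
  have hP20 : P2 ≠ 0 := by rintro rfl; rw [mul_zero] at hP2'; exact hP10 hP2'
  have hdP2 : P2.natDegree = 0 := by
    rw [hP1, hP2', Polynomial.natDegree_mul (Polynomial.X_sub_C_ne_zero _)
      (mul_ne_zero (Polynomial.X_sub_C_ne_zero _) hP20), Polynomial.natDegree_mul
      (Polynomial.X_sub_C_ne_zero _) hP20, Polynomial.natDegree_X_sub_C,
      Polynomial.natDegree_X_sub_C] at hPK2
    omega
  obtain ⟨l, hl⟩ := Polynomial.natDegree_eq_zero.1 hdP2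
  have hl0 : l ≠ 0 := by rintro rfl; rw [Polynomial.C_0] at hl; exact hP20 hl.symm
  have hPf : P.map (algebraMap k K) = Polynomial.C l * (Polynomial.X - Polynomial.C τ) *
      (Polynomial.X - Polynomial.C (τ ^ q)) := by
    rw [hP1, hP2', ← hl]; ring
  -- (τ^q)^q = τ
  have hqq : (τ ^ q) ^ q = τ := by
    have h3 : Polynomial.aeval ((τ ^ q) ^ q) P = 0 := pow_root P (τ ^ q) hτq
    have h4 : (P.map (algebraMap k K)).eval ((τ ^ q) ^ q) = 0 := by
      rwa [Polynomial.eval_map_algebraMap]
    rw [hPf] at h4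
    simp only [Polynomial.eval_mul, Polynomial.eval_C, Polynomial.eval_sub, Polynomial.eval_X,
      mul_eq_zero, hl0, false_or] at h4
    rcases h4 with h4 | h4
    · exact sub_eq_zero.1 h4
    · exact absurd (pow_inj (k := k) _ _ (sub_eq_zero.1 h4)) hne
  have hfix : ∀ a : k, ∀ n : ℕ, (algebraMap k K a) ^ (q ^ n) = algebraMap k K a := by
    intro a n
    rw [← map_pow]
    congr 1
    exact FiniteField.pow_card_pow n a
  have hτ2 : ∀ x : K, (x ^ q) ^ q = x → x ^ (q ^ 12) = x := by
    intro x hx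
    have h2 : x ^ (q ^ 2) = x := by rw [pow_two, pow_mul, hx]
    have h3 : ∀ n : ℕ, x ^ ((q ^ 2) ^ n) = x := by
      intro n
      induction n with
      | zero => simp
      | succ n ih => rw [pow_succ, pow_mul, ih, h2]
    have := h3 6
    rwa [← pow_mul] at this
  refine ⟨algebraMap k K u * l, ![algebraMap k K r, τ, algebraMap k K s, τ ^ q],
    mul_ne_zero ((map_ne_zero _).2 hu) hl0, ?_, ?_, ?_, ?_, rfl, hqq, ?_⟩
  · have hrs' : algebraMap k K r ≠ algebraMap k K s := fun h => hrs ((algebraMap k K).injective h)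
    have e1 := hτk r
    have e2 := hτk s
    have e3 := hτqk r
    have e4 := hτqk s
    intro i j hij
    fin_cases i <;> fin_cases j <;>
      first
        | rfl
        | exact absurd hij e1
        | exact absurd hij hrs'
        | exact absurd hij e3
        | exact absurd hij.symm e1
        | exact absurd hij.symm e2
        | exact absurd hij.symm hne
        | exact absurd hij.symm hrs'
        | exact absurd hij e2
        | exact absurd hij e4
        | exact absurd hij.symm e3
        | exact absurd hij hne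
        | exact absurd hij.symm e4
  · rw [Polynomial.map_mul, Polynomial.map_mul, hPf, hS', Fin.prod_univ_four]
    simp only [Polynomial.map_mul, Polynomial.map_sub, Polynomial.map_X, Polynomial.map_C,
      Matrix.cons_val_zero, Matrix.cons_val_one, Matrix.cons_val, Polynomial.C_mul]
    ring
  · have := hfix r 1; rwa [pow_one] at this
  · have := hfix s 1; rwa [pow_one] at this
  · intro i
    fin_cases i
    · exact hfix r 12
    · exact hτ2 τ hqq
    · exact hfix s 12
    · exact hτ2 (τ ^ q) (by rw [hqq])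

end ASQ
end

section
/-!
# MP_b685ef_ag, theorem ASQ, module QALL: (L) for ordinary quartics, types (4), (1,3), (1,1,2)
-/
set_option linter.all false

namespace ASQ

open Finset ASur ASP

/-- **QALL.** As QLAST, with the type `(1, 1, 2)`. -/
def StmtQALL : Prop := ∀ (p : ℕ) [Fact p.Prime], 4 ∣ p - 1 →
  ∀ (k : Type) [Field k] [Fintype k] [Algebra (ZMod p) k] (f : MvPolynomial (Fin 2) k),
  (GF 4 4 f).natDegree = 4 → Squarefree (GF 4 4 f) →
  (∃ P, Irreducible P ∧ P ∣ GF 4 4 f ∧
    (3 ≤ P.natDegree ∨ (P.natDegree = 2 ∧ ∃ r : k, (GF 4 4 f).eval r = 0))) →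
  cf (lead 4 4 f ^ ((p - 1) / 2)) ![p - 1, p - 1] ≠ 0 →
  ∀ m, 1 ≤ m → m < Nat.lcm 4 4 → (Polynomial.X *
    (Fprod p (Hmat p 4 4 (Nat.lcm 4 4) m f) (Module.finrank (ZMod p) k)).charpoly).Separable

theorem invol_map (p : ℕ) [Fact p.Prime] {K : Type} [Field K] [CharP K p] (h : ℕ)
    (r₀ r₁ r₂ r₃ : K) : ((invol r₀ r₁ r₂ r₃).map fun x => x ^ (p ^ h)) =
      invol (r₀ ^ (p ^ h)) (r₁ ^ (p ^ h)) (r₂ ^ (p ^ h)) (r₃ ^ (p ^ h)) := by
  haveI : ExpChar K p := ExpChar.prime (Fact.out : p.Prime)
  have h6 : (fun x : K => x ^ (p ^ h)) = iterateFrobenius K p h := by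
    funext x; rw [iterateFrobenius_def]
  have h7 : ∀ x : K, x ^ (p ^ h) = iterateFrobenius K p h x := fun x => by
    rw [iterateFrobenius_def]
  rw [h6, h7, h7, h7, h7]
  ext i j
  fin_cases i <;> fin_cases j <;> simp [invol, map_sub, map_mul, map_add, map_neg]

theorem invol_last {K : Type} [Field K] (r₀ r₁ r₂ r₃ : K) :
    invol r₀ r₁ r₃ r₂ = invol r₀ r₁ r₂ r₃ := by
  ext i j
  fin_cases i <;> fin_cases j <;> simp [invol] <;> ring

theorem invol_neg {K : Type} [Field K] (r₀ r₁ r₂ r₃ : K) :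
    invol r₀ r₃ r₂ r₁ = -invol r₁ r₂ r₃ r₀ := by
  ext i j
  fin_cases i <;> fin_cases j <;> simp [invol] <;> ring

theorem quart_sub (m : ℕ) (hm : m < 3) : Subsingleton (Um 4 4 (Nat.lcm 4 4) m) := by
  constructor
  intro u v
  have hu := u.2
  have hv := v.2
  rw [RED3aux.ew_eq] at hu hv
  apply Subtype.ext
  funext s
  apply Fin.ext
  fin_cases s
  · show (u.1 0 : ℕ) = (v.1 0 : ℕ)
    omega
  · show (u.1 1 : ℕ) = (v.1 1 : ℕ)
    omega

theorem qall_thm (hHEQ : StmtHEQ) (hINVQ : StmtINVQ) (hNCOM : StmtNCOM) (hITERQ : StmtITERQ)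
    (hDISTQ : StmtDISTQ) (hDETH3 : StmtDETH3) (hLEAD4 : StmtLEAD4) (hRED3 : StmtRED3)
    (hROOTS4 : StmtROOTS4) (hROOTSB : StmtROOTSB) : StmtQALL := by
  intro p _ h4 k _ _ _ f hd hs ⟨P, hP, hPG, hP3⟩ hcf m hm1 hm4
  have hl : Nat.lcm 4 4 = 4 := by decide
  have hpp : p.Prime := Fact.out
  haveI : CharP k p := charP_of_injective_algebraMap (algebraMap (ZMod p) k).injective p
  rcases Nat.lt_or_ge m 3 with hm3 | hm3
  · haveI := quart_sub m hm3
    refine cubic_small k _ _ (cubic_fprod p k _ _ ?_ _)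
    rcases isEmpty_or_nonempty (Um 4 4 (Nat.lcm 4 4) m) with he | ⟨⟨u⟩⟩
    · rw [Matrix.det_isEmpty]; exact one_ne_zero
    · haveI : Unique (Um 4 4 (Nat.lcm 4 4) m) := uniqueOfSubsingleton u
      rw [Matrix.det_unique]
      have hdef : (default : Um 4 4 (Nat.lcm 4 4) m) = u := Subsingleton.elim _ _
      rw [hdef]
      have hu := u.2
      rw [RED3aux.ew_eq] at hu
      have hm2 : m = 2 := by omega
      subst hm2
      have hu0 : (u.1 0 : ℕ) = 0 := by omega
      have hu1 : (u.1 1 : ℕ) = 0 := by omega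
      have hexp : (p - 1) / Nat.lcm 4 4 * 2 = (p - 1) / 2 := by
        rw [hl]
        obtain ⟨t, ht⟩ := h4
        rw [ht]; omega
      have hw : (fun s => p * ((u.1 s : ℕ) + 1) - ((u.1 s : ℕ) + 1)) = ![p - 1, p - 1] := by
        funext s
        fin_cases s
        · show p * ((u.1 0 : ℕ) + 1) - ((u.1 0 : ℕ) + 1) = p - 1
          rw [hu0]; omega
        · show p * ((u.1 1 : ℕ) + 1) - ((u.1 1 : ℕ) + 1) = p - 1
          rw [hu1]; omega
      have : Hmat p 4 4 (Nat.lcm 4 4) 2 f u u =
          cf (lead 4 4 f ^ ((p - 1) / Nat.lcm 4 4 * 2))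
            (fun s => p * ((u.1 s : ℕ) + 1) - ((u.1 s : ℕ) + 1)) := rfl
      rw [this, hexp, hw]
      exact hcf
  · have hm3' : m = 3 := by omega
    subst hm3'
    let K := AlgebraicClosure k
    haveI : CharP K p := charP_of_injective_algebraMap (algebraMap k K).injective p
    haveI : Module.Finite (ZMod p) k := Module.Finite.of_finite
    have hq : Fintype.card k = p ^ Module.finrank (ZMod p) k := by
      rw [Module.card_eq_pow_finrank (K := ZMod p) (V := k), ZMod.card]
    rcases hP3 with hP3 | ⟨hP2, hr⟩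
    · obtain ⟨c, ρ, hc, hρ, hG, h1, h2, h3, hfix⟩ := hROOTS4 k K (GF 4 4 f) hd hs ⟨P, hP, hPG, hP3⟩
      refine qcore hHEQ hINVQ hNCOM hITERQ hDISTQ hDETH3 hLEAD4 hRED3 p h4 k K f c ρ hc hρ hG hfix
        (Or.inl ?_)
      rw [hq, invol_map, ← hq, ← h1, ← h2]
      rcases h3 with ⟨h3, h4'⟩ | ⟨h3, h4'⟩
      · rw [h3, h4']
      · rw [h3, h4', invol_last]
    · obtain ⟨c, ρ, hc, hρ, hG, h0, h2, h1, h3, hfix⟩ :=
        hROOTSB k K (GF 4 4 f) hd hs ⟨P, hP, hPG, hP2⟩ hr
      refine qcore hHEQ hINVQ hNCOM hITERQ hDISTQ hDETH3 hLEAD4 hRED3 p h4 k K f c ρ hc hρ hG hfix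
        (Or.inr ?_)
      rw [hq, invol_map, ← hq, h0, h1, h2, h3, invol_neg]

end ASQ
end
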