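import Pool.Agent.Lib.MP_b685ef_ag.ASQ.Spec
import Pool.Agent.Lib.MP_b685ef_ag.ASP.Main
import Pool.Agent.Lib.MP_b685ef_ag.ASQ.QALL

section
namespace ASQ

namespace ROOTS4M

open Polynomial

theorem aeval_frob {k : Type} [Field k] [Fintype k] {K : Type} [Field K] [Algebra k K]
    (g : k[X]) (x : K) (i : ℕ) :
    aeval (x ^ (Fintype.card k ^ i)) g = (aeval x g) ^ (Fintype.card k ^ i) := by
  induction i with
  | zero => simp
  | succ i ih =>
    have h1 : ∀ y : K, aeval (y ^ Fintype.card k) g = (aeval y g) ^ Fintype.card k := by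
      intro y
      rw [← Polynomial.expand_aeval, FiniteField.expand_card, map_pow]
    rw [pow_succ, pow_mul, h1, ih, ← pow_mul]

theorem degree_le {k : Type} [Field k] [Fintype k] {K : Type} [Field K] [Algebra k K]
    (P : k[X]) (hP : Irreducible P) (x : K) (hx : aeval x P = 0) (i : ℕ) (hi : i ≠ 0)
    (hxi : x ^ (Fintype.card k ^ i) = x) : P.natDegree ≤ i := by
  classical
  have hq : 1 < Fintype.card k := Fintype.one_lt_card
  have hmin : (minpoly k x).degree = P.degree := by
    rw [← minpoly.eq_of_irreducible hP hx, Polynomial.degree_mul,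
      Polynomial.degree_C (inv_ne_zero (Polynomial.leadingCoeff_ne_zero.mpr hP.ne_zero)), add_zero]
  set S : Finset K := (X ^ (Fintype.card k ^ i) - X : K[X]).roots.toFinset with hS
  have hne : (X ^ (Fintype.card k ^ i) - X : K[X]) ≠ 0 :=
    FiniteField.X_pow_card_pow_sub_X_ne_zero K hi hq
  have hScard : S.card ≤ Fintype.card k ^ i := by
    refine (Multiset.toFinset_card_le _).trans ((Polynomial.card_roots' _).trans ?_)
    rw [FiniteField.X_pow_card_sub_X_natDegree_eq K (Nat.one_lt_pow hi hq)]
  have hinj : Function.Injective (fun a : Fin P.natDegree → k =>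
      aeval x (∑ j : Fin P.natDegree, C (a j) * X ^ (j : ℕ))) := by
    intro a b hab
    simp only at hab
    rw [← sub_eq_zero, ← map_sub, ← Finset.sum_sub_distrib] at hab
    have he : (∑ j : Fin P.natDegree, (C (a j) * X ^ (j : ℕ) - C (b j) * X ^ (j : ℕ)) : k[X]) =
        ∑ j : Fin P.natDegree, C ((a - b) j) * X ^ (j : ℕ) := by
      refine Finset.sum_congr rfl fun j _ => ?_
      rw [Pi.sub_apply, C_sub, sub_mul]
    rw [he] at hab
    by_contra hne'
    have hg : (∑ j : Fin P.natDegree, C ((a - b) j) * X ^ (j : ℕ) : k[X]) ≠ 0 := by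
      intro h0
      apply hne'
      funext j
      have h1 := congrArg (fun g : k[X] => g.coeff (j : ℕ)) h0
      simp only [Polynomial.finsetSum_coeff, Polynomial.coeff_C_mul, Polynomial.coeff_X_pow,
        Polynomial.coeff_zero] at h1
      rw [Finset.sum_eq_single j] at h1
      · simp only [if_true, mul_one, Pi.sub_apply] at h1
        exact sub_eq_zero.mp h1
      · intro l _ hl
        rw [if_neg (fun h => hl (Fin.ext h.symm)), mul_zero]
      · intro h
        exact absurd (Finset.mem_univ _) h
    have h1 := minpoly.degree_le_of_ne_zero k x hg hab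
    rw [hmin, Polynomial.degree_eq_natDegree hP.ne_zero] at h1
    exact absurd h1 (not_le.mpr (Polynomial.degree_sum_fin_lt _))
  have hle : Fintype.card (Fin P.natDegree → k) ≤ S.card := by
    rw [← Finset.card_univ]
    refine Finset.card_le_card_of_injOn _ ?_ (hinj.injOn)
    intro a _
    rw [Finset.mem_coe, hS, Multiset.mem_toFinset, Polynomial.mem_roots hne,
      Polynomial.IsRoot.def]
    simp only [Polynomial.eval_sub, Polynomial.eval_pow, Polynomial.eval_X]
    rw [← aeval_frob, hxi, sub_self]
  rw [Fintype.card_fun, Fintype.card_fin] at hle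
  exact (Nat.pow_le_pow_iff_right hq).mp (hle.trans hScard)

end ROOTS4M

open ROOTS4M Polynomial in
theorem roots4_thm : StmtROOTS4 := by
  intro k _ _ K _ _ _ G hG4 hGs ⟨P, hP, hPG, hP3⟩
  classical
  set q : ℕ := Fintype.card k with hq
  have hq1 : 1 < q := Fintype.one_lt_card
  have hG0 : G ≠ 0 := by
    rintro rfl
    simp at hG4
  set Gk : K[X] := G.map (algebraMap k K) with hGk
  have hdeg : Gk.natDegree = 4 := by
    rw [hGk, Polynomial.natDegree_map]
    exact hG4
  have hGk0 : Gk ≠ 0 := by
    intro h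
    rw [h] at hdeg
    simp at hdeg
  have hsep : Gk.Separable := (PerfectField.separable_iff_squarefree.mpr hGs).map
  have hnd : Gk.roots.Nodup := Polynomial.nodup_roots hsep
  have hcard : Gk.roots.card = 4 := by
    rw [← hdeg]
    exact ((IsAlgClosed.splits Gk).natDegree_eq_card_roots).symm
  set T : Finset K := Gk.roots.toFinset with hT
  have hTcard : T.card = 4 := by
    rw [hT, Multiset.toFinset_card_of_nodup hnd, hcard]
  have hmem : ∀ x : K, x ∈ T ↔ aeval x G = 0 := by
    intro x
    rw [hT, Multiset.mem_toFinset, Polynomial.mem_roots hGk0, Polynomial.IsRoot.def, hGk,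
      Polynomial.eval_map_algebraMap]
  have hφT : ∀ x ∈ T, x ^ q ∈ T := by
    intro x hx
    rw [hmem] at hx ⊢
    have := aeval_frob G x 1
    rw [pow_one, ← hq] at this
    rw [this, hx, zero_pow (by omega)]
  have hφinj : ∀ x y : K, x ^ q = y ^ q → x = y := by
    intro x y hxy
    obtain ⟨p, hp⟩ := CharP.exists k
    haveI := hp
    haveI : CharP K p := charP_of_injective_algebraMap (algebraMap k K).injective p
    obtain ⟨n, hpp, hn⟩ := FiniteField.card k p
    haveI : Fact p.Prime := ⟨hpp⟩
    have h1 : q = p ^ (n : ℕ) := hn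
    rw [h1] at hxy
    exact iterateFrobenius_inj K p n (by simpa [iterateFrobenius_def] using hxy)
  -- the root of P
  obtain ⟨x, hx⟩ : ∃ x : K, aeval x P = 0 := by
    obtain ⟨x, hx⟩ := IsAlgClosed.exists_aeval_eq_zero K P (by
      rw [Polynomial.degree_eq_natDegree hP.ne_zero]
      have : P.natDegree ≠ 0 := by omega
      exact_mod_cast this)
    exact ⟨x, hx⟩
  have hx0T : x ∈ T := by
    rw [hmem]
    obtain ⟨R, hR⟩ := hPG
    rw [hR, map_mul, hx, zero_mul]
  have hx1T := hφT _ hx0T
  have hx2T := hφT _ hx1T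
  have h01 : x ≠ x ^ q := by
    intro h
    have := degree_le P hP x hx 1 one_ne_zero (by rw [pow_one, ← hq]; exact h.symm)
    omega
  have h02 : x ≠ (x ^ q) ^ q := by
    intro h
    have := degree_le P hP x hx 2 two_ne_zero (by rw [← hq, sq, pow_mul]; exact h.symm)
    omega
  have h12 : x ^ q ≠ (x ^ q) ^ q := fun h => h01 (hφinj _ _ h)
  obtain ⟨y, hyT, hyn⟩ : ∃ y ∈ T, y ∉ ({x, x ^ q, (x ^ q) ^ q} : Finset K) := by
    by_contra hcon
    push Not at hcon
    have h1 : T ⊆ ({x, x ^ q, (x ^ q) ^ q} : Finset K) := hcon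
    have h2 := Finset.card_le_card h1
    have h3 := Finset.card_le_three (a := x) (b := x ^ q) (c := (x ^ q) ^ q)
    omega
  simp only [Finset.mem_insert, Finset.mem_singleton, not_or] at hyn
  obtain ⟨hy0, hy1, hy2⟩ := hyn
  have hinj : Function.Injective (![x, x ^ q, (x ^ q) ^ q, y] : Fin 4 → K) := by
    intro i j hij
    fin_cases i <;> fin_cases j <;>
      simp only [Fin.zero_eta, Fin.mk_one, Fin.reduceFinMk, Fin.isValue, Matrix.cons_val_zero,
        Matrix.cons_val_one, Matrix.cons_val] at hij ⊢ <;>
      first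
        | exact absurd hij h01
        | exact absurd hij.symm h01
        | exact absurd hij h02
        | exact absurd hij.symm h02
        | exact absurd hij h12
        | exact absurd hij.symm h12
        | exact absurd hij hy0
        | exact absurd hij.symm hy0
        | exact absurd hij hy1
        | exact absurd hij.symm hy1
        | exact absurd hij hy2
        | exact absurd hij.symm hy2
  have hTim : T = Finset.univ.image (![x, x ^ q, (x ^ q) ^ q, y] : Fin 4 → K) := by
    symm
    apply Finset.eq_of_subset_of_card_le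
    · intro z hz
      rw [Finset.mem_image] at hz
      obtain ⟨i, -, rfl⟩ := hz
      fin_cases i
      · exact hx0T
      · exact hx1T
      · exact hx2T
      · exact hyT
    · rw [Finset.card_image_of_injective _ hinj, hTcard]
      simp
  have hmem4 : ∀ z ∈ T, z = x ∨ z = x ^ q ∨ z = (x ^ q) ^ q ∨ z = y := by
    intro z hz
    rw [hTim, Finset.mem_image] at hz
    obtain ⟨i, -, rfl⟩ := hz
    fin_cases i <;> simp
  have hcase : (((x ^ q) ^ q) ^ q = y ∧ y ^ q = x) ∨ (((x ^ q) ^ q) ^ q = x ∧ y ^ q = y) := by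
    have a := hmem4 _ (hφT _ hx2T)
    have b := hmem4 _ (hφT _ hyT)
    rcases a with a | a | a | a
    · rcases b with b | b | b | b
      · exact absurd (hφinj _ _ (a.trans b.symm)) (fun h => hy2 h.symm)
      · exact absurd (hφinj _ _ b) hy0
      · exact absurd (hφinj _ _ b) hy1
      · exact Or.inr ⟨a, b⟩
    · exact absurd (hφinj _ _ a).symm h02
    · exact absurd (hφinj _ _ a).symm h12
    · rcases b with b | b | b | b
      · exact Or.inl ⟨a, b⟩
      · exact absurd (hφinj _ _ b) hy0
      · exact absurd (hφinj _ _ b) hy1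
      · exact absurd (hφinj _ _ (a.trans b.symm)) (fun h => hy2 h.symm)
  refine ⟨Gk.leadingCoeff, ![x, x ^ q, (x ^ q) ^ q, y],
    Polynomial.leadingCoeff_ne_zero.mpr hGk0, hinj, ?_, rfl, rfl, hcase, ?_⟩
  · have h1 := (IsAlgClosed.splits Gk).eq_prod_roots
    have h2 : (Multiset.map (fun x => X - C x) Gk.roots).prod = ∏ z ∈ T, (X - C z) := by
      rw [Finset.prod, hT, Multiset.toFinset_val, hnd.dedup]
    rw [h2, hTim, Finset.prod_image (fun i _ j _ hij => hinj hij)] at h1
    exact h1
  · have h12' : ∀ z : K, z ^ (q ^ 12) =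
        (((((((((((z ^ q) ^ q) ^ q) ^ q) ^ q) ^ q) ^ q) ^ q) ^ q) ^ q) ^ q) ^ q := by
      intro z
      simp only [← pow_mul]
      congr 1
      ring
    intro i
    rw [h12']
    rcases hcase with ⟨a, b⟩ | ⟨a, b⟩
    · fin_cases i <;>
        simp only [Fin.zero_eta, Fin.mk_one, Fin.reduceFinMk, Fin.isValue, Matrix.cons_val_zero,
          Matrix.cons_val_one, Matrix.cons_val, a, b]
    · fin_cases i <;>
        simp only [Fin.zero_eta, Fin.mk_one, Fin.reduceFinMk, Fin.isValue, Matrix.cons_val_zero,
          Matrix.cons_val_one, Matrix.cons_val, a, b]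

end ASQ
end

section
/-! # Module TRANS: transport of a solution to `C` (extracted from `AS/FINAL.lean`). -/
set_option linter.all false

namespace ASQ

open Finset ASur ASP

universe u v

namespace TRANSaux

theorem alg {p : ℕ} [Fact p.Prime] {K : Type*} [Field K] [CharZero K]
    (ψ : AddChar (ZMod p) K) (x : ZMod p) : IsAlgebraic ℚ (ψ x) := by
  have h1 : (ψ x) ^ p = 1 := by
    rw [← AddChar.map_nsmul_eq_pow]
    simp
  have : IsIntegral ℚ (ψ x) := by
    refine IsIntegral.of_pow (Fact.out : p.Prime).pos ?_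
    rw [h1]
    exact isIntegral_one
  exact this.isAlgebraic

end TRANSaux

theorem trans_thm : StmtTRANS.{u} := by
  classical
  intro p _ k _ _ _ f K _ _ C _ _ A g hA ψ hψ β hβ0 hβA hT
  have alg := fun (χ : AddChar (ZMod p) K) (x : ZMod p) => TRANSaux.alg χ x
  -- the characters over C
  let tr : AddChar (ZMod p) K → AddChar (ZMod p) C := fun χ =>
    { toFun := fun x => g ⟨χ x, hA _ (alg χ x)⟩
      map_zero_eq_one' := by
        rw [← map_one g]
        congr 1
        apply Subtype.ext
        simp
      map_add_eq_mul' := by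
        intro x y
        rw [← map_mul g]
        congr 1
        apply Subtype.ext
        simp [AddChar.map_add_eq_mul] }
  have htr : ∀ χ : AddChar (ZMod p) K, ∀ x, (tr χ) x = g ⟨χ x, hA _ (alg χ x)⟩ :=
    fun _ _ => rfl
  have hginj : Function.Injective g := g.injective
  have hψ' : tr ψ ≠ 1 := by
    intro h
    apply hψ
    ext x
    have h1 : (tr ψ) x = 1 := by rw [h]; rfl
    rw [htr, ← map_one g] at h1
    have := congrArg Subtype.val (hginj h1)
    simpa using this
  have htinv : tr ψ⁻¹ = (tr ψ)⁻¹ := by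
    ext x
    rw [AddChar.inv_apply, htr, htr]
    congr 1
  -- the multiset over A
  obtain ⟨βA, hβA'⟩ : ∃ βA : Multiset A, βA.map (fun x : A => (x : K)) = β := by
    refine ⟨β.attach.map fun x => ⟨x.1, hβA x.1 x.2⟩, ?_⟩
    simp only [Multiset.map_map, Function.comp]
    exact Multiset.attach_map_val β
  have hSf : ∀ (χ : AddChar (ZMod p) K) (E : Type) [Field E] [Fintype E] [Algebra (ZMod p) E]
      [Algebra k E], ∃ s : A, (s : K) = Sf χ f E ∧ g s = Sf (tr χ) f E := by
    intro χ E _ _ _ _
    refine ⟨∑ x : Fin 2 → E, ⟨χ (Algebra.trace (ZMod p) E (MvPolynomial.aeval x f)),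
      hA _ (alg χ _)⟩, ?_, ?_⟩
    · unfold Sf
      push_cast
      rfl
    · unfold Sf
      rw [map_sum]
      rfl
  have hA0 : ∀ x ∈ βA, x ≠ 0 := by
    intro x hx h0
    have : (x : K) ∈ β := by
      rw [← hβA']
      exact Multiset.mem_map_of_mem _ hx
    exact hβ0 _ this (by rw [h0]; rfl)
  refine ⟨tr ψ, βA.map g, hψ', ?_, ?_, ?_, ?_⟩
  · intro y hy
    obtain ⟨x, hx, rfl⟩ := Multiset.mem_map.1 hy
    exact (map_ne_zero g).2 (hA0 x hx)
  · rw [Multiset.card_map, ← hβA', Multiset.card_map]
  · intro E _ _ _ _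
    obtain ⟨t1, t2⟩ := hT E
    obtain ⟨s, hs1, hs2⟩ := hSf ψ E
    obtain ⟨s', hs1', hs2'⟩ := hSf ψ⁻¹ E
    have hsumA : ∀ m : Multiset A, ((m.sum : A) : K) = (m.map fun x : A => (x : K)).sum :=
      fun m => map_multiset_sum (A.subtype) m
    have e1 : (βA.map fun x => x ^ Module.finrank k E).sum = s := by
      apply Subtype.ext
      rw [hs1, ← t1, ← hβA', Multiset.map_map, hsumA, Multiset.map_map]
      rfl
    have e2 : ((Fintype.card k : A) ^ Module.finrank k E) ^ 2 *
        (βA.map fun x => (x⁻¹) ^ Module.finrank k E).sum = s' := by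
      apply Subtype.ext
      rw [hs1', ← t2, ← hβA', Multiset.map_map]
      have hc : (((Fintype.card k : A) ^ Module.finrank k E) ^ 2 : K) =
        ((Fintype.card k : K) ^ Module.finrank k E) ^ 2 := by push_cast; rfl
      rw [Subfield.coe_mul, hsumA, Multiset.map_map]
      rfl
    constructor
    · rw [← hs2, ← e1, map_multiset_sum, Multiset.map_map, Multiset.map_map]
      congr 1
      refine Multiset.map_congr rfl fun x _ => ?_
      simp only [Function.comp, map_pow]
    · rw [← htinv, ← hs2', ← e2, map_mul, map_pow, map_pow, map_natCast, map_multiset_sum,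
        Multiset.map_map, Multiset.map_map]
      congr 2
      refine Multiset.map_congr rfl fun x _ => ?_
      simp only [Function.comp, map_pow, map_inv₀]
  · intro x hx n hn
    have h1 : Multiset.replicate n (⟨x, hx⟩ : A) ≤ βA := by
      rw [← Multiset.map_le_map_iff (f := fun x : A => (x : K)) Subtype.val_injective, hβA',
        Multiset.map_replicate]
      exact hn
    have h2 := Multiset.map_le_map (f := g) h1
    rwa [Multiset.map_replicate] at h2

end ASQ
end

section
/-!
# MP_b685ef_ag, theorem ASQ: assembly of the modules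
-/
set_option linter.all false

namespace ASQ

open ASur ASP

universe u v

theorem main_CLSX : StmtCLSX := CLSX_thm main_HALFP COUNT_thm PATHG_thm main_PERMC HGI_thm

theorem main_FINX : StmtFINX.{u, v} :=
  FINX_thm main_CLSX trans_thm place_thm fatou_thm unitq_thm linalg_thm ext_thm

theorem main_HEQ : StmtHEQ := heq_thm CARE_thm

theorem main_DETH3 : StmtDETH3 := deth3_thm main_HEQ detc_thm

theorem main_QALL : StmtQALL :=
  qall_thm main_HEQ INVQ_thm ncom_thm iterq_thm distq_thm main_DETH3 lead4_thm red3_thm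
    roots4_thm rootsb_thm

end ASQ
end
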